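import Pool.Agent.RDS.Core

set_option autoImplicit false

/-!
# RDS (MP_f8b4c8_lc): targets

THEOREM (row 5295 of ideas, lead: GO). There is an oracle relative to which some NP-complete set is
not disjunctively self-reducible, even in the general sense (the queries need not be shorter, only
the chains are polynomially bounded). One file per target, `Pool/Agent/RDS/P_XXX.lean`,
`theorem Pool.Agent.RDS.p_XXX (other targets) : T_XXX`, helper lemmas in the namespace
`Pool.Agent.RDS.XXX_`. The docstrings contain the proofs; `R' = up R w z` is the oracle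
with the value `z` at `w`.
-/

namespace Pool.Agent.RDS

open Pool.Agent.DSR (Lang PolyTime encPair encBool Ans Letter encAns)
open Pool.Agent.PT (Dat PolyF)

/-! ### Counting oracles -/

/-- **UPD** (25 min). Double counting: both sides count the pairs `(ω, y)` with
`B (update ω i y)`; the map `(ω, y) ↦ (update ω i y, ω i)` is an involution of the set of pairs. -/
def T_UPD : Prop := ∀ (ι : Type) [Fintype ι] [DecidableEq ι] (V : ι → Type) [∀ i, Fintype (V i)]
  (i : ι) (B : (∀ j, V j) → Prop),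
  {ω | B ω}.ncard * Fintype.card (V i) =
    ∑ ω : (∀ j, V j), {y : V i | B (Function.update ω i y)}.ncard

/-- **INJC** (45 min; from UPD). `ex R₀ ω u = ex R₀ ω v`, `u ≠ v`, implies `|u| = |v|` (lengths of
the
values), and both `u, v ∈ FF m N` (otherwise both values are those of `R₀`). For fixed `u ≠ v` in
`FF m N` of length `l`: by UPD at `u` (`b ≤ 1`) at most `card / 2^(10 l + 1)` such `ω`. At most
`4^l` pairs for
each `l`, so at most `card * N * 2^(-8 m)`. -/
def T_INJC : Prop := ∀ (R₀ : Str → Str) (m N : ℕ), Reg R₀ → 1 ≤ m → N ≤ 2 ^ m →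
  {ω : Om m N | ¬ Reg (ex R₀ ω)}.ncard * 8 ≤ Fintype.card (Om m N)

/-- **BADI** (45 min). Let `Y` be the set of these `y`; for `y ∈ Y` choose `ψ'(y)`. It is
injective on
`Y` (so `|Y| < 2^(2 |ψ|)`, the number of strings shorter than `2 |ψ|`): let `y ≠ y'` in `Y` with
the same
`ψ'`, `Q = up (up R ψ y) w z`. `Q` is regular (`up_reg`; `y ≠ z` by length) and agrees with `R₀`
below
`m₀`, so `Corr K G q Q`. The oracles `Q` and `up R ψ y'` agree outside `ψ`, `w`, which are not in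
`T (up R ψ y') y'`, so `g Q y' = g (up R ψ y') y'` is a list which contains `R ψ' = Q ψ'`, and
`ψ' ∈ K Q`; so `Q ψ' ∈ AA K Q` and `y' ∈ AA K Q`; but `y'` is not a value of `Q` (`up R ψ y'` is
injective, `y' ≠ y`, `y' ≠ z` by length). -/
def T_BADI : Prop := ∀ (K : (Str → Str) → Set Str) (G : Alg) (q : Polynomial ℕ) (R₀ : Str → Str)
  (m₀ : ℕ), HH K G q R₀ m₀ → ∀ (R : Str → Str) (w z ψ : Str), Agr m₀ R₀ R → m₀ ≤ w.length →
  w.length < ψ.length → z.length = 10 * w.length + 1 → (∀ u, R u ≠ z) →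
  {y : List.Vector Bool (10 * ψ.length + 1) | Bad K G (up R ψ y.toList) w z ψ}.ncard ≤
    2 ^ (2 * ψ.length)

/-- **BADC** (25 min; from UPD, BADI). UPD at the index `ψ`: `ex R₀ (update ω ψ y) = up (ex R₀ ω)
ψ y`;
`card (V ψ) = 2^(10 |ψ| + 1)`. -/
def T_BADC : Prop := ∀ (K : (Str → Str) → Set Str) (G : Alg) (q : Polynomial ℕ) (R₀ : Str → Str)
  (m₀ : ℕ), HH K G q R₀ m₀ → Reg R₀ → ∀ (m N : ℕ) (w z ψ : Str), m₀ ≤ m → w.length = m →
  z.length = 10 * m + 1 → (∀ u, R₀ u ≠ z) → ψ ∈ FF m N →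
  {ω : Om m N | Bad K G (ex R₀ ω) w z ψ}.ncard * 2 ^ (8 * ψ.length) ≤ Fintype.card (Om m N)

/-- **INVC** (50 min; from UPD). For `ψ ∈ FF m N` with `|ψ| = l`: by UPD
`#{ω | ψ ∈ T (ex ω) (ex ω ψ)} * 2^(10 l + 1) = ∑_(ω, y) [ψ ∈ T (ex (update ω ψ y)) y]
= ∑_(ω, y) [ψ ∈ T (ex ω) y]`, because two oracles which differ only at `ψ` agree about
`ψ ∈ T _ y` (`Alg.loc`: if `ψ` is not in the first set the sets are equal, and conversely). Sum
over
all `ψ` of length `l`: at most `card * 2^(10 l + 1) * 2^s` (`cardT`). Sum over `l ≤ N`, `l > m`. -/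
def T_INVC : Prop := ∀ (G : Alg) (R₀ : Str → Str) (m N s : ℕ),
  (∀ l, l ≤ 10 * N + 1 → G.P.eval l ≤ 2 ^ s) →
  ∑ ψ ∈ FF m N, {ω : Om m N | ψ ∈ G.T (ex R₀ ω) (ex R₀ ω ψ)}.ncard ≤
    N * 2 ^ s * Fintype.card (Om m N)

/-- **GOOD** (60 min; from INJC, BADC, INVC). Union bound, `C = card (Om m N) > 0`. Not regular:
at most
`C / 8` (`N ≤ 2^s ≤ 2^m`). More than `2^(2s+1)` strings with `ψ ∈ T R (R ψ)`: less than `C / 2`
(Markov,
INVC: the sum over `ω` of their number is at most `2^(2s) C`). `Bad` for some `w`, `z`, `ψ`: at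
most
`∑_(l = m+1)^N 2^l * 2^m * 2^(2s+2) * C / 2^(8l) ≤ 2^(3s + 2 + m - 7(m+1)) C ≤ C / 8`
(`|W| ≤ 2^m` as all its members have length `m`; at most `2^l` strings of length `l`). Take
`R = ex R₀ ω` for the remaining `ω`: `R` agrees with `R₀` below `m + 1`; a value `z` of length `10
m + 1` is
taken only at a string of length `m`, where `R = R₀`. -/
def T_GOOD : Prop := ∀ (K : (Str → Str) → Set Str) (G : Alg) (q : Polynomial ℕ) (R₀ : Str → Str)
  (m₀ : ℕ), HH K G q R₀ m₀ → Reg R₀ → ∀ (m N s : ℕ) (W Z : Finset Str), m₀ ≤ m → 1 ≤ m →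
  N ≤ 2 ^ s → 3 * s ≤ m → (∀ l, l ≤ 10 * N + 1 → G.P.eval l ≤ 2 ^ s) → (∀ w ∈ W, w.length = m) →
  Z.card ≤ 2 ^ (2 * s + 2) → (∀ z ∈ Z, z.length = 10 * m + 1 ∧ ∀ u, R₀ u ≠ z) →
  ∃ R, Reg R ∧ Agr (m + 1) R₀ R ∧ (∀ z ∈ Z, ∀ u, R u ≠ z) ∧
    {ψ | ψ ∈ FF m N ∧ ψ ∈ G.T R (R ψ)}.ncard ≤ 2 ^ (2 * s + 1) ∧
    ∀ w ∈ W, ∀ z ∈ Z, ∀ ψ ∈ FF m N, ¬ Bad K G R w z ψ

/-! ### Chains -/

/-- **TRE** (45 min). The set `lev j z` of all `c j` for chains `c` of length `j` with `c 0 = z`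
is finite
with at most `(2^s)^j` members (`kids`; all members have length at most `N`), each with at most
`2^s`
strings in `T`. So at most `|Z| (D + 1) 2^(s (D+1))` strings are forbidden. -/
def T_TRE : Prop := ∀ (G : Alg) (R : Str → Str) (q : Polynomial ℕ) (N s D : ℕ) (W Z : Finset Str),
  (∀ (c : ℕ → Str) (k : ℕ), Chn G R c k → (c k).length ≤ q.eval (c 0).length) →
  (∀ z ∈ Z, q.eval z.length ≤ N) → (∀ l, l ≤ 10 * N + 1 → G.P.eval l ≤ 2 ^ s) →
  Z.card * ((D + 1) * 2 ^ (s * (D + 1))) < W.card → ∃ w ∈ W, ∀ z ∈ Z, Unt G R w z D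

/-- **RNK** (25 min). Otherwise `c' t = c (i + t % (j - i))` is a chain of every length `k'`. -/
def T_RNK : Prop := ∀ (G : Alg) (R : Str → Str) (q : Polynomial ℕ),
  (∀ (c : ℕ → Str) (k : ℕ), Chn G R c k → k ≤ q.eval (c 0).length) →
  ∀ (c : ℕ → Str) (k : ℕ), Chn G R c k → ∀ i j, i < j → j ≤ k → c i ≠ c j

/-- **CHN** (30 min). Induction on `D`. Step: `w` is not in `T R (c i)`, so the values at `c i`
are the
same for `R` and `R' = up R w z`; it is not ACCEPT (`c i ∉ AA K R`), not REJECT (`c i ∈ AA K R'`);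
it is a
list with a member in `AA K R'`, which is not in `AA K R`. -/
def T_CHN : Prop := ∀ (K : (Str → Str) → Set Str) (G : Alg) (q : Polynomial ℕ) (R : Str → Str)
  (w z : Str) (D : ℕ), Corr K G q R → Corr K G q (up R w z) → z ∉ AA K R → z ∈ AA K (up R w z) →
  Unt G R w z D → ∃ c : ℕ → Str, c 0 = z ∧ Chn G R c D ∧
    ∀ i ≤ D, c i ∈ AA K (up R w z) ∧ c i ∉ AA K R

/-- **PRE** (15 min). `y = R' ψ`, `ψ ∈ K R'`; `ψ ≠ w` as `y ≠ z`; so `R ψ = y`, `ψ ∉ K R`; if
`|ψ| ≤ |w|` then `R` and `R'` agree below `|ψ|`, contradiction to `KOk.loc`. -/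
def T_PRE : Prop := ∀ K : (Str → Str) → Set Str, KOk K → ∀ (R : Str → Str) (w z y : Str),
  y ∈ AA K (up R w z) → y ∉ AA K R → y ≠ z →
  ∃ ψ : Str, R ψ = y ∧ ψ ≠ w ∧ ψ ∈ K (up R w z) ∧ w.length < ψ.length

/-- **PRV** (20 min). Otherwise (downward induction) `c i ∈ AA K R'` for all `i ≤ k`: the value at
`c i`
is the same list for `R` and `R'`, it contains `c (i+1)`. But `c 0 = z'` is not a value of `R'`. -/
def T_PRV : Prop := ∀ (K : (Str → Str) → Set Str) (G : Alg) (q : Polynomial ℕ) (R : Str → Str)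
  (w z z' : Str) (D : ℕ), Corr K G q (up R w z) → (∀ u, up R w z u ≠ z') → Unt G R w z' D →
  ∀ (c : ℕ → Str) (k : ℕ), k ≤ D → c 0 = z' → Chn G R c k → c k ∉ AA K (up R w z)

/-- **DBL** (40 min; from PRE, RNK). `c i ≠ z` for `i ≥ 1` (RNK); by PRE `c i = R ψ_i`; `ψ_i ∈ FF
m N`,
`m = |w|` (`|c i| ≤ q |z| = N`). Suppose `ψ_i ∉ T R (c i)` for `1 ≤ i < D`. As `Bad` is false,
`|ψ_(i+1)| ≥ 2 |ψ_i|` for `1 ≤ i < D` (`ψ_(i+1) ≠ ψ_i` by RNK). So `|c D| > 2^(D-1) > N`. -/
def T_DBL : Prop := ∀ K : (Str → Str) → Set Str, KOk K → ∀ (G : Alg) (q : Polynomial ℕ)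
  (R : Str → Str) (w z : Str) (D N : ℕ), Reg R → Corr K G q R → q.eval z.length = N → 1 ≤ D →
  N < 2 ^ (D - 1) → ∀ c : ℕ → Str, c 0 = z → Chn G R c D →
  (∀ i ≤ D, c i ∈ AA K (up R w z) ∧ c i ∉ AA K R) → Unt G R w z D →
  (∀ ψ ∈ FF w.length N, ¬ Bad K G R w z ψ) →
  ∃ i, 1 ≤ i ∧ i ≤ D ∧ ∃ ψ ∈ FF w.length N, R ψ = c i ∧ ψ ∈ G.T R (R ψ)

/-- **ZEX** (20 min). There are `2^(10 m + 1)` strings of this length and only those of length `m`
are mapped to them. -/
def T_ZEX : Prop := ∀ (R₀ : Str → Str) (m a : ℕ), Reg R₀ → a + 2 ^ m ≤ 2 ^ (10 * m + 1) →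
  ∃ Z : Finset Str, Z.card = a ∧ ∀ z ∈ Z, z.length = 10 * m + 1 ∧ ∀ u, R₀ u ≠ z

/-- **ASY** (40 min). Polynomials with natural coefficients are monotone, bounded by
`C (x + 1) ^ k`. Let `s = Nat.log 2 (value) + 1`; `2^t / (t + 1)^2 → ∞`, so take `m = 2^t` with
`t` large. -/
def T_ASY : Prop := ∀ (P q : Polynomial ℕ) (c m₀ : ℕ), ∃ m s : ℕ, m₀ ≤ m ∧ 1 ≤ m ∧ c ≤ m ∧
  q.eval (10 * m + 1) ≤ 2 ^ s ∧ (∀ l, l ≤ 10 * q.eval (10 * m + 1) + 1 → P.eval l ≤ 2 ^ s) ∧
  s * s + 6 * s + c + 8 ≤ m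

/-- **CORE** (assembly, from all above; helper35). -/
def T_CORE : Prop := ∀ K : (Str → Str) → Set Str, KOk K → ∀ (G : Alg) (q : Polynomial ℕ)
  (R₀ : Str → Str) (m₀ : ℕ), Reg R₀ → ¬ HH K G q R₀ m₀

/-! ### The construction -/

/-- **PERS** (40 min). A failure depends on finitely many values: (1) for `x`: `T R x` is finite,
and for
regular `R`, `R'` which agree below `|z|`, `z ∈ AA K R ↔ z ∈ AA K R'` (`|ψ| < |R ψ|`, `KOk.loc`);
use
this for `x` and for the members of the list; (2) a bad chain: the finitely many `T R (c i)`. -/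
def T_PERS : Prop := ∀ K : (Str → Str) → Set Str, KOk K → ∀ (G : Alg) (q : Polynomial ℕ)
  (R : Str → Str), Reg R → ¬ Corr K G q R →
  ∃ m, ∀ R', Reg R' → Agr m R R' → ¬ Corr K G q R'

/-- **GEN** (40 min). Recursion: `(R_e, m_e)` with `m_e ≥ e`, `R_(e+1)` agrees with `R_e` below
`m_e`, and
`S e` holds for all regular functions which agree with `R_(e+1)` below `m_(e+1)` (`m` may be
increased). The limit `R u = R_(|u|+1) u` agrees with `R_e` below `m_e` for all `e` and is regular.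
Start: `R u = u ++ 0^(9 |u| + 1)`. -/
def T_GEN : Prop := ∀ S : ℕ → (Str → Str) → Prop,
  (∀ (e : ℕ) (R₀ : Str → Str) (m₀ : ℕ), Reg R₀ → ∃ (R : Str → Str) (m : ℕ), Reg R ∧ Agr m₀ R₀ R ∧
    ∀ R', Reg R' → Agr m R R' → S e R') → ∃ R, Reg R ∧ ∀ e, S e R

/-- **KOK** (40 min). `loc`: a question `0 v` refers to `key v`, `|key v| ≤ |v| < |0 v| ≤ tsz ≤
|ψ|`.
`many`: `c = i + 2`, the strings `ins i 0 x` with `|x| = m - c`, `w = []`, `vs = []`. -/
def T_KOK : Prop := ∀ (E : ℕ → Ver) (U : Str → Bool),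
  (∃ i, E i = (fun _ => Mv.out true, 0)) → KOk (KK E U)

/-! ### Machines -/

/-- **INE** (25 min). `encMv eb` is injective if `eb` is; `encBool`, `encAns` are injective (see
`prs_ask`, `ask_ne` in `DSR/Conv.lean`); `id` is. -/
def T_INE : Prop :=
  (∀ {β Δ : Type} (eb : β → List Δ), Function.Injective eb → Function.Injective (encMv eb)) ∧
  Function.Injective encBool ∧ Function.Injective encAns

/-- **CTB** (50 min). By `Pool.Agent.CookLevin.tSIM` (`CookLevin/SIM.lean`) the function is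
determined
by a stack machine over finite types, which may be replaced by `Fin k` etc.; there are
countably many of these. (The output word determines `eb (f a)`, as `o` is injective.) -/
def T_CTB : Prop := ∀ {α β Γ Δ : Type} [Finite Γ] [Finite Δ] (ea : α → List Γ) (eb : β → List Δ),
  Function.Injective eb → {f : α → β | PolyTime ea eb f}.Countable

/-- **OUTL** (30 min). The output of a polynomial time machine has polynomial length (look in
`DSR`, `PT`, `CookLevin` for a landed lemma, for example via `DHD.tSIMF` and `PolyF`; or with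
tSIM: a
stack machine adds at most one letter in each step). -/
def T_OUTL : Prop := ∀ {α β Γ Δ : Type} [Finite Γ] [Finite Δ] (ea : α → List Γ) (eb : β → List Δ)
  (f : α → β), PolyTime ea eb f → ∃ s : Polynomial ℕ, ∀ a, (eb (f a)).length ≤ s.eval (ea a).length

/-- **ALG** (45 min; from OUTL). `T R x`: the strings `key v` for the questions `0 v` of the run
with at most
`r |x|` moves; `P = r + s (x + r)` (output length; `l.length ≤ (encAns (ask l)).length`). `loc`:
induction on the number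
of moves. -/
def T_ALG : Prop := ∀ (U : Str → Bool) (G₀ : Str × List Bool → Mv Ans) (r : Polynomial ℕ),
  PolyTime (encH (id : Str → Str)) (encMv encAns) G₀ →
  ∃ G : Alg, ∀ R x, G.g R x = run (orc U R) G₀ x (r.eval x.length) []

/-- a move from its data -/
def mvOf {β : Type} (p : Bool × Str × β) : Mv β := cond p.1 (.ask p.2.1) (.out p.2.2)

/-- **CNV** (50 min; see `DSR/Conv.lean`: `tm_of_ptP`, `tm_of_ptV`). Polynomial time functions in
the sense of
`PolyF` as algorithms. -/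
def T_CNV : Prop :=
  (∀ F : (Str × Str) × List Bool → Bool × Str × Bool, PolyF F →
    PolyTime (encH encPair) (encMv encBool) fun p => mvOf (F p)) ∧
  ∀ F : Str × List Bool → Bool × Str × Str, PolyF F →
    PolyTime (encH (id : Str → Str)) (encMv (id : Str → Str)) fun p => mvOf (F p)

/-- **MEM** (75 min; from CNV). The witness of `z` is `cde (ψ, w, vs, [])` with
`R ψ = z`, of polynomial length. The algorithm at `((z, W), h)`: decode `W` (`tree`, `toStr`,
`toStrs` in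
`DSR/Code.lean`, `DSR/Lang.lean`); `n₁ = |z|`, `n₂ = |vs|`; if `|h| < n₁` ask `qst |h| ψ`; if
`|h| < n₁ + n₂` ask `vs[|h| - n₁]`; if `|h| = n₁ + n₂` ask `1 cde (ψ, w, vs, h.drop n₁)`;
otherwise the
result is: `|z| = 10 |ψ| + 1`, the first `n₁` answers are `z`, `tsz w vs ≤ |ψ|` and the last
answer is yes.
`orc (UU E) R (1 cde (ψ, w, vs, bs))` is `Chk E ψ w vs bs` (`cde` is injective). -/
def T_MEM : Prop := ∀ (E : ℕ → Ver) (R : Str → Str), Reg R →
  InNPO (orc (UU E) R) (AA (KK E (UU E)) R)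

/-- **HRD** (75 min; from CNV, OUTL). `B` has the verifier `V` with the algorithm `G`, the bound
`q`; let
`E i = (G, q)`. `f x = R (ins i t x)`, `t = t(|x|)` a polynomial which bounds `tsz w vs` for `|w|
≤ q |x|` and all
questions `vs` of the run (OUTL). The algorithm asks `qst j (ins i t x)` for `j < 10 |ins i t x| +
1` and
gives the answers as result. `x ∈ B ↔ ins i t x ∈ KK` (`ins` is injective; a computation as in
`Tran` is the run, as the run is unique) `↔ f x ∈ AA` (`R` injective). -/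
def T_HRD : Prop := ∀ E : ℕ → Ver,
  (∀ v : Ver, PolyTime (encH encPair) (encMv encBool) v.1 → ∃ i, E i = v) →
  ∀ R : Str → Str, Reg R → ∀ B : Lang, InNPO (orc (UU E) R) B →
    ReducesO (orc (UU E) R) B (AA (KK E (UU E)) R)

/-- **MAIN** (assembly, helper35). -/
def T_MAIN : Prop := ∃ (O : Orc) (A : Lang), NPCompleteO O A ∧ ¬ GenSelfRed O A

end Pool.Agent.RDS
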