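import Pool.Agent.RDS.Targets
import Pool.Agent.CookLevin.LEN

set_option autoImplicit false

/-!
# RDS: HRD, the set of all values at the universal set is hard (helper23)
-/

namespace Pool.Agent.RDS

open Pool.Agent.DSR (Lang PolyTime encPair encBool Ans Letter encAns)
open Pool.Agent.PT (Dat PolyF Core)

namespace HRD_

theorem eval_mono (p : Polynomial ℕ) {a b : ℕ} (h : a ≤ b) : p.eval a ≤ p.eval b := by
  rw [Polynomial.eval_eq_sum, Polynomial.eval_eq_sum]
  exact Finset.sum_le_sum fun i _ => Nat.mul_le_mul_left _ (Nat.pow_le_pow_left h i)

/-! ### Runs -/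

section
variable {α β : Type} (O : Orc) (G : α × List Bool → Mv β) (a : α)

theorem run_mono : ∀ (n : ℕ) (h : List Bool) (b : β), run O G a n h = some b →
    ∀ n', n ≤ n' → run O G a n' h = some b := by
  intro n
  induction n with
  | zero =>
    intro h b hb
    simp [run] at hb
  | succ n ih =>
    intro h b hb n' hn
    obtain ⟨m, rfl⟩ : ∃ m, n' = m + 1 := ⟨n' - 1, by omega⟩
    rw [run] at hb ⊢
    cases hG : G (a, h) with
    | out b' =>
      rw [hG] at hb
      exact hb
    | ask v =>
      rw [hG] at hb
      exact ih _ b hb m (by omega)

theorem run_tran : ∀ (n : ℕ) (h : List Bool) (b : β), run O G a n h = some b →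
    ∃ vs : List Str, vs.length < n ∧
      (∀ j (hj : j < vs.length), G (a, h ++ (vs.map O).take j) = .ask vs[j]) ∧
      G (a, h ++ vs.map O) = .out b := by
  intro n
  induction n with
  | zero =>
    intro h b hb
    simp [run] at hb
  | succ n ih =>
    intro h b hb
    rw [run] at hb
    cases hG : G (a, h) with
    | out b' =>
      rw [hG] at hb
      refine ⟨[], by simp, ?_, ?_⟩
      · intro j hj
        simp at hj
      · simp only [List.map_nil, List.append_nil, hG]
        simp only [Option.some.injEq] at hb
        rw [hb]
    | ask v =>
      rw [hG] at hb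
      obtain ⟨vs, h1, h2, h3⟩ := ih _ b hb
      refine ⟨v :: vs, by simp; omega, ?_, ?_⟩
      · intro j hj
        cases j with
        | zero => simpa using hG
        | succ j =>
          have h4 := h2 j (by simpa using hj)
          simpa using h4
      · simpa using h3

theorem tran_run : ∀ (vs : List Str) (h : List Bool) (b : β),
    (∀ j (hj : j < vs.length), G (a, h ++ (vs.map O).take j) = .ask vs[j]) →
    G (a, h ++ vs.map O) = .out b → run O G a (vs.length + 1) h = some b := by
  intro vs
  induction vs with
  | nil =>
    intro h b _ h2
    rw [List.map_nil, List.append_nil] at h2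
    rw [List.length_nil, run, h2]
  | cons v vs ih =>
    intro h b h1 h2
    have h3 := h1 0 (by simp)
    simp only [List.take_zero, List.append_nil, List.getElem_cons_zero] at h3
    rw [List.length_cons, run, h3]
    refine ih _ b ?_ ?_
    · intro j hj
      have h4 := h1 (j + 1) (by simpa using hj)
      simpa using h4
    · simpa using h2

end

/-! ### Strings -/

theorem rep_inj : ∀ (i i' : ℕ) (u u' : Str),
    List.replicate i true ++ false :: u = List.replicate i' true ++ false :: u' →
    i = i' ∧ u = u' := by
  intro i
  induction i with
  | zero =>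
    intro i' u u' h
    cases i' with
    | zero =>
      simp at h
      exact ⟨rfl, h⟩
    | succ i' =>
      rw [List.replicate_succ] at h
      simp at h
  | succ i ih =>
    intro i' u u' h
    cases i' with
    | zero =>
      rw [List.replicate_succ] at h
      simp at h
    | succ i' =>
      rw [List.replicate_succ, List.replicate_succ, List.cons_append, List.cons_append,
        List.cons.injEq] at h
      obtain ⟨h1, h2⟩ := ih i' u u' h.2
      exact ⟨by rw [h1], h2⟩

theorem ins_inj {i i' t t' : ℕ} {x x' : Str} (h : ins i t x = ins i' t' x') :
    i = i' ∧ t = t' ∧ x = x' := by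
  unfold ins at h
  obtain ⟨h1, h2⟩ := rep_inj _ _ _ _ h
  exact ⟨h1, rep_inj _ _ _ _ h2⟩

theorem length_ins (i t : ℕ) (x : Str) : (ins i t x).length = i + 1 + (t + 1 + x.length) := by
  unfold ins
  simp only [List.length_append, List.length_cons, List.length_replicate]
  omega

theorem take_rep (i : ℕ) (u : Str) :
    (List.replicate i true ++ false :: u).takeWhile id = List.replicate i true := by
  induction i with
  | zero => simp
  | succ i ih =>
    rw [List.replicate_succ, List.cons_append, List.takeWhile_cons]
    simp only [id_eq, if_true, ih]

theorem drop_rep (i : ℕ) (u : Str) :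
    (List.replicate i true ++ false :: u).dropWhile id = false :: u := by
  induction i with
  | zero => simp
  | succ i ih =>
    rw [List.replicate_succ, List.cons_append, List.dropWhile_cons]
    simp only [id_eq, if_true, ih]

theorem orc_qst (U : Str → Bool) (R : Str → Str) (i : ℕ) (u : Str) :
    orc U R (qst i u) = (R u).getD i false := by
  unfold qst
  rw [orc]
  unfold key
  rw [take_rep, drop_rep, List.tail_cons, List.length_replicate]

theorem length_encPair (x w : Str) : (encPair (x, w)).length = x.length + w.length := by
  unfold encPair
  simp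

/-! ### Reading a value of `R` -/

/-- The algorithm which reads `R (f x)`. -/
def rd (f : Str → Str) (p : Str × List Bool) : Bool × Str × Str :=
  (decide (p.2.length < (f p.1).length + (f p.1).length + (f p.1).length + (f p.1).length +
    (f p.1).length + (f p.1).length + (f p.1).length + (f p.1).length + (f p.1).length +
    (f p.1).length + 1), qst p.2.length (f p.1), p.2)

theorem rd_pt {f : Str → Str} (hf : PolyF f) : PolyF (rd f) := by
  have hC : Fact Core := ⟨Pool.Agent.PT.core⟩
  have h0 : PolyF (fun p : Str × List Bool => f p.1) := hf.comp (PolyF.fst PolyF.id)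
  have h1 : PolyF (fun p : Str × List Bool => (f p.1).length) := PolyF.length h0
  have h2 : PolyF (fun p : Str × List Bool => p.2.length) := PolyF.length (PolyF.snd PolyF.id)
  have h3 : PolyF (fun p : Str × List Bool => qst p.2.length (f p.1)) := by
    have h4 : PolyF (fun p : Str × List Bool =>
        false :: (p.2.map (fun _ => true) ++ false :: f p.1)) := by
      refine PolyF.cons (PolyF.const _) (PolyF.append ?_ (PolyF.cons (PolyF.const _) h0))
      exact PolyF.map (f := fun (_ : Str × List Bool) (_ : Bool) => true) (PolyF.const _)
        (PolyF.snd PolyF.id)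
    refine h4.congr fun p => ?_
    unfold qst
    rw [List.map_const']
  unfold rd
  refine PolyF.pair ?_ (PolyF.pair h3 (PolyF.snd PolyF.id))
  refine PolyF.nat_lt h2 ?_
  exact ((((((((((h1.nat_add h1).nat_add h1).nat_add h1).nat_add h1).nat_add h1).nat_add
    h1).nat_add h1).nat_add h1).nat_add h1)).nat_add (PolyF.const 1)

theorem rd_run (U : Str → Bool) (R : Str → Str) (hR : Reg R) (f : Str → Str) (x : Str) :
    ∀ (m : ℕ) (h : List Bool), h.length + m = 10 * (f x).length + 1 →
      h = (R (f x)).take h.length →
      run (orc U R) (fun p => mvOf (rd f p)) x (m + 1) h = some (R (f x)) := by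
  have hl := hR.len (f x)
  intro m
  induction m with
  | zero =>
    intro h hm he
    have h1 : h = R (f x) := by
      rw [he]
      exact List.take_of_length_le (by omega)
    rw [run]
    have h2 : rd f (x, h) = (false, qst h.length (f x), h) := by
      unfold rd
      simp only [Prod.mk.injEq, and_true, decide_eq_false_iff_not]
      omega
    simp only [h2]
    unfold mvOf
    simp only [cond_false]
    rw [h1]
  | succ m ih =>
    intro h hm he
    rw [run]
    have h2 : rd f (x, h) = (true, qst h.length (f x), h) := by
      unfold rd
      simp only [Prod.mk.injEq, and_true, decide_eq_true_eq]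
      omega
    simp only [h2]
    unfold mvOf
    simp only [cond_true]
    rw [orc_qst]
    have h3 : h.length < (R (f x)).length := by omega
    refine ih _ ?_ ?_
    · rw [List.length_append, List.length_singleton]
      omega
    · rw [List.length_append, List.length_singleton, List.take_add_one, ← he,
        List.getD_eq_getElem _ _ h3, List.getElem?_eq_getElem h3]
      rfl

end HRD_

open HRD_ in
theorem p_HRD (h1 : T_CNV) (h2 : T_OUTL) : T_HRD := by
  intro E hE R hR B ⟨q, V, ⟨G, r, hG, hrun⟩, hB⟩
  obtain ⟨i, hi⟩ := hE (G, q) hG
  obtain ⟨s, hs⟩ := h2 (encH encPair) (encMv encBool) G hG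
  have hC : Fact Core := ⟨Pool.Agent.PT.core⟩
  -- the bound for the size of a computation
  obtain ⟨e, he⟩ : ∃ e : Polynomial ℕ, e = Polynomial.X + q := ⟨_, rfl⟩
  obtain ⟨t, ht⟩ : ∃ t : Polynomial ℕ, t = q + (r.comp e) * (s.comp (e + r.comp e)) := ⟨_, rfl⟩
  obtain ⟨L, hL, hLl⟩ := Pool.Agent.CookLevin.tLEN (Γ := Bool) t
  obtain ⟨f, hf⟩ : ∃ f : Str → Str, f = fun x => ins i (t.eval x.length) x := ⟨_, rfl⟩
  have hfx : ∀ x, f x = ins i (t.eval x.length) x := fun x => by rw [hf]
  have hfp : PolyF f := by
    have h4 : PolyF (fun x : Str => List.replicate i true ++ false ::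
        ((L x).map (fun _ => true) ++ false :: x)) := by
      refine PolyF.append (PolyF.const _) (PolyF.cons (PolyF.const _) (PolyF.append ?_
        (PolyF.cons (PolyF.const _) PolyF.id)))
      exact PolyF.map (f := fun (_ : Str) (_ : Unit) => true) (PolyF.const _) hL
    refine h4.congr fun x => ?_
    rw [hfx, List.map_const', hLl]
    rfl
  refine ⟨fun x => R (f x), ⟨fun p => mvOf (rd f p),
    10 * (Polynomial.C (i + 2) + t + Polynomial.X) + 2, h1.2 _ (rd_pt hfp), fun x => ?_⟩,
    fun x => ?_⟩
  · have h5 := rd_run (UU E) R hR f x (10 * (f x).length + 1) [] (by simp) (by simp)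
    refine run_mono _ _ _ _ _ _ h5 _ ?_
    simp only [Polynomial.eval_add, Polynomial.eval_mul, Polynomial.eval_ofNat,
      Polynomial.eval_C, Polynomial.eval_X, id_eq]
    rw [hfx, length_ins]
    omega
  · -- the equivalence
    have hAA : R (f x) ∈ AA (KK E (UU E)) R ↔ f x ∈ KK E (UU E) R := by
      constructor
      · rintro ⟨ψ, hψ, hψ'⟩
        rw [← hR.inj hψ']
        exact hψ
      · intro h
        exact ⟨f x, h, rfl⟩
    rw [hAA, hB]
    constructor
    · rintro ⟨w, hw, hVw⟩
      have h5 := hrun (x, w)
      rw [hVw] at h5
      obtain ⟨vs, h6, h7, h8⟩ := run_tran _ _ _ _ _ _ h5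
      simp only [List.nil_append] at h7 h8
      refine ⟨w, vs, ?_, i, t.eval x.length, x, hfx x, ?_⟩
      · -- the size
        rw [hfx, length_ins]
        have ha : (encPair (x, w)).length ≤ e.eval x.length := by
          rw [length_encPair, he, Polynomial.eval_add, Polynomial.eval_X]
          omega
        have hr : r.eval (encPair (x, w)).length ≤ (r.comp e).eval x.length := by
          rw [Polynomial.eval_comp]
          exact eval_mono r ha
        have hv : ∀ v ∈ vs, v.length + 1 ≤ (s.comp (e + r.comp e)).eval x.length := by
          intro v hv
          obtain ⟨j, hj, rfl⟩ := List.getElem_of_mem hv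
          have h9 := hs ((x, w), (vs.map (orc (UU E) R)).take j)
          rw [h7 j hj] at h9
          have h10 : (encMv encBool (Mv.ask vs[j])).length = vs[j].length + 1 := by
            unfold encMv
            simp
          have h11 : (encH encPair ((x, w), (vs.map (orc (UU E) R)).take j)).length ≤
              (e + r.comp e).eval x.length := by
            unfold encH
            rw [List.length_append, List.length_map, List.length_map, List.length_take,
              List.length_map, Polynomial.eval_add]
            have h12 : min j vs.length ≤ vs.length := min_le_right _ _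
            simp only
            omega
          rw [h10] at h9
          rw [Polynomial.eval_comp]
          exact h9.trans (eval_mono s h11)
        have hsum : (vs.map fun v => v.length + 1).sum ≤
            vs.length * (s.comp (e + r.comp e)).eval x.length := by
          have h13 := List.sum_le_card_nsmul (vs.map fun v : Str => v.length + 1)
            ((s.comp (e + r.comp e)).eval x.length) (by
              intro a ha
              obtain ⟨v, hv', rfl⟩ := List.mem_map.1 ha
              exact hv v hv')
          simpa using h13
        have hts : tsz w vs ≤ t.eval x.length := by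
          unfold tsz
          rw [ht, Polynomial.eval_add, Polynomial.eval_mul]
          refine Nat.add_le_add hw (hsum.trans (Nat.mul_le_mul_right _ ?_))
          omega
        omega
      · rw [hi]
        exact ⟨hw, by simp, h7, h8⟩
    · rintro ⟨w, vs, -, i', t', x', hx', hT⟩
      rw [hfx] at hx'
      obtain ⟨rfl, -, rfl⟩ := ins_inj hx'
      rw [hi] at hT
      obtain ⟨hw, -, h7, h8⟩ := hT
      refine ⟨w, hw, ?_⟩
      have h9 := tran_run (orc (UU E) R) G (x, w) vs [] true
        (fun j hj => by rw [List.nil_append]; exact h7 j hj)
        (by rw [List.nil_append]; exact h8)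
      have h10 := hrun (x, w)
      have h11 := run_mono _ _ _ _ _ _ h9 (max (vs.length + 1)
        (r.eval (encPair (x, w)).length)) (le_max_left _ _)
      have h12 := run_mono _ _ _ _ _ _ h10 (max (vs.length + 1)
        (r.eval (encPair (x, w)).length)) (le_max_right _ _)
      rw [h11] at h12
      exact (Option.some.inj h12).symm

end Pool.Agent.RDS
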