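import Pool.Agent.RDS.Targets

set_option autoImplicit false

/-!
# RDS: target INVC

Few strings can be inverted: double counting at the index `ψ`, then a sum over the strings `ψ` of
one length.
-/

namespace Pool.Agent.RDS

open Pool.Agent.DSR (Lang PolyTime encPair encBool Ans Letter encAns)
open Pool.Agent.PT (Dat PolyF)

namespace INVC_

/-- the strings of length `n` -/
noncomputable def SL (n : ℕ) : Finset Str := (List.finite_length_eq Bool n).toFinset

theorem mem_SL {n : ℕ} {u : Str} : u ∈ SL n ↔ u.length = n := by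
  unfold SL
  rw [Set.Finite.mem_toFinset]
  exact Iff.rfl

theorem ncard_vec (n : ℕ) (Q : Str → Prop) [DecidablePred Q] :
    {y : List.Vector Bool n | Q y.toList}.ncard = ((SL n).filter Q).card := by
  rw [← Set.ncard_image_of_injective _ List.Vector.toList_injective, ← Set.ncard_coe_finset]
  congr 1
  ext u
  simp only [Set.mem_image, Set.mem_ofPred_eq, Finset.coe_filter, mem_SL]
  constructor
  · rintro ⟨y, hy, rfl⟩
    exact ⟨y.toList_length, hy⟩
  · rintro ⟨h1, h2⟩
    exact ⟨⟨u, h1⟩, h2, rfl⟩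

theorem card_SL (n : ℕ) : (SL n).card = 2 ^ n := by
  have h := ncard_vec n (fun _ => True)
  rw [Finset.filter_true_of_mem (fun _ _ => trivial)] at h
  rw [← h, Set.ofPred_true, Set.ncard_univ, Nat.card_eq_fintype_card, card_vector,
    Fintype.card_bool]

/-- changing the value at `ψ` does not change whether there is a question about `ψ` -/
theorem mem_T_up (G : Alg) (R : Str → Str) (ψ z y : Str) :
    ψ ∈ G.T (up R ψ z) y ↔ ψ ∈ G.T R y := by
  constructor
  · intro h
    by_contra hn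
    have := (G.loc R (up R ψ z) y (fun u hu => by
      rw [up_ne]
      rintro rfl
      exact hn hu)).2
    rw [this] at h
    exact hn h
  · intro h
    by_contra hn
    have := (G.loc (up R ψ z) R y (fun u hu => by
      rw [up_ne]
      rintro rfl
      exact hn hu)).2
    rw [this] at h
    exact hn h

theorem ex_update (R₀ : Str → Str) {m N : ℕ} (ω : Om m N) (ψ : Str) (h : ψ ∈ FF m N)
    (y : List.Vector Bool (10 * ψ.length + 1)) :
    ex R₀ (Function.update ω ⟨ψ, h⟩ y) = up (ex R₀ ω) ψ y.toList := by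
  funext u
  by_cases hu : u = ψ
  · subst hu
    rw [up_self]
    unfold ex
    rw [dif_pos h, Function.update_self]
  · rw [up_ne _ _ hu]
    unfold ex
    by_cases hF : u ∈ FF m N
    · rw [dif_pos hF, dif_pos hF, Function.update_of_ne]
      intro he
      exact hu (congrArg Subtype.val he)
    · rw [dif_neg hF, dif_neg hF]

open Classical in
/-- one string -/
theorem one (h1 : T_UPD) (G : Alg) (R₀ : Str → Str) (m N : ℕ) (ψ : Str) (h : ψ ∈ FF m N) :
    {ω : Om m N | ψ ∈ G.T (ex R₀ ω) (ex R₀ ω ψ)}.ncard * 2 ^ (10 * ψ.length + 1) =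
      ∑ ω : Om m N, ((SL (10 * ψ.length + 1)).filter fun y => ψ ∈ G.T (ex R₀ ω) y).card := by
  have hU := h1 {u : Str // u ∈ FF m N} (fun u => List.Vector Bool (10 * u.1.length + 1)) ⟨ψ, h⟩
    (fun ω => ψ ∈ G.T (ex R₀ ω) (ex R₀ ω ψ))
  have hc : Fintype.card (List.Vector Bool (10 * ψ.length + 1)) = 2 ^ (10 * ψ.length + 1) := by
    rw [card_vector, Fintype.card_bool]
  have hU' : {ω : Om m N | ψ ∈ G.T (ex R₀ ω) (ex R₀ ω ψ)}.ncard *
      Fintype.card (List.Vector Bool (10 * ψ.length + 1)) =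
      ∑ ω : Om m N, {y : List.Vector Bool (10 * ψ.length + 1) |
        ψ ∈ G.T (ex R₀ (Function.update ω ⟨ψ, h⟩ y))
          (ex R₀ (Function.update ω ⟨ψ, h⟩ y) ψ)}.ncard := by
    convert hU using 1
  rw [hc] at hU'
  rw [hU']
  refine Finset.sum_congr rfl fun ω _ => ?_
  rw [← ncard_vec (10 * ψ.length + 1) (fun y => ψ ∈ G.T (ex R₀ ω) y)]
  congr 1
  ext y
  simp only [Set.mem_ofPred_eq]
  rw [ex_update, up_self, mem_T_up]

open Classical in
/-- all strings of one length, one oracle -/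
theorem lev (G : Alg) (R : Str → Str) (F : Finset Str) (l s : ℕ)
    (hP : G.P.eval (10 * l + 1) ≤ 2 ^ s) :
    ∑ ψ ∈ F, ((SL (10 * l + 1)).filter fun y => ψ ∈ G.T R y).card ≤
      2 ^ (10 * l + 1) * 2 ^ s := by
  have h : ∑ ψ ∈ F, ((SL (10 * l + 1)).filter fun y => ψ ∈ G.T R y).card =
      ∑ y ∈ SL (10 * l + 1), (F.filter fun ψ => ψ ∈ G.T R y).card := by
    simp only [Finset.card_filter]
    exact Finset.sum_comm
  rw [h]
  calc ∑ y ∈ SL (10 * l + 1), (F.filter fun ψ => ψ ∈ G.T R y).card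
      ≤ ∑ _y ∈ SL (10 * l + 1), 2 ^ s := by
        refine Finset.sum_le_sum fun y hy => ?_
        refine le_trans (Finset.card_le_card (t := G.T R y) ?_) ?_
        · intro ψ hψ
          exact (Finset.mem_filter.1 hψ).2
        · refine le_trans (G.cardT R y) ?_
          rw [mem_SL.1 hy]
          exact hP
    _ = 2 ^ (10 * l + 1) * 2 ^ s := by
        rw [Finset.sum_const, card_SL, smul_eq_mul]

/-- all strings of one length -/
theorem lenl (h1 : T_UPD) (G : Alg) (R₀ : Str → Str) (m N s : ℕ)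
    (hP : ∀ l, l ≤ 10 * N + 1 → G.P.eval l ≤ 2 ^ s) (l : ℕ) (hl : l ≤ N) :
    ∑ ψ ∈ FF m N with ψ.length = l, {ω : Om m N | ψ ∈ G.T (ex R₀ ω) (ex R₀ ω ψ)}.ncard ≤
      2 ^ s * Fintype.card (Om m N) := by
  classical
  refine Nat.le_of_mul_le_mul_right (c := 2 ^ (10 * l + 1)) ?_ (by positivity)
  rw [Finset.sum_mul]
  have hs : ∀ ψ ∈ (FF m N).filter (fun ψ => ψ.length = l),
      {ω : Om m N | ψ ∈ G.T (ex R₀ ω) (ex R₀ ω ψ)}.ncard * 2 ^ (10 * l + 1) =
      ∑ ω : Om m N, ((SL (10 * l + 1)).filter fun y => ψ ∈ G.T (ex R₀ ω) y).card := by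
    intro ψ hψ
    obtain ⟨hF, hlen⟩ := Finset.mem_filter.1 hψ
    have := one h1 G R₀ m N ψ hF
    rw [hlen] at this
    exact this
  rw [Finset.sum_congr rfl hs, Finset.sum_comm]
  calc ∑ ω : Om m N, ∑ ψ ∈ (FF m N).filter (fun ψ => ψ.length = l),
        ((SL (10 * l + 1)).filter fun y => ψ ∈ G.T (ex R₀ ω) y).card
      ≤ ∑ _ω : Om m N, 2 ^ (10 * l + 1) * 2 ^ s := by
        refine Finset.sum_le_sum fun ω _ => ?_
        exact lev G (ex R₀ ω) _ l s (hP _ (by omega))
    _ = 2 ^ s * Fintype.card (Om m N) * 2 ^ (10 * l + 1) := by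
        rw [Finset.sum_const, Finset.card_univ, smul_eq_mul]
        ring

end INVC_

open INVC_ in
theorem p_INVC (h1 : T_UPD) : T_INVC := by
  classical
  intro G R₀ m N s hP
  have hmaps : ∀ ψ ∈ FF m N, ψ.length ∈ Finset.Ioc m N := by
    intro ψ hψ
    rw [Finset.mem_Ioc]
    exact mem_FF.1 hψ
  rw [← Finset.sum_fiberwise_of_maps_to hmaps]
  calc ∑ l ∈ Finset.Ioc m N, ∑ ψ ∈ FF m N with ψ.length = l,
        {ω : Om m N | ψ ∈ G.T (ex R₀ ω) (ex R₀ ω ψ)}.ncard
      ≤ ∑ _l ∈ Finset.Ioc m N, 2 ^ s * Fintype.card (Om m N) := by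
        refine Finset.sum_le_sum fun l hl => ?_
        exact lenl h1 G R₀ m N s hP l (Finset.mem_Ioc.1 hl).2
    _ = (N - m) * (2 ^ s * Fintype.card (Om m N)) := by
        rw [Finset.sum_const, Nat.card_Ioc, smul_eq_mul]
    _ ≤ N * (2 ^ s * Fintype.card (Om m N)) := Nat.mul_le_mul_right _ (Nat.sub_le _ _)
    _ = N * 2 ^ s * Fintype.card (Om m N) := by ring

end Pool.Agent.RDS
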