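import Pool.Agent.RDS.Targets

set_option autoImplicit false
set_option linter.unusedSectionVars false

/-!
# RDS: the complete set is in NP relative to the oracle
-/

namespace Pool.Agent.RDS

open Pool.Agent.DSR (Lang PolyTime encPair encBool Ans Letter encAns tree toStr toStrs toStr_enc
  toStrs_enc cod tree_cod cod_length pt_tree pt_toStr pt_toStrs pt_fst pt_snd codF_pair codF_list
  codF_bool CodF)
open Pool.Agent.PT (Dat PolyF PolyB D Core sz sz_pair sz_cons sz_nil sz_pos sz_drop
  sz_bits_le length_lt_sz sz_bool)
open Pool.Agent.PT.Dat (enc)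

namespace MEM_

/-! ### The run of a simple algorithm -/

/-- the answers that were given in the first `k` moves -/
def hst (O : Orc) (Q : List Bool → List Bool) : ℕ → List Bool
  | 0 => []
  | k + 1 => hst O Q k ++ [O (Q (hst O Q k))]

theorem hst_length (O : Orc) (Q : List Bool → List Bool) (k : ℕ) : (hst O Q k).length = k := by
  induction k with
  | zero => rfl
  | succ k ih => simp only [hst, List.length_append, ih, List.length_cons, List.length_nil]

theorem run_eq {α β : Type} (O : Orc) (G : α × List Bool → Mv β) (a : α) (N : ℕ)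
    (Q : List Bool → List Bool) (f : List Bool → β)
    (h1 : ∀ h : List Bool, h.length < N → G (a, h) = .ask (Q h))
    (h2 : ∀ h : List Bool, h.length = N → G (a, h) = .out (f h)) :
    ∀ (d k n : ℕ), k + d = N → d < n → run O G a n (hst O Q k) = some (f (hst O Q N)) := by
  intro d
  induction d with
  | zero =>
    intro k n hk hn
    obtain ⟨n, rfl⟩ : ∃ m, n = m + 1 := ⟨n - 1, by omega⟩
    have hk' : k = N := by omega
    subst hk'
    rw [run, h2 _ (hst_length O Q k)]
  | succ d ih =>
    intro k n hk hn
    obtain ⟨n, rfl⟩ : ∃ m, n = m + 1 := ⟨n - 1, by omega⟩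
    rw [run, h1 _ (by rw [hst_length]; omega)]
    exact ih (k + 1) n (by omega) (by omega)

/-! ### The oracle -/

theorem orc_qst (U : Str → Bool) (R : Str → Str) (i : ℕ) (u : Str) :
    orc U R (qst i u) = (R u).getD i false := by
  have h1 : (List.replicate i true ++ false :: u).dropWhile id = false :: u := by
    induction i with
    | zero => rfl
    | succ i ih => rw [List.replicate_succ, List.cons_append, List.dropWhile_cons]; exact ih
  have h2 : (List.replicate i true ++ false :: u).takeWhile id = List.replicate i true := by
    clear h1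
    induction i with
    | zero => rfl
    | succ i ih =>
      rw [List.replicate_succ, List.cons_append, List.takeWhile_cons]
      simp only [id_eq, if_true]
      rw [ih]
  change (R (key (List.replicate i true ++ false :: u))).getD
    ((List.replicate i true ++ false :: u).takeWhile id).length false = _
  rw [h2, key, h1, List.length_replicate]
  rfl

theorem cod_inj {s t : D} (h : cod s = cod t) : s = t := by
  have h1 := tree_cod s []
  rw [h, tree_cod] at h1
  exact h1.symm

theorem cde_inj {p p' : Str × Str × List Str × List Bool} (h : cde p = cde p') : p = p' :=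
  Dat.inj (cod_inj h)

theorem UU_cde (E : ℕ → Ver) (ψ w : Str) (vs : List Str) (bs : List Bool) :
    UU E (cde (ψ, w, vs, bs)) = true ↔ Chk E ψ w vs bs := by
  classical
  unfold UU
  simp only [decide_eq_true_eq]
  constructor
  · rintro ⟨p, hp, hc⟩
    have := cde_inj hp
    subst this
    exact hc
  · intro h
    exact ⟨_, rfl, h⟩

/-! ### The algorithm -/

/-- the first component of the witness -/
def pX (W : Str) : Str := toStr (tree W).fst

/-- the second component -/
def pW (W : Str) : Str := toStr (tree W).snd.fst

/-- the third component -/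
def pV (W : Str) : List Str := toStrs (tree W).snd.snd.fst

/-- `h` without the first `|z|` members -/
def dr (z h : Str) : Str := z.foldl (fun s _ => s.tail) h

theorem dr_eq (z h : Str) : dr z h = h.drop z.length := by
  unfold dr
  induction z generalizing h with
  | nil => rfl
  | cons b z ih => rw [List.foldl_cons, ih, List.length_cons, List.drop_tail]

/-- the number of the questions -/
def NN (z W : Str) : ℕ := z.length + (pV W).length + 1

/-- the questions -/
def QQ (z W h : Str) : Str :=
  cond (decide (h.length < z.length)) (false :: (h.map (fun _ => true) ++ false :: pX W))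
    (cond (decide ((dr z h).length < (pV W).length)) ((pV W).getD (dr z h).length [])
      (true :: cde (pX W, pW W, pV W, dr z h)))

/-- the result -/
def FF' (z W h : Str) : Bool :=
  decide (z.length = 10 * (pX W).length + 1) && (decide (z ++ dr z h = h) &&
    (decide (tsz (pW W) (pV W) ≤ (pX W).length) && (dr z h).getD (pV W).length false))

/-- the algorithm -/
def AL (p : (Str × Str) × List Bool) : Bool × Str × Bool :=
  (decide (p.2.length < NN p.1.1 p.1.2), QQ p.1.1 p.1.2 p.2, FF' p.1.1 p.1.2 p.2)

section
variable [hC : Fact Core]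

theorem pt_pX : PolyF pX := pt_toStr (pt_fst pt_tree)

theorem pt_pW : PolyF pW := pt_toStr (pt_fst (pt_snd pt_tree))

theorem pt_pV : PolyF pV := pt_toStrs (pt_fst (pt_snd (pt_snd pt_tree)))

theorem pt_dr {γ : Type} [Dat γ] {f g : γ → Str} (hf : PolyF f) (hg : PolyF g) :
    PolyF (fun x => dr (f x) (g x)) := by
  have h : PolyF (fun p : Str × Str => p.1.foldl (fun (s : Str) (_ : Bool) => s.tail) p.2) := by
    refine PolyF.foldl (f := fun (_ : Str × Str) (s : Str) (_ : Bool) => s.tail)
      (by fun_prop) (by fun_prop) (by fun_prop) (fun p => sz p)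
      (PolyB.sz (α := Str × Str)) ?_
    intro p l _
    have e : l.foldl (fun (s : Str) (_ : Bool) => s.tail) p.2 = p.2.drop l.length := dr_eq l p.2
    rw [e]
    exact (sz_drop _ _).trans (Pool.Agent.PT.sz_snd p)
  exact h.comp (hf.pair hg)

theorem pt_cde : PolyF cde :=
  codF_pair (codF_list codF_bool) (codF_pair (codF_list codF_bool)
    (codF_pair (codF_list (codF_list codF_bool)) (codF_list codF_bool)))

theorem tsz_eq (w : Str) (vs : List Str) :
    tsz w vs = (w ++ vs.flatMap fun v => true :: v).length := by
  unfold tsz
  rw [List.length_append, List.length_flatMap]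
  rfl

theorem pt_tsz {γ : Type} [Dat γ] {f : γ → Str} {g : γ → List Str} (hf : PolyF f)
    (hg : PolyF g) : PolyF (fun x => tsz (f x) (g x)) := by
  have h : PolyF (fun x => (f x ++ (g x).flatMap fun v => true :: v).length) := by
    refine PolyF.length (PolyF.append hf ?_)
    exact PolyF.flatMap (f := fun (_ : γ) (v : Str) => true :: v) (by fun_prop) hg
  exact h.congr fun x => (tsz_eq _ _).symm

theorem pt_AL : PolyF AL := by
  have hz : PolyF (fun p : (Str × Str) × List Bool => p.1.1) := by fun_prop
  have hh : PolyF (fun p : (Str × Str) × List Bool => p.2) := by fun_prop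
  have hX : PolyF (fun p : (Str × Str) × List Bool => pX p.1.2) := pt_pX.comp (by fun_prop)
  have hW : PolyF (fun p : (Str × Str) × List Bool => pW p.1.2) := pt_pW.comp (by fun_prop)
  have hV : PolyF (fun p : (Str × Str) × List Bool => pV p.1.2) := pt_pV.comp (by fun_prop)
  have hd : PolyF (fun p : (Str × Str) × List Bool => dr p.1.1 p.2) := pt_dr hz hh
  have ht : PolyF (fun p : (Str × Str) × List Bool => tsz (pW p.1.2) (pV p.1.2)) := pt_tsz hW hV
  have hc : PolyF (fun p : (Str × Str) × List Bool =>
      cde (pX p.1.2, pW p.1.2, pV p.1.2, dr p.1.1 p.2)) :=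
    pt_cde.comp (hX.pair (hW.pair (hV.pair hd)))
  unfold AL
  refine PolyF.pair ?_ (PolyF.pair ?_ ?_)
  · unfold NN
    exact PolyF.nat_lt hh.length (PolyF.nat_add (PolyF.nat_add hz.length hV.length)
      (PolyF.const _))
  · unfold QQ
    refine PolyF.cond (PolyF.nat_lt hh.length hz.length) ?_ (PolyF.cond
      (PolyF.nat_lt hd.length hV.length) (PolyF.getD hV hd.length (PolyF.const _))
      (PolyF.cons (PolyF.const _) hc))
    refine PolyF.cons (PolyF.const _) (PolyF.append ?_ (PolyF.cons (PolyF.const _) hX))
    exact PolyF.map (f := fun _ (_ : Bool) => true) (by fun_prop) hh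
  · unfold FF'
    refine PolyF.and ?_ (PolyF.and (PolyF.eq (PolyF.append hz hd) hh) (PolyF.and
      (PolyF.nat_le ht hX.length) (PolyF.getD hd hV.length (PolyF.const _))))
    have h10 : PolyF (fun p : (Str × Str) × List Bool =>
        ((pX p.1.2).flatMap fun _ => List.replicate 10 true).length + 1) := by
      refine PolyF.nat_add (PolyF.length ?_) (PolyF.const _)
      exact PolyF.flatMap (f := fun _ (_ : Bool) => List.replicate 10 true) (by fun_prop) hX
    refine (PolyF.eq_nat hz.length h10).congr fun p => ?_
    have e : ((pX p.1.2).flatMap fun _ => List.replicate 10 true).length =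
        10 * (pX p.1.2).length := by
      rw [List.length_flatMap]
      simp [mul_comm]
    rw [e]

end

/-! ### The run -/

theorem QQ_one {z W h : Str} (hh : h.length < z.length) : QQ z W h = qst h.length (pX W) := by
  unfold QQ qst
  rw [decide_eq_true hh, cond_true, List.map_const']

theorem QQ_two {z W h : Str} (h1 : z.length ≤ h.length) (h2 : (dr z h).length < (pV W).length) :
    QQ z W h = (pV W)[(dr z h).length] := by
  unfold QQ
  rw [decide_eq_false (by omega), cond_false, decide_eq_true h2, cond_true,
    List.getD_eq_getElem _ _ h2]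

theorem QQ_three {z W h : Str} (h1 : z.length ≤ h.length)
    (h2 : (pV W).length ≤ (dr z h).length) :
    QQ z W h = true :: cde (pX W, pW W, pV W, dr z h) := by
  unfold QQ
  rw [decide_eq_false (by omega), cond_false, decide_eq_false (by omega), cond_false]

section
variable (U : Str → Bool) (R : Str → Str) (z W : Str)

theorem hst_one : ∀ k, k ≤ z.length → hst (orc U R) (QQ z W) k =
    (List.range k).map fun i => (R (pX W)).getD i false := by
  intro k
  induction k with
  | zero => intro _; rfl
  | succ k ih =>
    intro hk
    have h1 : QQ z W (hst (orc U R) (QQ z W) k) = qst k (pX W) := by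
      rw [QQ_one (by rw [hst_length]; omega), hst_length]
    rw [hst, h1, orc_qst, ih (by omega), List.range_succ, List.map_append]
    rfl

theorem hst_two : ∀ j, j ≤ (pV W).length → hst (orc U R) (QQ z W) (z.length + j) =
    hst (orc U R) (QQ z W) z.length ++ ((pV W).take j).map (orc U R) := by
  intro j
  induction j with
  | zero => intro _; simp
  | succ j ih =>
    intro hj
    have e := ih (by omega)
    have hl : j < (pV W).length := by omega
    have h1 : QQ z W (hst (orc U R) (QQ z W) (z.length + j)) = (pV W)[j] := by
      have e2 : (dr z (hst (orc U R) (QQ z W) (z.length + j))).length = j := by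
        rw [dr_eq, List.length_drop, hst_length]
        omega
      rw [QQ_two (by rw [hst_length]; omega) (by rw [e2]; exact hl)]
      simp only [e2]
    rw [← Nat.add_assoc, hst, h1, e, List.append_assoc]
    congr 1
    rw [List.take_add_one, List.map_append, List.getElem?_eq_getElem hl]
    rfl

theorem hst_three : hst (orc U R) (QQ z W) (NN z W) =
    ((List.range z.length).map fun i => (R (pX W)).getD i false) ++ ((pV W).map (orc U R) ++
      [U (cde (pX W, pW W, pV W, (pV W).map (orc U R)))]) := by
  have e := hst_two U R z W (pV W).length le_rfl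
  rw [List.take_length] at e
  have e1 := hst_one U R z W z.length le_rfl
  have hl := hst_length (orc U R) (QQ z W) z.length
  have e3 : dr z (hst (orc U R) (QQ z W) (z.length + (pV W).length)) =
      (pV W).map (orc U R) := by
    rw [dr_eq, e, List.drop_append, hl, Nat.sub_self, List.drop_zero,
      List.drop_eq_nil_of_le hl.le, List.nil_append]
  have h1 : QQ z W (hst (orc U R) (QQ z W) (z.length + (pV W).length)) =
      true :: cde (pX W, pW W, pV W, (pV W).map (orc U R)) := by
    rw [QQ_three (by rw [hst_length]; omega) (by rw [e3, List.length_map]), e3]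
  unfold NN
  rw [hst, h1, e, e1, List.append_assoc]
  rfl

theorem FF_iff (hR : Reg R) : FF' z W (hst (orc U R) (QQ z W) (NN z W)) = true ↔
    R (pX W) = z ∧ tsz (pW W) (pV W) ≤ (pX W).length ∧
      U (cde (pX W, pW W, pV W, (pV W).map (orc U R))) = true := by
  have hl : ((List.range z.length).map fun i => (R (pX W)).getD i false).length = z.length := by
    rw [List.length_map, List.length_range]
  have hd : dr z (hst (orc U R) (QQ z W) (NN z W)) = (pV W).map (orc U R) ++
      [U (cde (pX W, pW W, pV W, (pV W).map (orc U R)))] := by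
    rw [dr_eq, hst_three, List.drop_append, hl, Nat.sub_self, List.drop_zero,
      List.drop_eq_nil_of_le hl.le, List.nil_append]
  have hg : ((pV W).map (orc U R) ++ [U (cde (pX W, pW W, pV W, (pV W).map (orc U R)))]).getD
      (pV W).length false = U (cde (pX W, pW W, pV W, (pV W).map (orc U R))) := by
    rw [List.getD_append_right _ _ _ _ (by rw [List.length_map]), List.length_map, Nat.sub_self]
    rfl
  unfold FF'
  rw [hd, hg, hst_three]
  simp only [Bool.and_eq_true, decide_eq_true_eq]
  rw [List.append_cancel_right_eq]
  constructor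
  · rintro ⟨a, b, c, d⟩
    refine ⟨?_, c, d⟩
    rw [b]
    refine List.ext_getElem ?_ ?_
    · rw [List.length_map, List.length_range, a, hR.len]
    · intro i h1 h2
      rw [List.getElem_map, List.getElem_range, List.getD_eq_getElem _ _ h1]
  · rintro ⟨b, c, d⟩
    refine ⟨?_, ?_, c, d⟩
    · rw [← b, hR.len]
    · rw [b]
      refine List.ext_getElem ?_ ?_
      · rw [List.length_map, List.length_range]
      · intro i h1 h2
        rw [List.getElem_map, List.getElem_range, List.getD_eq_getElem _ _ h1]

end

/-! ### The witness -/

theorem tree_cde (p : Str × Str × List Str × List Bool) : tree (cde p) = enc p := by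
  have := tree_cod (enc p) []
  rwa [List.append_nil] at this

theorem pX_cde (ψ w : Str) (vs : List Str) (bs : List Bool) : pX (cde (ψ, w, vs, bs)) = ψ := by
  unfold pX
  rw [tree_cde]
  exact toStr_enc ψ

theorem pW_cde (ψ w : Str) (vs : List Str) (bs : List Bool) : pW (cde (ψ, w, vs, bs)) = w := by
  unfold pW
  rw [tree_cde]
  exact toStr_enc w

theorem pV_cde (ψ w : Str) (vs : List Str) (bs : List Bool) : pV (cde (ψ, w, vs, bs)) = vs := by
  unfold pV
  rw [tree_cde]
  exact toStrs_enc vs

theorem sz_strs (w : Str) (vs : List Str) : sz w + sz vs ≤ 4 * tsz w vs + 2 := by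
  have h : sz vs ≤ 4 * (vs.map fun v => v.length + 1).sum + 1 := by
    induction vs with
    | nil => simp [sz_nil]
    | cons v vs ih =>
      rw [sz_cons, List.map_cons, List.sum_cons]
      have := sz_bits_le v
      omega
  have := sz_bits_le w
  unfold tsz
  omega

theorem cde_length (ψ w : Str) (vs : List Str) :
    (cde (ψ, w, vs, [])).length ≤ 4 * ψ.length + 4 * tsz w vs + 7 := by
  unfold cde
  rw [cod_length]
  change sz (ψ, w, vs, ([] : List Bool)) ≤ _
  rw [sz_pair, sz_pair, sz_pair, sz_nil]
  have h1 := sz_strs w vs
  have h2 := sz_bits_le ψ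
  omega

end MEM_

open MEM_ in
theorem p_MEM (h1 : T_CNV) : T_MEM := by
  intro E R hR
  have : Fact Core := ⟨Pool.Agent.PT.core⟩
  obtain ⟨c, hc⟩ := (pt_pV).bound
  refine ⟨Polynomial.C 8 * Polynomial.X + Polynomial.C 7,
    fun p => FF' p.1 p.2 (hst (orc (UU E) R) (QQ p.1 p.2) (NN p.1 p.2)),
    ⟨fun p => mvOf (AL p), (Polynomial.C 4 * Polynomial.X + Polynomial.C 3) ^ c +
      Polynomial.X + Polynomial.C 2, h1.1 AL pt_AL, ?_⟩, ?_⟩
  · rintro ⟨z, W⟩
    have e := run_eq (orc (UU E) R) (fun p => mvOf (AL p)) (z, W) (NN z W) (QQ z W)
      (fun h => FF' z W h) (fun h hh => by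
        simp only [AL, mvOf, decide_eq_true hh, cond_true]) (fun h hh => by
        simp only [AL, mvOf, decide_eq_false (Nat.not_lt.2 hh.ge), cond_false])
      (NN z W) 0 (((Polynomial.C 4 * Polynomial.X + Polynomial.C 3) ^ c +
        Polynomial.X + Polynomial.C 2).eval (encPair (z, W)).length) (by omega) ?_
    · exact e
    · have hl : (encPair (z, W)).length = z.length + W.length := by
        unfold encPair
        rw [List.length_append, List.length_map, List.length_map]
      rw [hl]
      simp only [Polynomial.eval_pow, Polynomial.eval_add, Polynomial.eval_mul,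
        Polynomial.eval_C, Polynomial.eval_X]
      have e1 : sz (pV W) ≤ (sz W + 2) ^ c := hc W
      have e2 := sz_bits_le W
      have e3 := length_lt_sz (pV W)
      have e4 : (sz W + 2) ^ c ≤ (4 * (z.length + W.length) + 3) ^ c :=
        Nat.pow_le_pow_left (by omega) c
      unfold NN
      omega
  · intro z
    constructor
    · rintro ⟨ψ, ⟨w, vs, ht, hk⟩, rfl⟩
      refine ⟨cde (ψ, w, vs, []), ?_, ?_⟩
      · simp only [Polynomial.eval_add, Polynomial.eval_mul, Polynomial.eval_C,
          Polynomial.eval_X]
        have e1 := cde_length ψ w vs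
        have e2 := hR.len ψ
        omega
      · change FF' (R ψ) (cde (ψ, w, vs, [])) _ = true
        rw [FF_iff _ _ _ _ hR, pX_cde, pW_cde, pV_cde]
        exact ⟨rfl, ht, (UU_cde E _ _ _ _).2 hk⟩
    · rintro ⟨W, _, hW⟩
      change FF' z W _ = true at hW
      rw [FF_iff _ _ _ _ hR] at hW
      exact ⟨pX W, ⟨pW W, pV W, hW.2.1, (UU_cde E _ _ _ _).1 hW.2.2⟩, hW.1⟩

end Pool.Agent.RDS
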