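import Pool.Agent.RDS.Targets
import Pool.Agent.DSR.Final

set_option autoImplicit false

/-!
# RDS, target CNV: polynomial time functions as algorithms with an oracle
-/

namespace Pool.Agent.RDS

open Pool.Agent.DSR (Lang PolyTime encPair encBool Ans Letter encAns)
open Pool.Agent.PT (Dat PolyF Core)

namespace CNV_

/-- letters of the first string -/
def d1 (t : (Bool ⊕ Bool) ⊕ Bool) : Str :=
  Sum.elim (Sum.elim (fun b => [b]) (fun _ => [])) (fun _ => []) t

/-- letters of the second string -/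
def d2 (t : (Bool ⊕ Bool) ⊕ Bool) : Str :=
  Sum.elim (Sum.elim (fun _ => []) (fun b => [b])) (fun _ => []) t

/-- letters of the third string -/
def d3 (t : (Bool ⊕ Bool) ⊕ Bool) : Str := Sum.elim (fun _ => []) (fun b => [b]) t

/-- the letter of a question -/
def qb (Δ : Type) (b : Bool) : Option Bool ⊕ Δ := Sum.inl (some b)

theorem fm_nil {α β γ : Type} (g : α → β) (f : β → List γ) (h : ∀ a, f (g a) = []) (l : List α) :
    (l.map g).flatMap f = [] := by
  induction l with
  | nil => rfl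
  | cons b l ih => rw [List.map_cons, List.flatMap_cons, ih, h]; rfl

theorem fm_one {α β : Type} (g : α → β) (f : β → List α) (h : ∀ a, f (g a) = [a]) (l : List α) :
    (l.map g).flatMap f = l := by
  induction l with
  | nil => rfl
  | cons b l ih => rw [List.map_cons, List.flatMap_cons, ih, h]; rfl

theorem dec3 (p : (Str × Str) × List Bool) :
    (((encH encPair p).flatMap d1, (encH encPair p).flatMap d2), (encH encPair p).flatMap d3)
      = p := by
  obtain ⟨⟨x, w⟩, h⟩ := p
  unfold encH encPair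
  simp only [List.flatMap_append, List.map_append, List.map_map]
  rw [fm_one (Sum.inl ∘ Sum.inl) d1 (fun _ => rfl), fm_nil (Sum.inl ∘ Sum.inr) d1 (fun _ => rfl),
    fm_nil Sum.inr d1 (fun _ => rfl), fm_nil (Sum.inl ∘ Sum.inl) d2 (fun _ => rfl),
    fm_one (Sum.inl ∘ Sum.inr) d2 (fun _ => rfl), fm_nil Sum.inr d2 (fun _ => rfl),
    fm_nil (Sum.inl ∘ Sum.inl) d3 (fun _ => rfl), fm_nil (Sum.inl ∘ Sum.inr) d3 (fun _ => rfl),
    fm_one Sum.inr d3 (fun _ => rfl)]
  simp

theorem dec2 (p : Str × List Bool) :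
    ((encH (id : Str → Str) p).flatMap Pool.Agent.DSR.lft,
      (encH (id : Str → Str) p).flatMap Pool.Agent.DSR.rgt) = p :=
  have : Fact Core := ⟨Pool.Agent.PT.core⟩
  Pool.Agent.DSR.dec_pair p

section
variable [hC : Fact Core]

/-- the word of a move -/
theorem pt_enc {β Δ : Type} [Dat β] [Dat Δ] [Dat (Option Bool ⊕ Δ)] [Finite Δ]
    {eb : β → List Δ} (he : PolyF eb) :
    PolyF (fun p : Bool × Str × β => encMv eb (mvOf p)) := by
  have h1 : PolyF (qb Δ) := PolyF.finite _
  have h2 : PolyF (fun d : Δ => (Sum.inr d : Option Bool ⊕ Δ)) := PolyF.finite _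
  have h3 : PolyF (fun p : Bool × Str × β => cond p.1
      ((Sum.inl none : Option Bool ⊕ Δ) :: p.2.1.map (qb Δ)) ((eb p.2.2).map Sum.inr)) := by
    refine PolyF.cond (by fun_prop) (PolyF.cons (PolyF.const _) ?_) ?_
    · exact PolyF.map (f := fun _ b => qb Δ b) (h1.comp (by fun_prop)) (by fun_prop)
    · exact PolyF.map (f := fun _ d => (Sum.inr d : Option Bool ⊕ Δ)) (h2.comp (by fun_prop))
        (he.comp (by fun_prop))
  refine h3.congr fun p => ?_
  obtain ⟨b, v, r⟩ := p
  cases b <;> rfl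

theorem pt_d3 [Dat (Bool ⊕ Bool)] [Dat ((Bool ⊕ Bool) ⊕ Bool)] :
    PolyF (fun l : List ((Bool ⊕ Bool) ⊕ Bool) =>
      ((l.flatMap d1, l.flatMap d2), l.flatMap d3)) := by
  have h1 : PolyF d1 := PolyF.finite _
  have h2 : PolyF d2 := PolyF.finite _
  have h3 : PolyF d3 := PolyF.finite _
  refine PolyF.pair (PolyF.pair ?_ ?_) ?_
  · exact PolyF.flatMap (f := fun _ b => d1 b) (h1.comp (by fun_prop)) (by fun_prop)
  · exact PolyF.flatMap (f := fun _ b => d2 b) (h2.comp (by fun_prop)) (by fun_prop)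
  · exact PolyF.flatMap (f := fun _ b => d3 b) (h3.comp (by fun_prop)) (by fun_prop)

end

end CNV_

open CNV_

/-- CNV: polynomial time functions in the sense of `PolyF` as algorithms with an oracle. -/
theorem p_CNV : T_CNV := by
  have hC : Fact Core := ⟨Pool.Agent.PT.core⟩
  constructor
  · intro F hF
    obtain ⟨d1⟩ := Pool.Agent.CookLevin.exists_dat (Bool ⊕ Bool)
    obtain ⟨d2⟩ := Pool.Agent.CookLevin.exists_dat ((Bool ⊕ Bool) ⊕ Bool)
    obtain ⟨d3⟩ := Pool.Agent.CookLevin.exists_dat (Option Bool ⊕ Bool)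
    have he : PolyF encBool := PolyF.finite _
    refine Pool.Agent.PT.tm_of_polyF ((pt_enc he).comp (hF.comp pt_d3)) (encH encPair)
      (encMv encBool) (fun p => mvOf (F p)) fun p => ?_
    simp only [dec3]
  · intro F hF
    obtain ⟨d1⟩ := Pool.Agent.CookLevin.exists_dat (Bool ⊕ Bool)
    obtain ⟨d3⟩ := Pool.Agent.CookLevin.exists_dat (Option Bool ⊕ Bool)
    have he : PolyF (id : Str → Str) := PolyF.id
    refine Pool.Agent.PT.tm_of_polyF ((pt_enc he).comp (hF.comp Pool.Agent.DSR.pt_dec))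
      (encH (id : Str → Str)) (encMv (id : Str → Str)) (fun p => mvOf (F p)) fun p => ?_
    simp only [dec2]

end Pool.Agent.RDS
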