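import Pool.Agent.RDS.Targets

set_option autoImplicit false

/-!
# RDS: asymptotics of the parameters (target ASY)
-/

namespace Pool.Agent.RDS

namespace ASY_

theorem poly_bd (P : Polynomial ℕ) :
    ∃ a : ℕ, ∀ j x : ℕ, x ≤ 2 ^ j → P.eval x ≤ 2 ^ (a * (j + 1)) := by
  induction P using Polynomial.induction_on' with
  | add p q hp hq =>
    obtain ⟨a, ha⟩ := hp
    obtain ⟨b, hb⟩ := hq
    refine ⟨a + b + 1, fun j x hx => ?_⟩
    have h1 := ha j x hx
    have h2 := hb j x hx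
    have h3 : 2 ^ (a * (j + 1)) ≤ 2 ^ ((a + b) * (j + 1)) :=
      Nat.pow_le_pow_right (by norm_num) (Nat.mul_le_mul_right _ (by omega))
    have h4 : 2 ^ (b * (j + 1)) ≤ 2 ^ ((a + b) * (j + 1)) :=
      Nat.pow_le_pow_right (by norm_num) (Nat.mul_le_mul_right _ (by omega))
    have h5 : 2 * 2 ^ ((a + b) * (j + 1)) ≤ 2 ^ ((a + b + 1) * (j + 1)) := by
      rw [← pow_succ']
      refine Nat.pow_le_pow_right (by norm_num) ?_
      rw [add_mul (a + b) 1]
      omega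
    rw [Polynomial.eval_add]
    omega
  | monomial n c =>
    refine ⟨c + n, fun j x hx => ?_⟩
    rw [Polynomial.eval_monomial]
    have h1 : c ≤ 2 ^ c := Nat.lt_two_pow_self.le
    have h2 : x ^ n ≤ 2 ^ (j * n) := by
      rw [pow_mul]
      exact Nat.pow_le_pow_left hx n
    calc c * x ^ n ≤ 2 ^ c * 2 ^ (j * n) := Nat.mul_le_mul h1 h2
      _ = 2 ^ (c + j * n) := (pow_add _ _ _).symm
      _ ≤ 2 ^ ((c + n) * (j + 1)) := by
        refine Nat.pow_le_pow_right (by norm_num) ?_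
        nlinarith [Nat.zero_le (c * j), Nat.zero_le n]

end ASY_

open ASY_ in
/-- **ASY** -/
theorem p_ASY : T_ASY := by
  intro P q c m₀
  obtain ⟨b, hb⟩ := poly_bd P
  obtain ⟨a, ha⟩ := poly_bd q
  set K : ℕ := 5 * (a + b * a) + 5 * b with hK
  set B : ℕ := K + 3 + c with hB
  set u : ℕ := 4 * B + m₀ with hu
  set t : ℕ := 4 * u with ht
  have hu2 : u ≤ 2 ^ u := Nat.lt_two_pow_self.le
  have hut : 2 ^ u ≤ 2 ^ t := Nat.pow_le_pow_right (by norm_num) (by omega)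
  have h1u : 1 ≤ 2 ^ u := Nat.one_le_two_pow
  have h16 : ∀ k : ℕ, 10 * 2 ^ k + 1 ≤ 2 ^ (k + 4) := by
    intro k
    have : 1 ≤ 2 ^ k := Nat.one_le_two_pow
    rw [pow_add]
    omega
  set s : ℕ := a * (t + 5) + b * (a * (t + 5) + 5) with hs
  have hq : q.eval (10 * 2 ^ t + 1) ≤ 2 ^ (a * (t + 5)) := ha (t + 4) _ (h16 t)
  have hsK : s ≤ K * (t + 1) := by
    rw [hs, hK]
    nlinarith [Nat.zero_le (a * t), Nat.zero_le (b * a * t), Nat.zero_le (b * t)]
  have hmain : s * s + 6 * s + c + 8 ≤ 2 ^ t := by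
    have e1 : s * s + 6 * s + c + 8 ≤ (s + 3) * (s + 3) + c := by nlinarith
    have e2 : s + 3 ≤ (K + 3) * (t + 1) := by nlinarith
    have e3 : (s + 3) * (s + 3) ≤ ((K + 3) * (t + 1)) * ((K + 3) * (t + 1)) :=
      Nat.mul_le_mul e2 e2
    have e4 : ((K + 3) * (t + 1)) * ((K + 3) * (t + 1)) + c ≤ (B * (t + 1)) * (B * (t + 1)) := by
      have e5 : (K + 3) * (t + 1) + c ≤ B * (t + 1) := by
        rw [hB]
        nlinarith
      have e6 := Nat.mul_le_mul e5 e5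
      have e7 : 1 ≤ (K + 3) * (t + 1) := Nat.mul_pos (by omega) (by omega)
      nlinarith
    have e8 : t + 1 ≤ 4 * 2 ^ u := by
      have : u + 1 ≤ 2 ^ u := Nat.lt_two_pow_self
      omega
    have e9 : 4 * B ≤ 2 ^ u := by omega
    have e10 : B * (t + 1) ≤ 2 ^ u * 2 ^ u := by
      calc B * (t + 1) ≤ B * (4 * 2 ^ u) := Nat.mul_le_mul_left _ e8
        _ = (4 * B) * 2 ^ u := by ring
        _ ≤ 2 ^ u * 2 ^ u := Nat.mul_le_mul_right _ e9
    have e11 : (2 ^ u * 2 ^ u) * (2 ^ u * 2 ^ u) = 2 ^ t := by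
      rw [ht, ← pow_add, ← pow_add]
      congr 1
      ring
    calc s * s + 6 * s + c + 8 ≤ (s + 3) * (s + 3) + c := e1
      _ ≤ ((K + 3) * (t + 1)) * ((K + 3) * (t + 1)) + c := Nat.add_le_add_right e3 c
      _ ≤ (B * (t + 1)) * (B * (t + 1)) := e4
      _ ≤ (2 ^ u * 2 ^ u) * (2 ^ u * 2 ^ u) := Nat.mul_le_mul e10 e10
      _ = 2 ^ t := e11
  refine ⟨2 ^ t, s, ?_, Nat.one_le_two_pow, ?_, ?_, ?_, hmain⟩
  · exact (by omega : m₀ ≤ u).trans (hu2.trans hut)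
  · omega
  · refine hq.trans (Nat.pow_le_pow_right (by norm_num) ?_)
    rw [hs]
    exact Nat.le_add_right _ _
  · intro l hl
    have h3 : l ≤ 2 ^ (a * (t + 5) + 4) := by
      refine hl.trans (le_trans ?_ (h16 (a * (t + 5))))
      omega
    refine (hb _ l h3).trans (Nat.pow_le_pow_right (by norm_num) ?_)
    rw [hs]
    exact Nat.le_add_left _ _

end Pool.Agent.RDS
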