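import Pool.Agent.RDS.Targets
import Pool.Agent.CookLevin.SIM

set_option autoImplicit false

/-!
# RDS, CTB: there are only countably many polynomial time functions

Every polynomial time function is computed by a stack machine with finitely many stacks, symbols and
controls (`tSIM`); renaming them we may take the types `Fin k`, `Fin g`, `Fin c`. There are only
countably many such machines, and a machine (with the encodings of the input and output symbols)
determines the function, as halted configurations do not change.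
-/

namespace Pool.Agent.RDS

open Pool.Agent.CookLevin (SM newStk T_SIM tSIM)
open Pool.Agent.DSR (PolyTime)

namespace CTB_

section
variable {K Γ C K' Γ' C' : Type} (eK : K ≃ K') (eG : Γ ≃ Γ') (eC : C ≃ C')

/-- the machine with other names -/
def tr (A : SM K Γ C) : SM K' Γ' C' where
  start := eC A.start
  inp := eK A.inp
  out := eK A.out
  halted c := A.halted (eC.symm c)
  stk c := eK (A.stk (eC.symm c))
  act c := (A.act (eC.symm c)).map (Option.map eG)
  nxt c o := eC (A.nxt (eC.symm c) (o.map eG.symm))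

/-- the configuration with other names -/
def cf (x : C × (K → List Γ)) : C' × (K' → List Γ') :=
  (eC x.1, fun k => (x.2 (eK.symm k)).map eG)

theorem newStk_map (o : Option (Option Γ)) (l : List Γ) :
    newStk (o.map (Option.map eG)) (l.map eG) = (newStk o l).map eG := by
  rcases o with _ | _ | a <;> simp [newStk]

theorem step_tr (A : SM K Γ C) (x : C × (K → List Γ)) :
    (tr eK eG eC A).step (cf eK eG eC x) = cf eK eG eC (A.step x) := by
  classical
  obtain ⟨c, S⟩ := x
  unfold SM.step
  by_cases h : A.halted c = true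
  · simp [tr, cf, h]
  · have h1 : ¬ (tr eK eG eC A).halted (cf eK eG eC (c, S)).1 = true := by simpa [tr, cf] using h
    rw [if_neg h1, if_neg h]
    refine Prod.ext ?_ ?_
    · simp [tr, cf, List.head?_map, Option.map_map]
    · funext k
      obtain ⟨k, rfl⟩ := eK.surjective k
      by_cases hk : k = A.stk c
      · subst hk
        simp [tr, cf, Function.update, newStk_map]
      · simp [tr, cf, Function.update, hk]

theorem run_tr (A : SM K Γ C) (n : ℕ) (x : C × (K → List Γ)) :
    (tr eK eG eC A).run n (cf eK eG eC x) = cf eK eG eC (A.run n x) := by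
  have h : Function.Semiconj (cf eK eG eC) A.step (tr eK eG eC A).step :=
    fun x => (step_tr eK eG eC A x).symm
  exact ((h.iterate_right n) x).symm

theorem init_tr (A : SM K Γ C) (l : List Γ) :
    (tr eK eG eC A).init (l.map eG) = cf eK eG eC (A.init l) := by
  classical
  refine Prod.ext rfl ?_
  funext k
  obtain ⟨k, rfl⟩ := eK.surjective k
  by_cases hk : k = A.inp
  · subst hk
    simp [SM.init, tr, cf, Function.update]
  · simp [SM.init, tr, cf, Function.update, hk]

end

section
variable {K Γ C : Type}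

theorem run_le (A : SM K Γ C) (x : C × (K → List Γ)) {n m : ℕ} (hnm : n ≤ m)
    (h : A.halted (A.run n x).1 = true) : A.run m x = A.run n x := by
  obtain ⟨d, rfl⟩ := Nat.exists_eq_add_of_le' hnm
  have h1 : A.step (A.run n x) = A.run n x := by
    unfold SM.step
    rw [if_pos h]
  have h2 : A.run (d + n) x = A.step^[d] (A.run n x) := by
    unfold SM.run
    rw [Function.iterate_add_apply]
  rw [h2]
  exact Function.iterate_fixed h1 d

theorem run_unique (A : SM K Γ C) (x : C × (K → List Γ)) {n m : ℕ}
    (h : A.halted (A.run n x).1 = true) (h' : A.halted (A.run m x).1 = true) :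
    A.run m x = A.run n x := by
  rcases le_total n m with hnm | hnm
  · exact run_le A x hnm h
  · exact (run_le A x hnm h').symm

/-- machines as tuples -/
def tup (A : SM K Γ C) :
    C × K × K × (C → Bool) × (C → K) × (C → Option (Option Γ)) × (C → Option Γ → C) :=
  (A.start, A.inp, A.out, A.halted, A.stk, A.act, A.nxt)

theorem tup_inj : Function.Injective (tup (K := K) (Γ := Γ) (C := C)) := by
  rintro ⟨a1, a2, a3, a4, a5, a6, a7⟩ ⟨b1, b2, b3, b4, b5, b6, b7⟩ h
  simp only [tup, Prod.mk.injEq] at h
  obtain ⟨rfl, rfl, rfl, rfl, rfl, rfl, rfl⟩ := h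
  rfl

theorem SM_countable [Finite K] [Finite Γ] [Finite C] : Countable (SM K Γ C) :=
  tup_inj.countable

end

/-- the machine `A` with the codings `i` and `o` computes `f` -/
def Cmp {α β Γ Δ : Type} (ea : α → List Γ) (eb : β → List Δ) {K S C : Type} (A : SM K S C)
    (i : Γ → S) (o : Δ → S) (f : α → β) : Prop :=
  Function.Injective o ∧ ∀ a, ∃ n, A.halted (A.run n (A.init ((ea a).map i))).1 = true ∧
    (A.run n (A.init ((ea a).map i))).2 A.out = (eb (f a)).map o

theorem Cmp_unique {α β Γ Δ : Type} {ea : α → List Γ} {eb : β → List Δ}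
    (hb : Function.Injective eb) {K S C : Type} {A : SM K S C} {i : Γ → S} {o : Δ → S}
    {f g : α → β} (hf : Cmp ea eb A i o f) (hg : Cmp ea eb A i o g) : f = g := by
  funext a
  obtain ⟨n, h1, h2⟩ := hf.2 a
  obtain ⟨m, h3, h4⟩ := hg.2 a
  rw [run_unique A _ h1 h3, h2] at h4
  exact hb (List.map_injective_iff.2 hf.1 h4)

theorem Cmp_tr {α β Γ Δ : Type} {ea : α → List Γ} {eb : β → List Δ}
    {K S C K' S' C' : Type} (eK : K ≃ K') (eS : S ≃ S') (eC : C ≃ C') {A : SM K S C}
    {i : Γ → S} {o : Δ → S} {f : α → β} (hf : Cmp ea eb A i o f) :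
    Cmp ea eb (tr eK eS eC A) (fun x => eS (i x)) (fun x => eS (o x)) f := by
  refine ⟨fun x y h => hf.1 (eS.injective h), fun a => ?_⟩
  obtain ⟨n, h1, h2⟩ := hf.2 a
  have h3 : (ea a).map (fun x => eS (i x)) = ((ea a).map i).map eS := by
    rw [List.map_map]; rfl
  refine ⟨n, ?_, ?_⟩
  · rw [h3, init_tr, run_tr]
    simpa [tr, cf] using h1
  · rw [h3, init_tr, run_tr]
    have h4 : (cf eK eS eC (A.run n (A.init ((ea a).map i)))).2 (tr eK eS eC A).out =
        ((A.run n (A.init ((ea a).map i))).2 A.out).map eS := by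
      simp [tr, cf]
    rw [h4, h2, List.map_map]
    rfl

end CTB_

open CTB_ in
/-- **CTB**. There are only countably many polynomial time functions. -/
theorem p_CTB : T_CTB := by
  intro α β Γ Δ _ _ ea eb hb
  have hc : ∀ k g c : ℕ, Countable (SM (Fin k) (Fin g) (Fin c)) := fun k g c => SM_countable
  have hc1 : ∀ g : ℕ, Countable (Γ → Fin g) := fun g => inferInstance
  have hc2 : ∀ g : ℕ, Countable (Δ → Fin g) := fun g => inferInstance
  have hsub : {f : α → β | PolyTime ea eb f} ⊆ ⋃ k : ℕ, ⋃ g : ℕ, ⋃ c : ℕ,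
      ⋃ A : SM (Fin k) (Fin g) (Fin c), ⋃ i : Γ → Fin g, ⋃ o : Δ → Fin g,
        {f | Cmp ea eb A i o f} := by
    intro f hf
    obtain ⟨K, S, C, hK, hS, hC, A, i, o, p, ho, h⟩ := tSIM ea eb f hf
    obtain ⟨k, ⟨eK⟩⟩ := Finite.exists_equiv_fin K
    obtain ⟨g, ⟨eS⟩⟩ := Finite.exists_equiv_fin S
    obtain ⟨c, ⟨eC⟩⟩ := Finite.exists_equiv_fin C
    have hA : Cmp ea eb A i o f := by
      refine ⟨ho, fun a => ?_⟩
      obtain ⟨n, -, h1, h2⟩ := h a
      exact ⟨n, h1, h2⟩
    have hA' := Cmp_tr eK eS eC hA
    simp only [Set.mem_iUnion]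
    exact ⟨k, g, c, _, _, _, hA'⟩
  refine Set.Countable.mono hsub ?_
  refine Set.countable_iUnion fun k => Set.countable_iUnion fun g => Set.countable_iUnion fun c =>
    Set.countable_iUnion fun A => Set.countable_iUnion fun i => Set.countable_iUnion fun o => ?_
  exact Set.Subsingleton.countable fun f hf g hg => Cmp_unique hb hf hg

end Pool.Agent.RDS
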