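import Pool.Agent.RDS.Targets

set_option autoImplicit false

/-!
# RDS, target GEN: the generic oracle as the limit of a recursion
-/

namespace Pool.Agent.RDS

namespace GEN_

/-- the start of the recursion -/
def st (u : Str) : Str := u ++ List.replicate (9 * u.length + 1) false

theorem st_len (u : Str) : (st u).length = 10 * u.length + 1 := by
  unfold st
  rw [List.length_append, List.length_replicate]
  omega

theorem st_reg : Reg st := by
  refine ⟨fun u v huv => ?_, st_len⟩
  have h1 : (st u).length = (st v).length := by rw [huv]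
  rw [st_len, st_len] at h1
  have h2 : u.length = v.length := by omega
  exact (List.append_inj huv h2).1

theorem agr_mono {m m' : ℕ} {R R' : Str → Str} (h : m ≤ m') (hA : Agr m' R R') : Agr m R R' :=
  fun u hu => hA u (lt_of_lt_of_le hu h)

theorem agr_trans {m : ℕ} {R R' R'' : Str → Str} (h : Agr m R R') (h' : Agr m R' R'') :
    Agr m R R'' := fun u hu => (h u hu).trans (h' u hu)

end GEN_

open GEN_ in
theorem p_GEN : T_GEN := by
  intro S hS
  choose nR nm hreg hagr hS' using hS
  let step : ℕ → {p : (Str → Str) × ℕ // Reg p.1} → {p : (Str → Str) × ℕ // Reg p.1} :=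
    fun e p => ⟨(nR e p.1.1 p.1.2 p.2, max (nm e p.1.1 p.1.2 p.2) (p.1.2 + 1)),
      hreg e p.1.1 p.1.2 p.2⟩
  let σ : ℕ → {p : (Str → Str) × ℕ // Reg p.1} := fun n =>
    Nat.rec (⟨(st, 0), st_reg⟩ : {p : (Str → Str) × ℕ // Reg p.1}) step n
  have hσ : ∀ e, σ (e + 1) = step e (σ e) := fun e => rfl
  have hm1 : ∀ e, (σ e).1.2 + 1 ≤ (σ (e + 1)).1.2 := by
    intro e
    rw [hσ]
    exact le_max_right _ _
  have hm : ∀ e, e ≤ (σ e).1.2 := by
    intro e
    induction e with
    | zero => exact Nat.zero_le _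
    | succ e ih => exact le_trans (Nat.succ_le_succ ih) (hm1 e)
  have hmono : ∀ e k, (σ e).1.2 ≤ (σ (e + k)).1.2 := by
    intro e k
    induction k with
    | zero => exact le_rfl
    | succ k ih => exact le_trans ih (le_trans (Nat.le_succ _) (hm1 (e + k)))
  have hA1 : ∀ e, Agr (σ e).1.2 (σ e).1.1 (σ (e + 1)).1.1 := by
    intro e
    rw [hσ]
    exact hagr e (σ e).1.1 (σ e).1.2 (σ e).2
  have hA : ∀ e k, Agr (σ e).1.2 (σ e).1.1 (σ (e + k)).1.1 := by
    intro e k
    induction k with
    | zero => exact fun u _ => rfl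
    | succ k ih => exact agr_trans ih (agr_mono (hmono e k) (hA1 (e + k)))
  let R : Str → Str := fun u => (σ (u.length + 1)).1.1 u
  have hR : ∀ e, Agr (σ e).1.2 (σ e).1.1 R := by
    intro e u hu
    change (σ e).1.1 u = (σ (u.length + 1)).1.1 u
    rcases le_total e (u.length + 1) with h | h
    · obtain ⟨k, hk⟩ := Nat.exists_eq_add_of_le h
      rw [hk]
      exact hA e k u hu
    · obtain ⟨k, hk⟩ := Nat.exists_eq_add_of_le h
      have h1 := hA (u.length + 1) k u (lt_of_lt_of_le (Nat.lt_succ_self _) (hm _))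
      rw [← hk] at h1
      exact h1.symm
  have hreg' : Reg R := by
    refine ⟨fun u v huv => ?_, fun u => (σ (u.length + 1)).2.len u⟩
    have hu := hR (max u.length v.length + 1) u
      (lt_of_lt_of_le (Nat.lt_succ_of_le (le_max_left _ _)) (hm _))
    have hv := hR (max u.length v.length + 1) v
      (lt_of_lt_of_le (Nat.lt_succ_of_le (le_max_right _ _)) (hm _))
    exact (σ (max u.length v.length + 1)).2.inj (by rw [hu, hv, huv])
  refine ⟨R, hreg', fun e => ?_⟩
  refine hS' e (σ e).1.1 (σ e).1.2 (σ e).2 R hreg' ?_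
  have h1 := hR (e + 1)
  rw [hσ] at h1
  exact agr_mono (le_max_left _ _) h1

end Pool.Agent.RDS
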