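import Pool.Agent.RDS.Targets

set_option autoImplicit false

/-!
# RDS, block INE: the encodings of moves, bits and answers are injective
-/

namespace Pool.Agent.RDS

open Pool.Agent.DSR (Lang PolyTime encPair encBool Ans Letter encAns)

namespace INE_

/-- a list of bits is not the one letter word REJECT -/
theorem ask_ne_rej (l : List (List Bool)) : encAns (.ask l) ≠ [.rej] := by
  intro h
  have h1 : Letter.rej ∈ encAns (.ask l) := by rw [h]; simp
  unfold encAns at h1
  simp at h1

/-- a list of bits is not the one letter word ACCEPT -/
theorem ask_ne_acc (l : List (List Bool)) : encAns (.ask l) ≠ [.acc] := by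
  intro h
  have h1 : Letter.acc ∈ encAns (.ask l) := by rw [h]; simp
  unfold encAns at h1
  simp at h1

theorem foldr_pstep (y : List Bool) (st : List (List Bool)) :
    (y.map Letter.bit ++ [Letter.stop]).foldr Pool.Agent.DSR.pstep st = y :: st := by
  induction y with
  | nil => rfl
  | cons b y ih =>
    rw [List.map_cons, List.cons_append, List.foldr_cons, ih]
    rfl

theorem prs_ask (l : List (List Bool)) : Pool.Agent.DSR.prs (encAns (.ask l)) = l := by
  change (l.flatMap fun y => y.map Letter.bit ++ [Letter.stop]).foldr
    Pool.Agent.DSR.pstep [] = l
  induction l with
  | nil => rfl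
  | cons y l ih =>
    rw [List.flatMap_cons, List.foldr_append, ih, foldr_pstep]

theorem encMv_inj {β Δ : Type} (eb : β → List Δ) (h : Function.Injective eb) :
    Function.Injective (encMv eb) := by
  intro a b hab
  cases a with
  | ask v =>
    cases b with
    | ask w =>
      simp only [encMv, List.cons.injEq, true_and] at hab
      have hi : Function.Injective (fun b : Bool => (Sum.inl (some b) : Option Bool ⊕ Δ)) := by
        intro x y hxy
        simpa using hxy
      rw [List.map_injective_iff.mpr hi hab]
    | out b =>
      simp only [encMv] at hab
      cases hb : eb b with
      | nil => rw [hb] at hab; simp at hab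
      | cons d l => rw [hb] at hab; simp at hab
  | out a =>
    cases b with
    | ask w =>
      simp only [encMv] at hab
      cases hb : eb a with
      | nil => rw [hb] at hab; simp at hab
      | cons d l => rw [hb] at hab; simp at hab
    | out b =>
      simp only [encMv] at hab
      rw [h (List.map_injective_iff.mpr Sum.inr_injective hab)]

theorem encBool_inj : Function.Injective encBool := by
  intro a b hab
  simpa [encBool] using hab

theorem encAns_inj : Function.Injective encAns := by
  intro a b hab
  cases a with
  | accept =>
    cases b with
    | accept => rfl
    | reject => simp [encAns] at hab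
    | ask l => exact absurd hab.symm (ask_ne_acc l)
  | reject =>
    cases b with
    | accept => simp [encAns] at hab
    | reject => rfl
    | ask l => exact absurd hab.symm (ask_ne_rej l)
  | ask l =>
    cases b with
    | accept => exact absurd hab (ask_ne_acc l)
    | reject => exact absurd hab (ask_ne_rej l)
    | ask l' => rw [← prs_ask l, hab, prs_ask]

end INE_

theorem p_INE : T_INE :=
  ⟨fun eb h => INE_.encMv_inj eb h, INE_.encBool_inj, INE_.encAns_inj⟩

end Pool.Agent.RDS
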