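import Pool.Agent.RDS.Targets

set_option autoImplicit false

/-!
# INJC: few variable oracles are not injective
-/

namespace Pool.Agent.RDS

namespace INJC_

/-- the index set -/
abbrev Ix (m N : ℕ) : Type := {u : Str // u ∈ FF m N}

theorem len_ex {R₀ : Str → Str} (hR : Reg R₀) {m N : ℕ} (ω : Om m N) (u : Str) :
    (ex R₀ ω u).length = 10 * u.length + 1 := by
  unfold ex
  split_ifs with h
  · exact List.Vector.toList_length _
  · exact hR.len u

theorem ncard_eq {α : Type} [Fintype α] (p : α → Prop) [DecidablePred p] :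
    {a | p a}.ncard = (Finset.univ.filter p).card := by
  rw [← Set.ncard_coe_finset]
  congr 1
  ext a
  simp

/-- the event at the index `i` -/
def Ev {m N : ℕ} (i : Ix m N) (ω : Om m N) : Prop :=
  ∃ j : Ix m N, j ≠ i ∧ j.1.length = i.1.length ∧ (ω j).toList = (ω i).toList

theorem fib {m N : ℕ} (i : Ix m N) (ω : Om m N) :
    {y : List.Vector Bool (10 * i.1.length + 1) | Ev i (Function.update ω i y)}.ncard ≤
      2 ^ i.1.length := by
  classical
  set g : List.Vector Bool i.1.length → Str := fun u =>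
    if h : u.toList ∈ FF m N then (ω ⟨u.toList, h⟩).toList else [] with hg
  rw [← Set.ncard_image_of_injective _ List.Vector.toList_injective]
  have h1 : List.Vector.toList ''
      {y : List.Vector Bool (10 * i.1.length + 1) | Ev i (Function.update ω i y)} ⊆
      g '' Set.univ := by
    rintro _ ⟨y, ⟨j, hj, hl, he⟩, rfl⟩
    rw [Function.update_self, Function.update_of_ne hj] at he
    refine ⟨⟨j.1, hl⟩, Set.mem_univ _, ?_⟩
    have h2 : List.Vector.toList (n := i.1.length) ⟨j.1, hl⟩ ∈ FF m N := j.2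
    show (if h : List.Vector.toList (n := i.1.length) ⟨j.1, hl⟩ ∈ FF m N then
      (ω ⟨List.Vector.toList (n := i.1.length) ⟨j.1, hl⟩, h⟩).toList else []) = y.toList
    rw [dif_pos h2]
    exact he
  refine (Set.ncard_le_ncard h1 (Set.toFinite _)).trans ((Set.ncard_image_le).trans ?_)
  rw [Set.ncard_univ, Nat.card_eq_fintype_card, card_vector, Fintype.card_bool]

theorem one (h1 : T_UPD) {m N : ℕ} (i : Ix m N) :
    {ω : Om m N | Ev i ω}.ncard * 2 ^ (9 * i.1.length + 1) ≤ Fintype.card (Om m N) := by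
  classical
  have h2 := h1 (Ix m N) (fun j => List.Vector Bool (10 * j.1.length + 1)) i (Ev i)
  have h3 : ∑ ω : Om m N, {y : List.Vector Bool (10 * i.1.length + 1) |
      Ev i (Function.update ω i y)}.ncard ≤ Fintype.card (Om m N) * 2 ^ i.1.length := by
    refine (Finset.sum_le_sum fun ω _ => fib i ω).trans ?_
    rw [Finset.sum_const, smul_eq_mul, Finset.card_univ]
  have h4 : {ω : Om m N | Ev i ω}.ncard * 2 ^ (10 * i.1.length + 1) ≤
      Fintype.card (Om m N) * 2 ^ i.1.length := by
    have h5 : Fintype.card (List.Vector Bool (10 * i.1.length + 1)) =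
        2 ^ (10 * i.1.length + 1) := by
      rw [card_vector, Fintype.card_bool]
    rw [← h5]
    refine le_trans (le_of_eq ?_) h3
    convert h2
  have h6 : 2 ^ (10 * i.1.length + 1) = 2 ^ (9 * i.1.length + 1) * 2 ^ i.1.length := by
    rw [← pow_add]
    congr 1
    ring
  rw [h6, ← mul_assoc] at h4
  exact Nat.le_of_mul_le_mul_right h4 (by positivity)

open Classical in
/-- the indices of length `l` -/
noncomputable def Lv (m N l : ℕ) : Finset (Ix m N) := Finset.univ.filter fun i => i.1.length = l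

theorem card_Lv (m N l : ℕ) : (Lv m N l).card ≤ 2 ^ l := by
  classical
  have h1 : (Lv m N l).image Subtype.val ⊆
      (Finset.univ : Finset (List.Vector Bool l)).image List.Vector.toList := by
    intro u hu
    obtain ⟨i, hi, rfl⟩ := Finset.mem_image.1 hu
    exact Finset.mem_image.2 ⟨⟨i.1, (Finset.mem_filter.1 hi).2⟩, Finset.mem_univ _, rfl⟩
  rw [← Finset.card_image_of_injective (Lv m N l) Subtype.val_injective]
  refine (Finset.card_le_card h1).trans (Finset.card_image_le.trans ?_)
  rw [Finset.card_univ, card_vector, Fintype.card_bool]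

open Classical in
theorem level (h1 : T_UPD) (m N l : ℕ) :
    (Finset.univ.filter fun ω : Om m N => ∃ i ∈ Lv m N l, Ev i ω).card * 2 ^ (8 * l + 1) ≤
      Fintype.card (Om m N) := by
  have h2 : (Finset.univ.filter fun ω : Om m N => ∃ i ∈ Lv m N l, Ev i ω) ⊆
      (Lv m N l).biUnion fun i => Finset.univ.filter fun ω : Om m N => Ev i ω := by
    intro ω hω
    obtain ⟨i, hi, he⟩ := (Finset.mem_filter.1 hω).2
    exact Finset.mem_biUnion.2 ⟨i, hi, Finset.mem_filter.2 ⟨Finset.mem_univ _, he⟩⟩
  have h3 : ∀ i ∈ Lv m N l, (Finset.univ.filter fun ω : Om m N => Ev i ω).card *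
      2 ^ (9 * l + 1) ≤ Fintype.card (Om m N) := by
    intro i hi
    have h4 := one h1 i
    rw [ncard_eq, (Finset.mem_filter.1 hi).2] at h4
    exact h4
  have h5 : (Finset.univ.filter fun ω : Om m N => ∃ i ∈ Lv m N l, Ev i ω).card *
      2 ^ (9 * l + 1) ≤ 2 ^ l * Fintype.card (Om m N) := by
    calc _ ≤ (∑ i ∈ Lv m N l, (Finset.univ.filter fun ω : Om m N => Ev i ω).card) *
          2 ^ (9 * l + 1) :=
          Nat.mul_le_mul_right _ ((Finset.card_le_card h2).trans Finset.card_biUnion_le)
      _ = ∑ i ∈ Lv m N l, (Finset.univ.filter fun ω : Om m N => Ev i ω).card *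
          2 ^ (9 * l + 1) := Finset.sum_mul _ _ _
      _ ≤ ∑ i ∈ Lv m N l, Fintype.card (Om m N) := Finset.sum_le_sum h3
      _ = (Lv m N l).card * Fintype.card (Om m N) := by rw [Finset.sum_const, smul_eq_mul]
      _ ≤ _ := Nat.mul_le_mul_right _ (card_Lv m N l)
  have h6 : 2 ^ (9 * l + 1) = 2 ^ l * 2 ^ (8 * l + 1) := by
    rw [← pow_add]
    congr 1
    ring
  rw [h6, mul_left_comm] at h5
  exact Nat.le_of_mul_le_mul_left h5 (by positivity)

end INJC_

open INJC_ in
theorem p_INJC (h1 : T_UPD) : T_INJC := by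
  classical
  intro R₀ m N hR hm hN
  rw [ncard_eq]
  set A : ℕ → Finset (Om m N) := fun l =>
    Finset.univ.filter fun ω : Om m N => ∃ i ∈ Lv m N l, Ev i ω with hA
  have h2 : (Finset.univ.filter fun ω : Om m N => ¬ Reg (ex R₀ ω)) ⊆
      (Finset.Ioc m N).biUnion A := by
    intro ω hω
    have h3 := (Finset.mem_filter.1 hω).2
    have h4 : ¬ Function.Injective (ex R₀ ω) := fun h => h3 ⟨h, len_ex hR ω⟩
    simp only [Function.Injective, not_forall] at h4
    obtain ⟨u, v, huv, hne⟩ := h4
    have hl : u.length = v.length := by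
      have := congrArg List.length huv
      rw [len_ex hR, len_ex hR] at this
      omega
    by_cases hu : u ∈ FF m N
    · have hv : v ∈ FF m N := by
        rw [mem_FF] at hu ⊢
        omega
      refine Finset.mem_biUnion.2 ⟨u.length, ?_, Finset.mem_filter.2 ⟨Finset.mem_univ _,
        ⟨u, hu⟩, ?_, ⟨v, hv⟩, ?_, hl.symm, ?_⟩⟩
      · rw [Finset.mem_Ioc]
        exact mem_FF.1 hu
      · exact Finset.mem_filter.2 ⟨Finset.mem_univ _, rfl⟩
      · intro h
        exact hne (congrArg Subtype.val h).symm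
      · unfold ex at huv
        rw [dif_pos hu, dif_pos hv] at huv
        exact huv.symm
    · have hv : v ∉ FF m N := by
        rw [mem_FF] at hu ⊢
        omega
      unfold ex at huv
      rw [dif_neg hu, dif_neg hv] at huv
      exact absurd (hR.inj huv) hne
  have h5 : ∀ l ∈ Finset.Ioc m N, (A l).card * (8 * N) ≤ Fintype.card (Om m N) := by
    intro l hl
    refine le_trans (Nat.mul_le_mul_left _ ?_) (level h1 m N l)
    have h6 := (Finset.mem_Ioc.1 hl).1
    calc 8 * N ≤ 2 ^ 3 * 2 ^ m := Nat.mul_le_mul (by norm_num) hN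
      _ = 2 ^ (3 + m) := (pow_add _ _ _).symm
      _ ≤ 2 ^ (8 * l + 1) := Nat.pow_le_pow_right (by norm_num) (by omega)
  have h7 : (Finset.univ.filter fun ω : Om m N => ¬ Reg (ex R₀ ω)).card * (8 * N) ≤
      N * Fintype.card (Om m N) := by
    calc _ ≤ (∑ l ∈ Finset.Ioc m N, (A l).card) * (8 * N) :=
          Nat.mul_le_mul_right _ ((Finset.card_le_card h2).trans Finset.card_biUnion_le)
      _ = ∑ l ∈ Finset.Ioc m N, (A l).card * (8 * N) := Finset.sum_mul _ _ _
      _ ≤ ∑ l ∈ Finset.Ioc m N, Fintype.card (Om m N) := Finset.sum_le_sum h5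
      _ = (N - m) * Fintype.card (Om m N) := by
          rw [Finset.sum_const, smul_eq_mul, Nat.card_Ioc]
      _ ≤ _ := Nat.mul_le_mul_right _ (Nat.sub_le _ _)
  rcases Nat.eq_zero_or_pos N with h0 | h0
  · have h8 : (Finset.univ.filter fun ω : Om m N => ¬ Reg (ex R₀ ω)) = ∅ := by
      rw [← Finset.subset_empty]
      have h9 : Finset.Ioc m N = ∅ := Finset.Ioc_eq_empty (by omega)
      refine h2.trans ?_
      rw [h9, Finset.biUnion_empty]
    rw [h8, Finset.card_empty, zero_mul]
    exact Nat.zero_le _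
  · have h9 : N * ((Finset.univ.filter fun ω : Om m N => ¬ Reg (ex R₀ ω)).card * 8) ≤
        N * Fintype.card (Om m N) := by
      refine le_trans (le_of_eq ?_) h7
      ring
    exact Nat.le_of_mul_le_mul_left h9 h0

end Pool.Agent.RDS
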