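import Pool.Agent.RDS.Targets

set_option autoImplicit false

/-!
# RDS: OUTL, the output of a polynomial time machine has polynomial length
-/

namespace Pool.Agent.RDS

open Pool.Agent.DSR (Lang PolyTime encPair encBool Ans Letter encAns)

namespace OUTL_

open Turing Turing.TM2 StateTransition

section

variable {K : Type} [DecidableEq K] {Γ : K → Type} {Λ σ : Type}

/-- the number of pushes in a statement -/
def pushes : TM2.Stmt Γ Λ σ → ℕ
  | .push _ _ q => pushes q + 1
  | .peek _ _ q => pushes q
  | .pop _ _ q => pushes q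
  | .load _ q => pushes q
  | .branch _ q₁ q₂ => pushes q₁ + pushes q₂
  | .goto _ => 0
  | .halt => 0

theorem stepAux_len (q : TM2.Stmt Γ Λ σ) : ∀ (v : σ) (S : ∀ k, List (Γ k)) (k : K),
    ((TM2.stepAux q v S).stk k).length ≤ (S k).length + pushes q := by
  induction q with
  | push k' f q ih =>
    intro v S k
    rw [TM2.stepAux]
    refine (ih _ _ k).trans ?_
    by_cases hk : k = k'
    · subst hk
      rw [Function.update_self, List.length_cons, pushes]
      omega
    · rw [Function.update_of_ne hk, pushes]
      omega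
  | peek k' f q ih =>
    intro v S k
    rw [TM2.stepAux]
    exact ih _ _ k
  | pop k' f q ih =>
    intro v S k
    rw [TM2.stepAux]
    refine (ih _ _ k).trans ?_
    by_cases hk : k = k'
    · subst hk
      rw [Function.update_self, List.length_tail, pushes]
      omega
    · rw [Function.update_of_ne hk, pushes]
  | load f q ih =>
    intro v S k
    rw [TM2.stepAux]
    exact ih _ _ k
  | branch f q₁ q₂ ih₁ ih₂ =>
    intro v S k
    rw [TM2.stepAux]
    cases f v
    · refine (ih₂ _ _ k).trans ?_
      rw [pushes]
      omega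
    · refine (ih₁ _ _ k).trans ?_
      rw [pushes]
      omega
  | goto f =>
    intro v S k
    rw [TM2.stepAux]
    exact Nat.le_add_right _ _
  | halt =>
    intro v S k
    rw [TM2.stepAux]
    exact Nat.le_add_right _ _

theorem step_len [Fintype Λ] (M : Λ → TM2.Stmt Γ Λ σ) (c c' : TM2.Cfg Γ Λ σ)
    (h : TM2.step M c = some c') (k : K) :
    (c'.stk k).length ≤ (c.stk k).length + ∑ l, pushes (M l) := by
  obtain ⟨l, v, S⟩ := c
  cases l with
  | none => exact absurd h (by simp [TM2.step])
  | some l =>
    simp only [TM2.step, Option.some.injEq] at h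
    rw [← h]
    refine (stepAux_len (M l) v S k).trans ?_
    have := Finset.single_le_sum (f := fun l => pushes (M l)) (fun _ _ => Nat.zero_le _)
      (Finset.mem_univ l)
    exact Nat.add_le_add_left this _

theorem iter_len [Fintype Λ] (M : Λ → TM2.Stmt Γ Λ σ) (c : TM2.Cfg Γ Λ σ) (k : K) (n : ℕ) :
    ∀ c' : TM2.Cfg Γ Λ σ, (flip bind (TM2.step M))^[n] (some c) = some c' →
      (c'.stk k).length ≤ (c.stk k).length + n * ∑ l, pushes (M l) := by
  induction n with
  | zero =>
    intro c' h
    rw [Function.iterate_zero_apply] at h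
    rw [Option.some.inj h]
    exact Nat.le_add_right _ _
  | succ n ih =>
    intro c' h
    rw [Function.iterate_succ_apply'] at h
    cases hc : (flip bind (TM2.step M))^[n] (some c) with
    | none =>
      rw [hc] at h
      exact absurd h (by simp [flip])
    | some c₁ =>
      rw [hc] at h
      have h1 : TM2.step M c₁ = some c' := h
      have h2 := step_len M c₁ c' h1 k
      have h3 := ih c₁ hc
      rw [Nat.succ_mul]
      omega

end

theorem init_len (tm : FinTM2) (s : List (tm.Γ tm.k₀)) (k : tm.K) :
    ((initList tm s).stk k).length ≤ s.length := by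
  unfold initList
  by_cases h : k = tm.k₀
  · subst h
    simp
  · simp [h]

theorem halt_len (tm : FinTM2) (s : List (tm.Γ tm.k₁)) :
    ((haltList tm s).stk tm.k₁).length = s.length := by
  unfold haltList
  simp

end OUTL_

open OUTL_ in
theorem p_OUTL : T_OUTL := by
  intro α β Γ Δ _ _ ea eb f ⟨T⟩
  let _ := T.tm.ΛFin
  let _ := T.tm.kDecidableEq
  obtain ⟨N, hN⟩ : ∃ N : ℕ, N = ∑ l, pushes (T.tm.m l) := ⟨_, rfl⟩
  refine ⟨Polynomial.X + T.time * Polynomial.C N, fun a => ?_⟩
  have h := T.outputsFun a
  have h1 := h.evals_in_steps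
  have h2 := iter_len T.tm.m (Turing.initList T.tm (List.map T.inputAlphabet.invFun (ea a)))
    T.tm.k₁ h.steps _ h1
  have h3 := h.steps_le_m
  have h4 := init_len T.tm (List.map T.inputAlphabet.invFun (ea a)) T.tm.k₁
  rw [halt_len, List.length_map, ← hN] at h2
  rw [List.length_map] at h4
  rw [Polynomial.eval_add, Polynomial.eval_X, Polynomial.eval_mul, Polynomial.eval_C]
  have h5 : h.steps * N ≤ T.time.eval (ea a).length * N := Nat.mul_le_mul_right _ h3
  omega

end Pool.Agent.RDS
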