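import Pool.Agent.RDS.Targets

set_option autoImplicit false

/-! # RDS: UPD, double counting of oracles -/

namespace Pool.Agent.RDS

namespace UPD_

open Classical in
theorem ncard_sum {α : Type} [Fintype α] (P : α → Prop) :
    {a | P a}.ncard = ∑ a, if P a then 1 else 0 := by
  rw [Set.ncard_eq_toFinset_card', Set.toFinset_ofPred, Finset.card_filter]

/-- the involution -/
def inv {ι : Type} [DecidableEq ι] {V : ι → Type} (i : ι) (p : (∀ j, V j) × V i) :
    (∀ j, V j) × V i := (Function.update p.1 i p.2, p.1 i)

theorem inv_inv {ι : Type} [DecidableEq ι] {V : ι → Type} (i : ι) (p : (∀ j, V j) × V i) :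
    inv i (inv i p) = p := by
  obtain ⟨ω, y⟩ := p
  simp only [inv, Function.update_self, Function.update_idem, Function.update_eq_self]

end UPD_

open UPD_ in
open Classical in
theorem p_UPD : T_UPD := by
  intro ι _ _ V _ i B
  have h1 : {ω | B ω}.ncard * Fintype.card (V i) =
      ∑ p : (∀ j, V j) × V i, if B p.1 then 1 else 0 := by
    rw [Fintype.sum_prod_type, ncard_sum, Finset.sum_mul]
    refine Finset.sum_congr rfl fun ω _ => ?_
    change _ = ∑ _y : V i, (if B ω then 1 else 0)
    rw [Finset.sum_const, Finset.card_univ, smul_eq_mul, mul_comm]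
  have h2 : ∑ ω : (∀ j, V j), {y : V i | B (Function.update ω i y)}.ncard =
      ∑ p : (∀ j, V j) × V i, if B (Function.update p.1 i p.2) then 1 else 0 := by
    rw [Fintype.sum_prod_type]
    exact Finset.sum_congr rfl fun ω _ => ncard_sum _
  rw [h1, h2]
  symm
  exact Fintype.sum_equiv ⟨inv i, inv i, inv_inv i, inv_inv i⟩ _ _ fun p => rfl

end Pool.Agent.RDS
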