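import Pool.Agent.RDS.Targets
import Pool.Agent.PT.Core

set_option autoImplicit false

/-!
# RDS, block MAIN: assembly of the main theorem
-/

namespace Pool.Agent.RDS

open Pool.Agent.DSR (Lang PolyTime encPair encBool Ans Letter encAns)
open Pool.Agent.PT (Dat PolyF Core)

namespace MAIN_

theorem cpoly : Countable (Polynomial ℕ) := by
  rw [← Cardinal.mk_le_aleph0_iff]
  refine Polynomial.cardinalMk_le_max.trans ?_
  simp

/-- a countable nonempty set of pairs can be enumerated -/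
theorem enum {α β : Type} (S : Set α) (hS : S.Countable) [Countable β] :
    {p : α × β | p.1 ∈ S}.Countable := by
  have h : {p : α × β | p.1 ∈ S} = S ×ˢ (Set.univ : Set β) := by
    ext p
    simp
  rw [h]
  exact hS.prod Set.countable_univ

theorem exE (hCTB : T_CTB) (hINE : T_INE) (hCNV : T_CNV) : ∃ E : ℕ → Ver,
    (∃ i, E i = (fun _ => Mv.out true, 0)) ∧
    (∀ v : Ver, PolyTime (encH encPair) (encMv encBool) v.1 → ∃ i, E i = v) := by
  have : Fact Core := ⟨Pool.Agent.PT.core⟩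
  have := cpoly
  have h1 : {v : Ver | PolyTime (encH encPair) (encMv encBool) v.1}.Countable :=
    enum _ (hCTB (encH encPair) (encMv encBool) (hINE.1 _ hINE.2.1))
  have h2 : PolyTime (encH encPair) (encMv encBool) (fun _ => Mv.out true) :=
    hCNV.1 (fun _ => (false, [], true)) (PolyF.const _)
  obtain ⟨E, hE⟩ := h1.exists_eq_range ⟨(fun _ => Mv.out true, 0), h2⟩
  refine ⟨E, ?_, fun v hv => ?_⟩
  · have : ((fun _ => Mv.out true, 0) : Ver) ∈ Set.range E := hE ▸ h2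
    exact this
  · have : v ∈ Set.range E := hE ▸ hv
    exact this

end MAIN_

open MAIN_ in
theorem p_MAIN (hCORE : T_CORE) (hPERS : T_PERS) (hGEN : T_GEN) (hKOK : T_KOK) (hINE : T_INE)
    (hCTB : T_CTB) (hALG : T_ALG) (hCNV : T_CNV) (hMEM : T_MEM) (hHRD : T_HRD) : T_MAIN := by
  obtain ⟨E, hE1, hE2⟩ := exE hCTB hINE hCNV
  have hK : KOk (KK E (UU E)) := hKOK E (UU E) hE1
  have := cpoly
  -- the algorithms
  have hT : {t : (Str × List Bool → Mv Ans) × (Polynomial ℕ × Polynomial ℕ) |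
      PolyTime (encH (id : Str → Str)) (encMv encAns) t.1}.Countable :=
    enum _ (hCTB (encH (id : Str → Str)) (encMv encAns) (hINE.1 _ hINE.2.2))
  obtain ⟨ν, hν⟩ := Set.countable_iff_exists_injOn.1 hT
  choose A hA using fun t : {t : (Str × List Bool → Mv Ans) × (Polynomial ℕ × Polynomial ℕ) |
      PolyTime (encH (id : Str → Str)) (encMv encAns) t.1} => hALG (UU E) t.1.1 t.1.2.1 t.2
  obtain ⟨R, hR, hS⟩ := hGEN (fun e R => ∀ t : {t : (Str × List Bool → Mv Ans) ×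
      (Polynomial ℕ × Polynomial ℕ) | PolyTime (encH (id : Str → Str)) (encMv encAns) t.1},
      ν t.1 = e → ¬ Corr (KK E (UU E)) (A t) t.1.2.2 R) (by
    intro e R₀ m₀ hR₀
    by_cases h : ∃ t : {t : (Str × List Bool → Mv Ans) × (Polynomial ℕ × Polynomial ℕ) |
      PolyTime (encH (id : Str → Str)) (encMv encAns) t.1}, ν t.1 = e
    · obtain ⟨t, ht⟩ := h
      have h1 := hCORE (KK E (UU E)) hK (A t) t.1.2.2 R₀ m₀ hR₀
      unfold HH at h1
      push Not at h1
      obtain ⟨R, hR, hRa, hRC⟩ := h1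
      obtain ⟨m, hm⟩ := hPERS (KK E (UU E)) hK (A t) t.1.2.2 R hR hRC
      refine ⟨R, m, hR, hRa, fun R' hR' hRR' t' ht' => ?_⟩
      have : t' = t := Subtype.ext (hν t'.2 t.2 (ht'.trans ht.symm))
      rw [this]
      exact hm R' hR' hRR'
    · exact ⟨R₀, 0, hR₀, fun u _ => rfl, fun R' _ _ t ht => absurd ⟨t, ht⟩ h⟩)
  refine ⟨orc (UU E) R, AA (KK E (UU E)) R, ⟨hMEM E R hR, hHRD E hE2 R hR⟩, ?_⟩
  rintro ⟨g, q, ⟨G₀, r, hG₀, hrun⟩, hright, hch⟩
  refine hS (ν (G₀, (r, q))) ⟨(G₀, (r, q)), hG₀⟩ rfl ?_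
  have hg : ∀ x, (A ⟨(G₀, (r, q)), hG₀⟩).g R x = some (g x) := fun x => by
    rw [hA ⟨(G₀, (r, q)), hG₀⟩ R x]
    exact hrun x
  refine ⟨fun x => ⟨g x, hg x, hright x⟩, fun c k hck => hch c k fun i hi => ?_⟩
  obtain ⟨l, hl, hm⟩ := hck i hi
  rw [hg] at hl
  exact ⟨l, Option.some_injective _ hl, hm⟩

end Pool.Agent.RDS
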