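import Pool.Agent.RDS.Defs
import Pool.Agent.DSR.Conv

set_option autoImplicit false

/-!
# RDS: the oracle, the complete set, and the abstract setting of the combinatorial part

The oracle has a fixed part `U` and a variable part `R`; `R` maps strings injectively to strings of
length `10 |u| + 1`. The complete set is the set of all `R ψ`, `ψ ∈ K R`, where `K R` is a
universal
set of the class NP relative to the oracle.
-/

namespace Pool.Agent.RDS

open Pool.Agent.DSR (Lang PolyTime encPair encBool Ans Letter encAns)

abbrev Str : Type := List Bool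

/-! ### The oracle -/

/-- the string `u` to which the question `0 v` refers: `v = 1^i 0 u` -/
def key (v : Str) : Str := (v.dropWhile id).tail

/-- the oracle: the question `0 1^i 0 u` asks for the bit number `i` of `R u`, the question `1 v`
is
answered by `U v` -/
def orc (U : Str → Bool) (R : Str → Str) : Orc
  | [] => false
  | true :: v => U v
  | false :: v => (R (key v)).getD (v.takeWhile id).length false

/-- the question for the bit number `i` of `R u` -/
def qst (i : ℕ) (u : Str) : Str := false :: (List.replicate i true ++ false :: u)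

/-! ### The universal set -/

/-- a verifier: an algorithm with oracle, and a bound for the length of the witness -/
abbrev Ver : Type := ((Str × Str) × List Bool → Mv Bool) × Polynomial ℕ

/-- the instance `1^i 0 1^t 0 x`: verifier number `i`, bound `t`, input `x` -/
def ins (i t : ℕ) (x : Str) : Str :=
  List.replicate i true ++ false :: (List.replicate t true ++ false :: x)

/-- `vs` are the questions and `bs` the answers of an accepting computation of the verifier `v` at
the input `x` with the witness `w` -/
def Tran (v : Ver) (x w : Str) (vs : List Str) (bs : List Bool) : Prop :=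
  w.length ≤ v.2.eval x.length ∧ bs.length = vs.length ∧
    (∀ j (h : j < vs.length), v.1 ((x, w), bs.take j) = .ask vs[j]) ∧ v.1 ((x, w), bs) = .out true

/-- the same for the instance `ψ` -/
def Chk (E : ℕ → Ver) (ψ w : Str) (vs : List Str) (bs : List Bool) : Prop :=
  ∃ (i t : ℕ) (x : Str), ψ = ins i t x ∧ Tran (E i) x w vs bs

/-- the size of a computation -/
def tsz (w : Str) (vs : List Str) : ℕ := w.length + (vs.map fun v => v.length + 1).sum

/-- the universal set -/
def KK (E : ℕ → Ver) (U : Str → Bool) (R : Str → Str) : Set Str :=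
  {ψ | ∃ (w : Str) (vs : List Str), tsz w vs ≤ ψ.length ∧ Chk E ψ w vs (vs.map (orc U R))}

/-- the code of the data of a check -/
def cde (p : Str × Str × List Str × List Bool) : Str := Pool.Agent.DSR.cod (Pool.Agent.PT.Dat.enc p)

open Classical in
/-- the fixed part of the oracle -/
noncomputable def UU (E : ℕ → Ver) (v : Str) : Bool :=
  decide (∃ p : Str × Str × List Str × List Bool, cde p = v ∧ Chk E p.1 p.2.1 p.2.2.1 p.2.2.2)

/-! ### The abstract setting -/

/-- injective functions with `|R u| = 10 |u| + 1` -/
structure Reg (R : Str → Str) : Prop where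
  inj : Function.Injective R
  len : ∀ u, (R u).length = 10 * u.length + 1

/-- `R` and `R'` agree at all strings shorter than `m` -/
def Agr (m : ℕ) (R R' : Str → Str) : Prop := ∀ u : Str, u.length < m → R u = R' u

/-- the complete set -/
def AA (K : (Str → Str) → Set Str) (R : Str → Str) : Lang := {z | ∃ ψ ∈ K R, R ψ = z}

/-- what is used about the universal set -/
structure KOk (K : (Str → Str) → Set Str) : Prop where
  loc : ∀ (R R' : Str → Str) (ψ : Str), Agr ψ.length R R' → (ψ ∈ K R ↔ ψ ∈ K R')
  many : ∃ c : ℕ, ∀ m, c ≤ m → ∃ W : Finset Str, 2 ^ (m - c) ≤ W.card ∧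
    ∀ w ∈ W, w.length = m ∧ ∀ R, w ∈ K R

/-- what is used about algorithms: `g R x` is the value, `T R x` the set of the strings `u` such
that a question about `R u` is asked, `P` bounds the number of questions and the length of the
list -/
structure Alg where
  g : (Str → Str) → Str → Option Ans
  T : (Str → Str) → Str → Finset Str
  P : Polynomial ℕ
  loc : ∀ (R R' : Str → Str) (y : Str), (∀ u ∈ T R y, R u = R' u) → g R' y = g R y ∧ T R' y = T R y
  cardT : ∀ R y, (T R y).card ≤ P.eval y.length
  kids : ∀ R y l, g R y = some (.ask l) → l.length ≤ P.eval y.length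

/-- `y` is in the list which is the value at `x` -/
def Kid (G : Alg) (R : Str → Str) (x y : Str) : Prop := ∃ l, G.g R x = some (.ask l) ∧ y ∈ l

/-- chains -/
def Chn (G : Alg) (R : Str → Str) (c : ℕ → Str) (k : ℕ) : Prop := ∀ i < k, Kid G R (c i) (c (i + 1))

/-- the algorithm `G` with the bound `q` for the chains is a self-reduction for the oracle `R` -/
def Corr (K : (Str → Str) → Set Str) (G : Alg) (q : Polynomial ℕ) (R : Str → Str) : Prop :=
  (∀ x, ∃ a, G.g R x = some a ∧ Right (AA K R) x a) ∧
  ∀ (c : ℕ → Str) (k : ℕ), Chn G R c k → k ≤ q.eval (c 0).length ∧ (c k).length ≤ q.eval (c 0).length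

/-- the hypothesis which will be refuted -/
def HH (K : (Str → Str) → Set Str) (G : Alg) (q : Polynomial ℕ) (R₀ : Str → Str) (m₀ : ℕ) : Prop :=
  ∀ R, Reg R → Agr m₀ R₀ R → Corr K G q R

/-- the change of one value -/
def up (R : Str → Str) (w z : Str) : Str → Str := Function.update R w z

theorem up_self (R : Str → Str) (w z : Str) : up R w z w = z := Function.update_self _ _ _

theorem up_ne (R : Str → Str) {w u : Str} (z : Str) (h : u ≠ w) : up R w z u = R u :=
  Function.update_of_ne h _ _

theorem up_reg {R : Str → Str} (hR : Reg R) {w z : Str} (hz : z.length = 10 * w.length + 1)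
    (h : ∀ u, u ≠ w → R u ≠ z) : Reg (up R w z) := by
  refine ⟨fun u v huv => ?_, fun u => ?_⟩
  · by_cases hu : u = w
    · by_cases hv : v = w
      · rw [hu, hv]
      · rw [hu, up_self, up_ne R z hv] at huv
        exact absurd huv.symm (h v hv)
    · by_cases hv : v = w
      · rw [hv, up_self, up_ne R z hu] at huv
        exact absurd huv (h u hu)
      · rw [up_ne R z hu, up_ne R z hv] at huv
        exact hR.inj huv
  · by_cases hu : u = w
    · rw [hu, up_self, hz]
    · rw [up_ne R z hu, hR.len]

theorem up_agr (R : Str → Str) {w : Str} (z : Str) {m : ℕ} (h : m ≤ w.length) :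
    Agr m R (up R w z) := by
  intro u hu
  rw [up_ne]
  rintro rfl
  omega

/-! ### Variable oracles -/

/-- the strings of the lengths `m + 1, ..., N` -/
noncomputable def FF (m N : ℕ) : Finset Str :=
  (List.finite_length_le Bool N).toFinset.filter fun u => m < u.length

theorem mem_FF {m N : ℕ} {u : Str} : u ∈ FF m N ↔ m < u.length ∧ u.length ≤ N := by
  unfold FF
  rw [Finset.mem_filter, Set.Finite.mem_toFinset]
  exact ⟨fun h => ⟨h.2, h.1⟩, fun h => ⟨h.2, h.1⟩⟩

/-- the values at these strings -/
abbrev Om (m N : ℕ) : Type := (u : {u : Str // u ∈ FF m N}) → List.Vector Bool (10 * u.1.length + 1)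

/-- the oracle with these values; outside it is `R₀` -/
noncomputable def ex (R₀ : Str → Str) {m N : ℕ} (ω : Om m N) (u : Str) : Str :=
  if h : u ∈ FF m N then (ω ⟨u, h⟩).toList else R₀ u

/-- the bad event: the algorithm at `R ψ` asks neither about `ψ` nor about `w`, and its value is a
list which contains `R ψ'` for some short `ψ'` which is in the universal set when the value at `w`
is changed to `z` -/
def Bad (K : (Str → Str) → Set Str) (G : Alg) (R : Str → Str) (w z ψ : Str) : Prop :=
  Reg R ∧ w ∉ G.T R (R ψ) ∧ ψ ∉ G.T R (R ψ) ∧ ∃ l, G.g R (R ψ) = some (.ask l) ∧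
    ∃ ψ' : Str, ψ' ≠ ψ ∧ ψ' ≠ w ∧ ψ'.length < 2 * ψ.length ∧ R ψ' ∈ l ∧ ψ' ∈ K (up R w z)

/-- no question about `w` at the members of the chains of length at most `D` which start at `z` -/
def Unt (G : Alg) (R : Str → Str) (w z : Str) (D : ℕ) : Prop :=
  ∀ (c : ℕ → Str) (k : ℕ), k ≤ D → c 0 = z → Chn G R c k → w ∉ G.T R (c k)

end Pool.Agent.RDS
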