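import Pool.Agent.DSR.Defs

set_option autoImplicit false

/-!
# Disjunctive self-reducibility relative to an oracle: all definitions used in the main statement

Languages, encodings and (ordinary) polynomial time are those of `Pool.Agent.DSR.Defs`. An
algorithm
with an oracle is a polynomial time function which sees the input and the answers that the oracle
has
given so far, and either asks the next question or gives the result; it must come to a result after
polynomially many questions.
-/

namespace Pool.Agent.RDS

open Pool.Agent.DSR (Lang PolyTime encPair encBool Ans Letter encAns)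

/-- An oracle answers questions, which are strings, by a bit. -/
abbrev Orc : Type := List Bool → Bool

/-- A move of an algorithm with an oracle: a question, or the result. -/
inductive Mv (β : Type)
  | ask (v : List Bool)
  | out (b : β)

/-- The moves as words: a question `v` is written `? v`, the result `b` as the word `eb b`. -/
def encMv {β Δ : Type} (eb : β → List Δ) : Mv β → List (Option Bool ⊕ Δ)
  | .ask v => Sum.inl none :: v.map fun b => Sum.inl (some b)
  | .out b => (eb b).map Sum.inr

/-- The input `a` together with the answers that were given so far. -/
def encH {α Γ : Type} (ea : α → List Γ) (p : α × List Bool) : List (Γ ⊕ Bool) :=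
  (ea p.1).map Sum.inl ++ p.2.map Sum.inr

/-- The result of the algorithm `G` at the input `a` with the oracle `O`, if it comes within `n`
moves after the answers `h`. -/
def run {α β : Type} (O : Orc) (G : α × List Bool → Mv β) (a : α) : ℕ → List Bool → Option β
  | 0, _ => none
  | n + 1, h => match G (a, h) with
    | .out b => some b
    | .ask v => run O G a n (h ++ [O v])

/-- `f` is computed in polynomial time with the oracle `O`. -/
def OTime {α β Γ Δ : Type} (O : Orc) (ea : α → List Γ) (eb : β → List Δ) (f : α → β) : Prop :=
  ∃ (G : α × List Bool → Mv β) (r : Polynomial ℕ), PolyTime (encH ea) (encMv eb) G ∧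
    ∀ a, run O G a (r.eval (ea a).length) [] = some (f a)

/-- The class NP relative to `O`. -/
def InNPO (O : Orc) (L : Lang) : Prop :=
  ∃ (q : Polynomial ℕ) (V : List Bool × List Bool → Bool), OTime O encPair encBool V ∧
    ∀ x, x ∈ L ↔ ∃ w : List Bool, w.length ≤ q.eval x.length ∧ V (x, w) = true

/-- Many-one reducibility in polynomial time relative to `O`. -/
def ReducesO (O : Orc) (A B : Lang) : Prop :=
  ∃ f : List Bool → List Bool, OTime O id id f ∧ ∀ x, x ∈ A ↔ f x ∈ B

/-- NP-complete sets relative to `O`. -/
def NPCompleteO (O : Orc) (A : Lang) : Prop := InNPO O A ∧ ∀ B : Lang, InNPO O B → ReducesO O B A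

/-- The condition on the value of `g` at `x`: `x ∈ A` iff the value is ACCEPT or a list with a
member in `A`. (There is no condition on the lengths of the members.) -/
def Right (A : Lang) (x : List Bool) : Ans → Prop
  | .accept => x ∈ A
  | .reject => x ∉ A
  | .ask l => x ∈ A ↔ ∃ y ∈ l, y ∈ A

/-- `c 0, c 1, ..., c k` is a chain: `g (c i)` is a list which contains `c (i + 1)`. -/
def Chain (g : List Bool → Ans) (c : ℕ → List Bool) (k : ℕ) : Prop :=
  ∀ i < k, ∃ l, g (c i) = .ask l ∧ c (i + 1) ∈ l

/-- Disjunctive self-reducibility relative to `O` in the general sense: the lengths of the chains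
which start at `x`, and the lengths of the strings in these chains, are bounded by a polynomial in
the length of `x`. -/
def GenSelfRed (O : Orc) (A : Lang) : Prop :=
  ∃ (g : List Bool → Ans) (q : Polynomial ℕ), OTime O id encAns g ∧ (∀ x, Right A x (g x)) ∧
    ∀ (c : ℕ → List Bool) (k : ℕ), Chain g c k →
      k ≤ q.eval (c 0).length ∧ (c k).length ≤ q.eval (c 0).length

end Pool.Agent.RDS
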