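import Pool.Agent.RDS.Targets

set_option autoImplicit false

/-!
# BADC: few oracles with a bad value
-/

namespace Pool.Agent.RDS

namespace BADC_

theorem ex_mem (R₀ : Str → Str) {m N : ℕ} (ω : Om m N) {u : Str} (h : u ∈ FF m N) :
    ex R₀ ω u = (ω ⟨u, h⟩).toList := by
  unfold ex
  rw [dif_pos h]

theorem ex_not (R₀ : Str → Str) {m N : ℕ} (ω : Om m N) {u : Str} (h : u ∉ FF m N) :
    ex R₀ ω u = R₀ u := by
  unfold ex
  rw [dif_neg h]

theorem ex_update (R₀ : Str → Str) {m N : ℕ} (ω : Om m N) {ψ : Str} (h : ψ ∈ FF m N)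
    (y : List.Vector Bool (10 * ψ.length + 1)) :
    ex R₀ (Function.update ω ⟨ψ, h⟩ y : Om m N) = up (ex R₀ ω) ψ y.toList := by
  funext u
  by_cases hu : u = ψ
  · subst hu
    rw [up_self, ex_mem R₀ _ h, Function.update_self]
  · rw [up_ne _ _ hu]
    by_cases hm : u ∈ FF m N
    · rw [ex_mem R₀ _ hm, ex_mem R₀ _ hm, Function.update_of_ne]
      intro he
      exact hu (congrArg Subtype.val he)
    · rw [ex_not R₀ _ hm, ex_not R₀ _ hm]

end BADC_

open BADC_ in
theorem p_BADC (h1 : T_UPD) (h2 : T_BADI) : T_BADC := by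
  intro K G q R₀ m₀ hH hR m N w z ψ hm hw hz hne hψ
  have hlen := mem_FF.1 hψ
  have hU := h1 {u : Str // u ∈ FF m N} (fun u => List.Vector Bool (10 * u.1.length + 1))
    ⟨ψ, hψ⟩ (fun ω => Bad K G (ex R₀ ω) w z ψ)
  have hsum : ∑ ω : Om m N, {y : List.Vector Bool (10 * ψ.length + 1) |
      Bad K G (ex R₀ (Function.update ω ⟨ψ, hψ⟩ y : Om m N)) w z ψ}.ncard ≤
      ∑ _ω : Om m N, 2 ^ (2 * ψ.length) := by
    refine Finset.sum_le_sum fun ω _ => ?_
    have hA : Agr m₀ R₀ (ex R₀ ω) := by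
      intro u hu
      rw [ex_not]
      intro h
      have := (mem_FF.1 h).1
      omega
    have hZ : ∀ u, ex R₀ ω u ≠ z := by
      intro u
      by_cases h : u ∈ FF m N
      · intro he
        rw [ex_mem R₀ ω h] at he
        have h3 := congrArg List.length he
        rw [List.Vector.toList_length] at h3
        have h4 := (mem_FF.1 h).1
        simp only at h3
        omega
      · rw [ex_not R₀ ω h]
        exact hne u
    have hB := h2 K G q R₀ m₀ hH (ex R₀ ω) w z ψ hA (by omega) (by omega) (by rw [hw, hz]) hZ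
    simp only [ex_update]
    exact hB
  rw [Finset.sum_const, Finset.card_univ, smul_eq_mul] at hsum
  have hc : Fintype.card (List.Vector Bool (10 * ψ.length + 1)) = 2 ^ (10 * ψ.length + 1) := by
    rw [card_vector, Fintype.card_bool]
  have hU' : {ω : Om m N | Bad K G (ex R₀ ω) w z ψ}.ncard * 2 ^ (10 * ψ.length + 1) ≤
      Fintype.card (Om m N) * 2 ^ (2 * ψ.length) := by
    rw [← hc]
    exact hU.le.trans hsum
  have hp : (2 : ℕ) ^ (10 * ψ.length + 1) = 2 ^ (8 * ψ.length) * 2 * 2 ^ (2 * ψ.length) := by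
    rw [← pow_succ, ← pow_add]
    congr 1
    omega
  rw [hp, ← mul_assoc] at hU'
  have h5 := Nat.le_of_mul_le_mul_right hU' (by positivity)
  calc _ ≤ {ω : Om m N | Bad K G (ex R₀ ω) w z ψ}.ncard * (2 ^ (8 * ψ.length) * 2) :=
        Nat.mul_le_mul_left _ (Nat.le_mul_of_pos_right _ (by norm_num))
    _ ≤ _ := h5

end Pool.Agent.RDS
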