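import Pool.Agent.RDS.Targets

set_option autoImplicit false

/-!
# RDS, target BADI: few bad values at one string
-/

namespace Pool.Agent.RDS

open Pool.Agent.DSR (Lang PolyTime encPair encBool Ans Letter encAns)

namespace BADI_

/-- a string shorter than `n` as a string of length `n` -/
def pad (n : ℕ) (u : Str) : Str := List.replicate (n - 1 - u.length) false ++ true :: u

theorem pad_length {n : ℕ} {u : Str} (h : u.length < n) : (pad n u).length = n := by
  unfold pad
  rw [List.length_append, List.length_replicate, List.length_cons]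
  omega

theorem aux_inj : ∀ (a b : ℕ) (u v : Str),
    List.replicate a false ++ true :: u = List.replicate b false ++ true :: v → u = v := by
  intro a
  induction a with
  | zero =>
    intro b u v h
    cases b with
    | zero => simpa using h
    | succ b => simp [List.replicate_succ] at h
  | succ a ih =>
    intro b u v h
    cases b with
    | zero => simp [List.replicate_succ] at h
    | succ b =>
      refine ih b u v ?_
      simpa [List.replicate_succ] using h

theorem pad_inj {n : ℕ} {u v : Str} (h : pad n u = pad n v) : u = v := aux_inj _ _ _ _ h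

theorem card_le {α : Type} (n : ℕ) (Y : Set α) (r : α → Str → Prop)
    (h1 : ∀ y ∈ Y, ∃ u : Str, u.length < n ∧ r y u)
    (h2 : ∀ y ∈ Y, ∀ y' ∈ Y, ∀ u, r y u → r y' u → y = y') : Y.ncard ≤ 2 ^ n := by
  choose f hf using h1
  have hinj : Function.Injective (fun y : Y =>
      (⟨pad n (f y.1 y.2), pad_length (hf y.1 y.2).1⟩ : List.Vector Bool n)) := by
    intro y y' h
    have h3 : pad n (f y.1 y.2) = pad n (f y'.1 y'.2) := congrArg Subtype.val h
    have h4 := pad_inj h3
    refine Subtype.ext (h2 y.1 y.2 y'.1 y'.2 (f y.1 y.2) (hf y.1 y.2).2 ?_)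
    rw [h4]
    exact (hf y'.1 y'.2).2
  have h5 : Nat.card Y ≤ Nat.card (List.Vector Bool n) :=
    Nat.card_le_card_of_injective _ hinj
  rw [Nat.card_coe_set_eq, Nat.card_eq_fintype_card, card_vector, Fintype.card_bool] at h5
  exact h5

end BADI_

open BADI_ in
theorem p_BADI : T_BADI := by
  intro K G q R₀ m₀ hHH R w z ψ hA hw hwψ hz hzR
  have hψw : ψ ≠ w := by
    rintro rfl
    omega
  refine card_le (2 * ψ.length) _ (fun y u => u ≠ ψ ∧ u ≠ w ∧
    (∃ l, G.g (up R ψ y.toList) (up R ψ y.toList ψ) = some (.ask l) ∧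
      up R ψ y.toList u ∈ l) ∧ u ∈ K (up (up R ψ y.toList) w z)) ?_ ?_
  · rintro y ⟨-, -, -, l, hl, u, h1, h2, h3, h4, h5⟩
    exact ⟨u, h3, h1, h2, ⟨l, hl, h4⟩, h5⟩
  · rintro y ⟨hR1, -, -, -⟩ y' ⟨hR2, hw2, hψ2, -⟩ u ⟨hu1, hu2, -, hu3⟩ ⟨-, -, ⟨l, hl, hul⟩, -⟩
    by_contra hne
    have ly : y.toList.length = 10 * ψ.length + 1 := y.toList_length
    have ly' : y'.toList.length = 10 * ψ.length + 1 := y'.toList_length
    rw [up_self] at hw2 hψ2 hl
    obtain ⟨Q, hQ⟩ : ∃ Q, Q = up (up R ψ y.toList) w z := ⟨_, rfl⟩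
    rw [← hQ] at hu3
    have Qw : Q w = z := by rw [hQ, up_self]
    have Qψ : Q ψ = y.toList := by rw [hQ, up_ne _ _ hψw, up_self]
    have Qe : ∀ x, x ≠ w → x ≠ ψ → Q x = R x := fun x h1 h2 => by
      rw [hQ, up_ne _ _ h1, up_ne _ _ h2]
    have Qreg : Reg Q := by
      rw [hQ]
      refine up_reg hR1 hz fun x hx => ?_
      by_cases hxψ : x = ψ
      · rw [hxψ, up_self]
        intro h
        rw [h] at ly
        omega
      · rw [up_ne _ _ hxψ]
        exact hzR x
    have Qagr : Agr m₀ R₀ Q := by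
      intro x hx
      rw [Qe x (by rintro rfl; omega) (by rintro rfl; omega)]
      exact hA x hx
    obtain ⟨a, ha, hright⟩ := (hHH Q Qreg Qagr).1 y'.toList
    have hloc := (G.loc (up R ψ y'.toList) Q y'.toList fun x hx => by
      have h1 : x ≠ ψ := by
        rintro rfl
        exact hψ2 hx
      have h2 : x ≠ w := by
        rintro rfl
        exact hw2 hx
      rw [Qe x h2 h1, up_ne _ _ h1]).1
    rw [hloc, hl] at ha
    have ha' : a = .ask l := (Option.some.inj ha).symm
    rw [ha'] at hright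
    have hmem : y'.toList ∈ AA K Q := by
      refine hright.2 ⟨up R ψ y'.toList u, hul, u, hu3, ?_⟩
      rw [Qe u hu2 hu1, up_ne _ _ hu1]
    obtain ⟨v, -, hv⟩ := hmem
    by_cases hvw : v = w
    · rw [hvw, Qw] at hv
      rw [hv] at hz
      omega
    · by_cases hvψ : v = ψ
      · rw [hvψ, Qψ] at hv
        exact hne (List.Vector.eq _ _ hv)
      · rw [Qe v hvw hvψ] at hv
        have h1 : up R ψ y'.toList v = up R ψ y'.toList ψ := by
          rw [up_ne _ _ hvψ, up_self, hv]
        exact hvψ (hR2.inj h1)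

end Pool.Agent.RDS
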