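import Pool.Agent.RDS.Targets

set_option autoImplicit false

/-!
# RDS, block CORE: the hypothesis HH is refuted (assembly)
-/

namespace Pool.Agent.RDS

namespace CORE_

/-- the numerical estimate -/
theorem num (s c m a b : ℕ) (h : s * s + 6 * s + c + 8 ≤ m) (ha : a = 2 ^ (2 * s + 1) + 1)
    (hb : 2 ^ (m - c) ≤ b) : a * ((s + 2 + 1) * 2 ^ (s * (s + 2 + 1))) < b := by
  have h1 : a ≤ 2 ^ (2 * s + 2) := by
    have : 1 ≤ 2 ^ (2 * s + 1) := Nat.one_le_two_pow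
    have h2 : 2 ^ (2 * s + 2) = 2 ^ (2 * s + 1) * 2 := by rw [← pow_succ]
    omega
  have h3 : s + 2 + 1 ≤ 2 ^ (s + 2) := (s + 2).lt_two_pow_self
  have h4 : a * ((s + 2 + 1) * 2 ^ (s * (s + 2 + 1))) ≤
      2 ^ (2 * s + 2) * (2 ^ (s + 2) * 2 ^ (s * (s + 2 + 1))) :=
    Nat.mul_le_mul h1 (Nat.mul_le_mul_right _ h3)
  refine lt_of_le_of_lt h4 (lt_of_lt_of_le ?_ hb)
  rw [← pow_add, ← pow_add]
  apply Nat.pow_lt_pow_right (by norm_num)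
  have h5 : s * (s + 2 + 1) = s * s + 3 * s := by ring
  rw [h5]
  omega

end CORE_

open CORE_ in
theorem p_CORE (hGOOD : T_GOOD) (hTRE : T_TRE) (hCHN : T_CHN) (hPRV : T_PRV) (hDBL : T_DBL)
    (hZEX : T_ZEX) (hASY : T_ASY) : T_CORE := by
  intro K hK G q R₀ m₀ hR₀ H
  obtain ⟨c, hc⟩ := hK.many
  obtain ⟨m, s, hm₀, hm1, hcm, hq, hP, hs⟩ := hASY G.P q c m₀
  obtain ⟨W, hW, hW'⟩ := hc m hcm
  have hle : 2 ^ (2 * s + 1) + 1 ≤ 2 ^ (2 * s + 2) := by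
    have : 1 ≤ 2 ^ (2 * s + 1) := Nat.one_le_two_pow
    have h2 : 2 ^ (2 * s + 2) = 2 ^ (2 * s + 1) * 2 := by rw [← pow_succ]
    omega
  obtain ⟨Z, hZ, hZ'⟩ := hZEX R₀ m (2 ^ (2 * s + 1) + 1) hR₀ (by
    have h1 : 2 ^ (2 * s + 2) ≤ 2 ^ m := Nat.pow_le_pow_right (by norm_num) (by nlinarith)
    have h2 : 2 ^ (m + 1) ≤ 2 ^ (10 * m + 1) := Nat.pow_le_pow_right (by norm_num) (by omega)
    have h3 : 2 ^ (m + 1) = 2 ^ m * 2 := by rw [← pow_succ]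
    omega)
  obtain ⟨R, hR, hRa, hRZ, hinv, hbad⟩ := hGOOD K G q R₀ m₀ H hR₀ m (q.eval (10 * m + 1)) s W Z
    hm₀ hm1 hq (by nlinarith) hP (fun w hw => (hW' w hw).1) (by rw [hZ]; exact hle) hZ'
  have hRa₀ : Agr m₀ R₀ R := fun u hu => hRa u (by omega)
  have hC : Corr K G q R := H R hR hRa₀
  obtain ⟨w, hw, hU⟩ := hTRE G R q (q.eval (10 * m + 1)) s (s + 2) W Z
    (fun c k h => (hC.2 c k h).2) (fun z hz => by rw [(hZ' z hz).1]) hP
    (num s c m Z.card W.card hs hZ hW)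
  have hwm : w.length = m := (hW' w hw).1
  have hRC : ∀ z ∈ Z, Corr K G q (up R w z) := fun z hz =>
    H _ (up_reg hR (by rw [hwm, (hZ' z hz).1]) fun u _ => hRZ z hz u)
      fun u hu => (hRa₀ u hu).trans (up_agr R z (by omega : m₀ ≤ w.length) u hu)
  have key : ∀ z ∈ Z, ∃ ψ : Str, (ψ ∈ FF m (q.eval (10 * m + 1)) ∧ ψ ∈ G.T R (R ψ)) ∧
      R ψ ∈ AA K (up R w z) ∧
      ∃ (c : ℕ → Str) (k : ℕ), k ≤ s + 2 ∧ c 0 = z ∧ Chn G R c k ∧ c k = R ψ := by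
    intro z hz
    obtain ⟨c, hc0, hch, hcA⟩ := hCHN K G q R w z (s + 2) hC (hRC z hz)
      (by rintro ⟨ψ, -, h⟩; exact hRZ z hz ψ h) ⟨w, (hW' w hw).2 _, up_self R w z⟩ (hU z hz)
    obtain ⟨i, hi1, hiD, ψ, hψ, hψ', hψT⟩ := hDBL K hK G q R w z (s + 2)
      (q.eval (10 * m + 1)) hR hC (by rw [(hZ' z hz).1]) (by omega)
      (lt_of_le_of_lt hq (Nat.pow_lt_pow_right (by norm_num) (by omega))) c hc0 hch hcA (hU z hz)
      (by rw [hwm]; exact hbad w hw z hz)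
    rw [hwm] at hψ
    exact ⟨ψ, ⟨hψ, hψT⟩, by rw [hψ']; exact (hcA i hiD).1, c, i, hiD, hc0,
      fun j hj => hch j (by omega), hψ'.symm⟩
  choose! φ hφ using key
  have hinj : Set.InjOn φ (Z : Set Str) := by
    intro z hz z' hz' h
    by_contra hne
    obtain ⟨c, k, hk, hc0, hch, hck⟩ := (hφ z' hz').2.2
    refine hPRV K G q R w z z' (s + 2) (hRC z hz) (fun u hu => ?_) (hU z' hz') c k hk hc0 hch ?_
    · by_cases huw : u = w
      · rw [huw, up_self] at hu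
        exact hne hu
      · rw [up_ne R z huw] at hu
        exact hRZ z' hz' u hu
    · rw [hck, ← h]
      exact (hφ z hz).2.1
  have hfin : {ψ | ψ ∈ FF m (q.eval (10 * m + 1)) ∧ ψ ∈ G.T R (R ψ)}.Finite :=
    (FF m (q.eval (10 * m + 1))).finite_toSet.subset fun ψ h => h.1
  have := Set.ncard_le_ncard_of_injOn φ (fun z hz => (hφ z hz).1) hinj hfin
  rw [Set.ncard_coe_finset, hZ] at this
  omega

end Pool.Agent.RDS
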