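import Pool.Agent.RDS.Targets

set_option autoImplicit false

/-!
# RDS, target DBL: doubling
-/

namespace Pool.Agent.RDS

open Pool.Agent.DSR (Lang PolyTime encPair encBool Ans Letter encAns)

theorem p_DBL (h1 : T_PRE) (h2 : T_RNK) : T_DBL := by
  intro K hK G q R w z D N hReg hC hN hD hlt c hc0 hc hAA hU hBad
  by_contra hcon
  have hcon' : ∀ i, 1 ≤ i → i ≤ D → ∀ ψ ∈ FF w.length N, R ψ = c i → ψ ∉ G.T R (R ψ) := by
    intro i hi1 hiD ψ hψ hR hT
    exact hcon ⟨i, hi1, hiD, ψ, hψ, hR, hT⟩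
  have hchn : ∀ i, i ≤ D → Chn G R c i := fun i hi j hj => hc j (lt_of_lt_of_le hj hi)
  have hne : ∀ i j, i < j → j ≤ D → c i ≠ c j :=
    h2 G R q (fun c k h => (hC.2 c k h).1) c D hc
  have hex : ∀ i, 1 ≤ i → i ≤ D → ∃ ψ : Str, R ψ = c i ∧ ψ ≠ w ∧ ψ ∈ K (up R w z) ∧
      w.length < ψ.length := by
    intro i hi1 hiD
    refine h1 K hK R w z (c i) (hAA i hiD).1 (hAA i hiD).2 ?_
    rw [← hc0]
    exact (hne 0 i (by omega) hiD).symm
  choose! ψ hψ using hex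
  have hFF : ∀ i, 1 ≤ i → i ≤ D → ψ i ∈ FF w.length N := by
    intro i hi1 hiD
    obtain ⟨e1, -, -, e2⟩ := hψ i hi1 hiD
    have h3 := (hC.2 c i (hchn i hiD)).2
    rw [← e1, hReg.len, hc0, hN] at h3
    exact mem_FF.2 ⟨e2, by omega⟩
  have hdbl : ∀ i, 1 ≤ i → i < D → 2 * (ψ i).length ≤ (ψ (i + 1)).length := by
    intro i hi1 hiD
    obtain ⟨e1, e2, e3, e4⟩ := hψ i hi1 hiD.le
    obtain ⟨f1, f2, f3, f4⟩ := hψ (i + 1) (by omega) hiD
    obtain ⟨l, hl, hmem⟩ := hc i hiD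
    by_contra hcon2
    refine hBad (ψ i) (hFF i hi1 hiD.le) ⟨hReg, ?_, hcon' i hi1 hiD.le _ (hFF i hi1 hiD.le) e1, l,
      by rw [e1]; exact hl, ψ (i + 1), ?_, f2, by omega, by rw [f1]; exact hmem, f3⟩
    · rw [e1]
      exact hU c i hiD.le hc0 (hchn i hiD.le)
    · intro h
      refine hne i (i + 1) (by omega) hiD ?_
      rw [← e1, ← f1, h]
  have hpow : ∀ j, j + 1 ≤ D → 2 ^ j ≤ (ψ (j + 1)).length := by
    intro j
    induction j with
    | zero =>
      intro hj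
      have h3 := (hψ (0 + 1) (by omega) hj).2.2.2
      rw [pow_zero]
      omega
    | succ j ih =>
      intro hj
      have h3 := ih (by omega)
      have h4 := hdbl (j + 1) (by omega) (by omega)
      rw [pow_succ]
      omega
  have h5 := hpow (D - 1) (by omega)
  rw [Nat.sub_add_cancel hD] at h5
  have h6 := (mem_FF.1 (hFF D hD le_rfl)).2
  omega

end Pool.Agent.RDS
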