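import Pool.Agent.RDS.Targets

set_option autoImplicit false

/-!
# RDS, target GOOD: the union bound, a good oracle
-/

namespace Pool.Agent.RDS

open Pool.Agent.DSR (Lang PolyTime encPair encBool Ans Letter encAns)

namespace GOOD_

theorem ncard_univ {α : Type*} [Fintype α] (p : α → Prop) [DecidablePred p] :
    {ω | p ω}.ncard = (Finset.univ.filter p).card := by
  rw [← Set.ncard_coe_finset]
  congr 1
  ext ω
  simp

theorem ncard_fin {α : Type*} (s : Finset α) (p : α → Prop) [DecidablePred p] :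
    {ψ | ψ ∈ s ∧ p ψ}.ncard = (s.filter p).card := by
  rw [← Set.ncard_coe_finset]
  congr 1
  ext ψ
  simp

/-- Markov's inequality -/
theorem markov {Ω Ψ : Type*} [Fintype Ω] (F : Finset Ψ) (p : Ω → Ψ → Prop) (a C : ℕ)
    (ha : 0 < a) (h : ∑ ψ ∈ F, {ω | p ω ψ}.ncard ≤ a * C) :
    {ω | 2 * a < {ψ | ψ ∈ F ∧ p ω ψ}.ncard}.ncard * 2 ≤ C := by
  classical
  rw [ncard_univ]
  simp only [ncard_univ] at h
  simp only [ncard_fin]
  set B := Finset.univ.filter fun ω => 2 * a < (F.filter (p ω)).card with hB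
  have e1 : ∑ ω ∈ B, 2 * a ≤ ∑ ω ∈ B, (F.filter (p ω)).card :=
    Finset.sum_le_sum fun ω hω => ((Finset.mem_filter.1 hω).2).le
  have e2 : ∑ ω ∈ B, (F.filter (p ω)).card ≤ ∑ ω : Ω, (F.filter (p ω)).card :=
    Finset.sum_le_sum_of_subset (Finset.subset_univ _)
  have e3 : ∑ ω : Ω, (F.filter (p ω)).card =
      ∑ ψ ∈ F, (Finset.univ.filter fun ω => p ω ψ).card := by
    simp only [Finset.card_filter]
    exact Finset.sum_comm
  rw [Finset.sum_const, smul_eq_mul] at e1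
  have e4 : a * (B.card * 2) ≤ a * C := by
    calc a * (B.card * 2) = B.card * (2 * a) := by ring
      _ ≤ a * C := by omega
  exact Nat.le_of_mul_le_mul_left e4 ha

/-- the union bound -/
theorem union_le {Ω X : Type*} [Fintype Ω] (S : Finset X) (p : X → Ω → Prop) :
    {ω | ∃ x ∈ S, p x ω}.ncard ≤ ∑ x ∈ S, {ω | p x ω}.ncard := by
  classical
  simp only [ncard_univ]
  refine le_trans (Finset.card_le_card ?_)
    (Finset.card_biUnion_le (s := S) (t := fun x => Finset.univ.filter (p x)))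
  intro ω hω
  obtain ⟨x, hx, hp⟩ := (Finset.mem_filter.1 hω).2
  exact Finset.mem_biUnion.2 ⟨x, hx, Finset.mem_filter.2 ⟨Finset.mem_univ _, hp⟩⟩

/-- there are at most `2 ^ l` strings of length `l` -/
theorem card_len (S : Finset Str) (l : ℕ) (h : ∀ ψ ∈ S, ψ.length = l) : S.card ≤ 2 ^ l := by
  classical
  have h1 : S ⊆ (Finset.univ : Finset (List.Vector Bool l)).image List.Vector.toList := by
    intro ψ hψ
    exact Finset.mem_image.2 ⟨⟨ψ, h ψ hψ⟩, Finset.mem_univ _, rfl⟩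
  refine (Finset.card_le_card h1).trans (Finset.card_image_le.trans ?_)
  rw [Finset.card_univ, card_vector, Fintype.card_bool]

/-- the sum over the strings of the lengths `m + 1, ..., N` -/
theorem sum_len (F : Str → ℕ) (m N C : ℕ)
    (h : ∀ ψ ∈ FF m N, F ψ * 2 ^ (8 * ψ.length) ≤ C) :
    (∑ ψ ∈ FF m N, F ψ) * 2 ^ (7 * (m + 1)) ≤ N * C := by
  classical
  have hmap : ∀ ψ ∈ FF m N, ψ.length ∈ Finset.Icc (m + 1) N := by
    intro ψ hψ
    rw [mem_FF] at hψ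
    rw [Finset.mem_Icc]
    omega
  rw [Finset.sum_mul, ← Finset.sum_fiberwise_of_maps_to hmap]
  have hin : ∀ l ∈ Finset.Icc (m + 1) N,
      ∑ ψ ∈ (FF m N).filter (fun ψ => ψ.length = l), F ψ * 2 ^ (7 * (m + 1)) ≤ C := by
    intro l hl
    rw [Finset.mem_Icc] at hl
    refine Nat.le_of_mul_le_mul_left (c := 2 ^ l) ?_ (by positivity)
    rw [Finset.mul_sum]
    have h1 : ∀ ψ ∈ (FF m N).filter (fun ψ => ψ.length = l),
        2 ^ l * (F ψ * 2 ^ (7 * (m + 1))) ≤ C := by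
      intro ψ hψ
      obtain ⟨h2, h3⟩ := Finset.mem_filter.1 hψ
      refine le_trans ?_ (h ψ h2)
      rw [h3]
      have e1 : 2 ^ l * (F ψ * 2 ^ (7 * (m + 1))) = F ψ * 2 ^ (l + 7 * (m + 1)) := by
        rw [pow_add]
        ring
      rw [e1]
      exact Nat.mul_le_mul_left _ (Nat.pow_le_pow_right (by norm_num) (by omega))
    refine (Finset.sum_le_card_nsmul _ _ _ h1).trans ?_
    rw [smul_eq_mul]
    exact Nat.mul_le_mul_right _ (card_len _ l fun ψ hψ => (Finset.mem_filter.1 hψ).2)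
  refine (Finset.sum_le_card_nsmul _ _ _ hin).trans ?_
  rw [smul_eq_mul, Nat.card_Icc]
  exact Nat.mul_le_mul_right _ (by omega)

end GOOD_

open GOOD_ in
theorem p_GOOD (h1 : T_INJC) (h2 : T_BADC) (h3 : T_INVC) : T_GOOD := by
  intro K G q R₀ m₀ hH hR₀ m N s W Z hm₀ hm1 hNs hsm hP hW hZc hZ
  classical
  have hC : 0 < Fintype.card (Om m N) :=
    Fintype.card_pos_iff.2 ⟨fun u => List.Vector.replicate _ false⟩
  set C := Fintype.card (Om m N) with hCdef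
  -- not regular
  have hb1 : {ω : Om m N | ¬ Reg (ex R₀ ω)}.ncard * 8 ≤ C :=
    h1 R₀ m N hR₀ hm1 (hNs.trans (Nat.pow_le_pow_right (by norm_num) (by omega)))
  -- questions about the preimage
  have hb2 : {ω : Om m N | 2 * 2 ^ (2 * s) <
      {ψ | ψ ∈ FF m N ∧ ψ ∈ G.T (ex R₀ ω) (ex R₀ ω ψ)}.ncard}.ncard * 2 ≤ C := by
    refine markov (FF m N) (fun (ω : Om m N) ψ => ψ ∈ G.T (ex R₀ ω) (ex R₀ ω ψ)) (2 ^ (2 * s)) C
      (by positivity) ((h3 G R₀ m N s hP).trans ?_)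
    refine Nat.mul_le_mul_right _ ?_
    calc N * 2 ^ s ≤ 2 ^ s * 2 ^ s := Nat.mul_le_mul_right _ hNs
      _ = 2 ^ (2 * s) := by rw [← pow_add, two_mul]
  -- bad events
  have hb3 : {ω : Om m N | ∃ w ∈ W, ∃ z ∈ Z, ∃ ψ ∈ FF m N, Bad K G (ex R₀ ω) w z ψ}.ncard * 8
      ≤ C := by
    have e1 : {ω : Om m N | ∃ w ∈ W, ∃ z ∈ Z, ∃ ψ ∈ FF m N, Bad K G (ex R₀ ω) w z ψ}.ncard ≤
        ∑ w ∈ W, ∑ z ∈ Z, ∑ ψ ∈ FF m N, {ω : Om m N | Bad K G (ex R₀ ω) w z ψ}.ncard := by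
      refine (union_le W fun w (ω : Om m N) =>
        ∃ z ∈ Z, ∃ ψ ∈ FF m N, Bad K G (ex R₀ ω) w z ψ).trans (Finset.sum_le_sum fun w _ => ?_)
      refine (union_le Z fun z (ω : Om m N) =>
        ∃ ψ ∈ FF m N, Bad K G (ex R₀ ω) w z ψ).trans (Finset.sum_le_sum fun z _ => ?_)
      exact union_le (FF m N) fun ψ (ω : Om m N) => Bad K G (ex R₀ ω) w z ψ
    have e2 : (∑ w ∈ W, ∑ z ∈ Z, ∑ ψ ∈ FF m N,
        {ω : Om m N | Bad K G (ex R₀ ω) w z ψ}.ncard) * 2 ^ (7 * (m + 1)) ≤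
        2 ^ m * (2 ^ (2 * s + 2) * (2 ^ s * C)) := by
      rw [Finset.sum_mul]
      refine (Finset.sum_le_card_nsmul W _ (2 ^ (2 * s + 2) * (2 ^ s * C)) fun w hw => ?_).trans ?_
      · rw [Finset.sum_mul]
        refine (Finset.sum_le_card_nsmul Z _ (2 ^ s * C) fun z hz => ?_).trans ?_
        · refine (sum_len _ m N C fun ψ hψ => ?_).trans (Nat.mul_le_mul_right _ hNs)
          exact h2 K G q R₀ m₀ hH hR₀ m N w z ψ hm₀ (hW w hw) (hZ z hz).1 (hZ z hz).2 hψ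
        · rw [smul_eq_mul]
          exact Nat.mul_le_mul_right _ hZc
      · rw [smul_eq_mul]
        exact Nat.mul_le_mul_right _ (card_len W m hW)
    have e3 : 2 ^ m * (2 ^ (2 * s + 2) * (2 ^ s * C)) = 2 ^ (m + 3 * s + 2) * C := by
      have : m + 3 * s + 2 = m + ((2 * s + 2) + s) := by ring
      rw [this, pow_add 2 m, pow_add 2 (2 * s + 2) s]
      ring
    rw [e3] at e2
    refine Nat.le_of_mul_le_mul_left (c := 2 ^ (m + 3 * s + 2)) (le_trans ?_ e2) (by positivity)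
    have e4 : 2 ^ (m + 3 * s + 2) * 8 ≤ 2 ^ (7 * (m + 1)) := by
      calc 2 ^ (m + 3 * s + 2) * 8 = 2 ^ (m + 3 * s + 2 + 3) := by rw [pow_add _ _ 3]; norm_num
        _ ≤ 2 ^ (7 * (m + 1)) := Nat.pow_le_pow_right (by norm_num) (by omega)
    set X := {ω : Om m N | ∃ w ∈ W, ∃ z ∈ Z, ∃ ψ ∈ FF m N, Bad K G (ex R₀ ω) w z ψ}.ncard
    calc 2 ^ (m + 3 * s + 2) * (X * 8) = X * (2 ^ (m + 3 * s + 2) * 8) := by ring
      _ ≤ X * 2 ^ (7 * (m + 1)) := Nat.mul_le_mul_left _ e4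
      _ ≤ _ := Nat.mul_le_mul_right _ e1
  -- a good point
  obtain ⟨ω, ha, hb, hc⟩ : ∃ ω : Om m N, Reg (ex R₀ ω) ∧
      {ψ | ψ ∈ FF m N ∧ ψ ∈ G.T (ex R₀ ω) (ex R₀ ω ψ)}.ncard ≤ 2 * 2 ^ (2 * s) ∧
      ∀ w ∈ W, ∀ z ∈ Z, ∀ ψ ∈ FF m N, ¬ Bad K G (ex R₀ ω) w z ψ := by
    by_contra hcon
    push Not at hcon
    set B1 := {ω : Om m N | ¬ Reg (ex R₀ ω)} with hB1
    set B2 := {ω : Om m N | 2 * 2 ^ (2 * s) <
      {ψ | ψ ∈ FF m N ∧ ψ ∈ G.T (ex R₀ ω) (ex R₀ ω ψ)}.ncard} with hB2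
    set B3 := {ω : Om m N | ∃ w ∈ W, ∃ z ∈ Z, ∃ ψ ∈ FF m N, Bad K G (ex R₀ ω) w z ψ} with hB3
    have hU : (Set.univ : Set (Om m N)) ⊆ (B1 ∪ B2) ∪ B3 := by
      intro ω _
      by_cases c1 : Reg (ex R₀ ω)
      · by_cases c2 : {ψ | ψ ∈ FF m N ∧ ψ ∈ G.T (ex R₀ ω) (ex R₀ ω ψ)}.ncard ≤ 2 * 2 ^ (2 * s)
        · exact Or.inr (hcon ω c1 c2)
        · exact Or.inl (Or.inr (not_le.1 c2))
      · exact Or.inl (Or.inl c1)
    have h5 := Set.ncard_le_ncard hU (Set.toFinite _)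
    rw [Set.ncard_univ, Nat.card_eq_fintype_card, ← hCdef] at h5
    have h6 := Set.ncard_union_le (B1 ∪ B2) B3
    have h7 := Set.ncard_union_le B1 B2
    omega
  have hagr : Agr (m + 1) R₀ (ex R₀ ω) := by
    intro u hu
    unfold ex
    rw [dif_neg]
    rw [mem_FF]
    omega
  refine ⟨ex R₀ ω, ha, hagr, fun z hz u hu => ?_, ?_, hc⟩
  · have h8 := ha.len u
    rw [hu, (hZ z hz).1] at h8
    exact (hZ z hz).2 u ((hagr u (by omega)).trans hu)
  · refine hb.trans (le_of_eq ?_)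
    rw [pow_succ]
    ring

end Pool.Agent.RDS
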