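import Pool.Agent.RDS.Targets

set_option autoImplicit false

/-!
# RDS, target KOK: locality of the universal set
-/

namespace Pool.Agent.RDS

open Pool.Agent.DSR (Lang PolyTime encPair encBool Ans Letter encAns)

namespace KOK_

theorem key_len (v : Str) : (key v).length ≤ v.length := by
  unfold key
  rw [List.length_tail]
  have h := (List.dropWhile_sublist (id : Bool → Bool) (l := v)).length_le
  omega

theorem mem_sum {vs : List Str} {v : Str} (h : v ∈ vs) :
    v.length + 1 ≤ (vs.map fun v => v.length + 1).sum := by
  induction vs with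
  | nil => simp at h
  | cons a l ih =>
    rw [List.map_cons, List.sum_cons]
    rcases List.mem_cons.1 h with h | h
    · subst h
      omega
    · have := ih h
      omega

theorem orc_agr (U : Str → Bool) {R R' : Str → Str} {m : ℕ} (h : Agr m R R') {v : Str}
    (hv : v.length ≤ m) : orc U R v = orc U R' v := by
  match v with
  | [] => rfl
  | true :: v => rfl
  | false :: v =>
    have h1 : (key v).length < m := by
      have h2 := key_len v
      rw [List.length_cons] at hv
      omega
    change (R (key v)).getD (v.takeWhile id).length false =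
      (R' (key v)).getD (v.takeWhile id).length false
    rw [h _ h1]

theorem loc1 (E : ℕ → Ver) (U : Str → Bool) {R R' : Str → Str} {ψ : Str}
    (h : Agr ψ.length R R') (hψ : ψ ∈ KK E U R) : ψ ∈ KK E U R' := by
  obtain ⟨w, vs, h1, h2⟩ := hψ
  refine ⟨w, vs, h1, ?_⟩
  have h3 : vs.map (orc U R') = vs.map (orc U R) := by
    refine List.map_congr_left fun v hv => ?_
    refine (orc_agr U h ?_).symm
    have h4 := mem_sum hv
    unfold tsz at h1
    omega
  rw [h3]
  exact h2

theorem ins_inj (i : ℕ) : Function.Injective (ins i 0) := by
  intro x y h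
  unfold ins at h
  simpa using h

theorem ins_len (i : ℕ) (x : Str) : (ins i 0 x).length = i + 2 + x.length := by
  unfold ins
  simp
  omega

end KOK_

theorem p_KOK : T_KOK := by
  classical
  intro E U hE
  obtain ⟨i, hi⟩ := hE
  refine ⟨fun R R' ψ h => ⟨KOK_.loc1 E U h, KOK_.loc1 E U fun u hu => (h u hu).symm⟩,
    i + 2, fun m hm => ?_⟩
  refine ⟨(Finset.univ : Finset (List.Vector Bool (m - (i + 2)))).image
    (fun v => ins i 0 v.toList), ?_, ?_⟩
  · have hinj : Function.Injective fun v : List.Vector Bool (m - (i + 2)) => ins i 0 v.toList :=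
      (KOK_.ins_inj i).comp List.Vector.toList_injective
    rw [Finset.card_image_of_injective _ hinj, Finset.card_univ, card_vector, Fintype.card_bool]
  · intro w hw
    obtain ⟨v, -, rfl⟩ := Finset.mem_image.1 hw
    refine ⟨?_, fun R => ?_⟩
    · rw [KOK_.ins_len, List.Vector.toList_length]
      omega
    · refine ⟨[], [], ?_, i, 0, v.toList, rfl, ?_⟩
      · simp [tsz]
      · rw [hi]
        exact ⟨by simp, rfl, fun j h => absurd h (by simp), rfl⟩

end Pool.Agent.RDS
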