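import Pool.Agent.RDS.Targets

set_option autoImplicit false

/-! # RDS, PERS: a failure depends on finitely many values -/

namespace Pool.Agent.RDS

open Pool.Agent.DSR (Lang PolyTime encPair encBool Ans Letter encAns)

namespace PERS_

theorem agr_mono {R R' : Str → Str} {m n : ℕ} (h : Agr n R R') (hmn : m ≤ n) : Agr m R R' :=
  fun u hu => h u (lt_of_lt_of_le hu hmn)

theorem agr_symm {R R' : Str → Str} {m : ℕ} (h : Agr m R R') : Agr m R' R :=
  fun u hu => (h u hu).symm

theorem AA_imp {K : (Str → Str) → Set Str} (hK : KOk K) {R R' : Str → Str} (hR : Reg R) {z : Str}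
    (h : Agr z.length R R') (hz : z ∈ AA K R) : z ∈ AA K R' := by
  obtain ⟨ψ, h1, h2⟩ := hz
  have h3 : ψ.length < z.length := by
    rw [← h2, hR.len]
    omega
  exact ⟨ψ, (hK.loc R R' ψ (agr_mono h h3.le)).mp h1, by rw [← h ψ h3, h2]⟩

theorem AA_iff {K : (Str → Str) → Set Str} (hK : KOk K) {R R' : Str → Str} (hR : Reg R)
    (hR' : Reg R') {z : Str} {m : ℕ} (h : Agr m R R') (hz : z.length ≤ m) :
    z ∈ AA K R ↔ z ∈ AA K R' :=
  ⟨AA_imp hK hR (agr_mono h hz), AA_imp hK hR' (agr_mono (agr_symm h) hz)⟩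

/-- a bound for the lengths of the members of a finite set -/
def bd (s : Finset Str) : ℕ := s.sup List.length

theorem le_bd {s : Finset Str} {u : Str} (h : u ∈ s) : u.length ≤ bd s :=
  Finset.le_sup (f := List.length) h

theorem g_eq (G : Alg) {R R' : Str → Str} {y : Str} {m : ℕ} (h : Agr m R R')
    (hm : bd (G.T R y) < m) : G.g R' y = G.g R y :=
  (G.loc R R' y fun u hu => h u (lt_of_le_of_lt (le_bd hu) hm)).1

end PERS_

open PERS_ in
theorem p_PERS : T_PERS := by
  intro K hK G q R hR hC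
  unfold Corr at hC
  rw [not_and_or] at hC
  rcases hC with hC | hC
  · push Not at hC
    obtain ⟨x, hx⟩ := hC
    have key : ∀ a, G.g R x = some a → ∃ m, ∀ R', Reg R' → Agr m R R' →
        (Right (AA K R') x a ↔ Right (AA K R) x a) := by
      intro a _
      cases a with
      | accept =>
        exact ⟨x.length, fun R' hR' h => (AA_iff hK hR hR' h le_rfl).symm⟩
      | reject =>
        exact ⟨x.length, fun R' hR' h => not_congr (AA_iff hK hR hR' h le_rfl).symm⟩
      | ask l =>
        refine ⟨max x.length (bd l.toFinset), fun R' hR' h => ?_⟩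
        have h1 := AA_iff hK hR hR' h (le_max_left _ _)
        have h2 : (∃ y ∈ l, y ∈ AA K R') ↔ ∃ y ∈ l, y ∈ AA K R := by
          refine exists_congr fun y => and_congr_right fun hy => ?_
          exact (AA_iff hK hR hR' h ((le_bd (List.mem_toFinset.mpr hy)).trans
            (le_max_right _ _))).symm
        change (x ∈ AA K R' ↔ ∃ y ∈ l, y ∈ AA K R') ↔ (x ∈ AA K R ↔ ∃ y ∈ l, y ∈ AA K R)
        rw [← h1, h2]
    cases hg : G.g R x with
    | none =>
      refine ⟨bd (G.T R x) + 1, fun R' hR' h hC' => ?_⟩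
      obtain ⟨a, h1, -⟩ := hC'.1 x
      rw [g_eq G h (Nat.lt_succ_self _), hg] at h1
      exact absurd h1 (by simp)
    | some a =>
      obtain ⟨m, hm⟩ := key a hg
      refine ⟨max m (bd (G.T R x) + 1), fun R' hR' h hC' => ?_⟩
      obtain ⟨b, h1, h2⟩ := hC'.1 x
      rw [g_eq G h (lt_of_lt_of_le (Nat.lt_succ_self _) (le_max_right _ _)), hg] at h1
      obtain rfl : a = b := Option.some.inj h1
      exact hx a hg ((hm R' hR' (agr_mono h (le_max_left _ _))).mp h2)
  · push Not at hC
    obtain ⟨c, k, hch, hb⟩ := hC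
    refine ⟨(Finset.range k).sup (fun i => bd (G.T R (c i))) + 1, fun R' hR' h hC' => ?_⟩
    have h1 : Chn G R' c k := by
      intro i hi
      obtain ⟨l, h2, h3⟩ := hch i hi
      refine ⟨l, ?_, h3⟩
      rw [g_eq G h ?_, h2]
      exact Nat.lt_succ_of_le (Finset.le_sup (f := fun i => bd (G.T R (c i)))
        (Finset.mem_range.mpr hi))
    obtain ⟨h4, h5⟩ := hC'.2 c k h1
    exact absurd h5 (not_le.mpr (hb h4))

end Pool.Agent.RDS
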