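import Pool.Agent.RDS.Targets

set_option autoImplicit false

/-!
# RDS, target PRE: flipping strings
-/

namespace Pool.Agent.RDS

theorem p_PRE : T_PRE := by
  intro K hK R w z y hy hny hyz
  obtain ⟨ψ, hψK, hψ⟩ := hy
  have hψw : ψ ≠ w := by
    intro h
    rw [h, up_self] at hψ
    exact hyz hψ.symm
  rw [up_ne R z hψw] at hψ
  refine ⟨ψ, hψ, hψw, hψK, ?_⟩
  by_contra hlt
  have hle : ψ.length ≤ w.length := by omega
  exact hny ⟨ψ, (hK.loc R (up R w z) ψ (up_agr R z hle)).2 hψK, hψ⟩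

end Pool.Agent.RDS
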