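import Pool.Agent.RDS.Targets

set_option autoImplicit false

/-!
# RDS: PRV (helper39)
-/

namespace Pool.Agent.RDS

open Pool.Agent.DSR (Lang PolyTime encPair encBool Ans Letter encAns)

namespace PRV_

theorem step (K : (Str → Str) → Set Str) (G : Alg) (q : Polynomial ℕ) (R : Str → Str)
    (w z z' : Str) (D : ℕ) (hC : Corr K G q (up R w z)) (hU : Unt G R w z' D)
    (c : ℕ → Str) (k : ℕ) (hk : k ≤ D) (h0 : c 0 = z') (hc : Chn G R c k) :
    ∀ i, i ≤ k → c i ∈ AA K (up R w z) → c 0 ∈ AA K (up R w z) := by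
  intro i
  induction i with
  | zero => intro _ h; exact h
  | succ i ih =>
    intro hi h
    refine ih (by omega) ?_
    have hw : w ∉ G.T R (c i) := hU c i (by omega) h0 fun j hj => hc j (by omega)
    obtain ⟨l, hl, hm⟩ := hc i (by omega)
    have h1 := (G.loc R (up R w z) (c i) fun u hu => by
      rw [up_ne R z]
      rintro rfl
      exact hw hu).1
    obtain ⟨a, ha, hR⟩ := hC.1 (c i)
    rw [h1, hl] at ha
    obtain rfl : Ans.ask l = a := Option.some.inj ha
    exact hR.2 ⟨_, hm, h⟩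

end PRV_

theorem p_PRV : T_PRV := by
  intro K G q R w z z' D hC hz hU c k hk h0 hc h
  have h1 := PRV_.step K G q R w z z' D hC hU c k hk h0 hc k le_rfl h
  obtain ⟨ψ, -, h2⟩ := h1
  exact hz ψ (h2.trans h0)

end Pool.Agent.RDS
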