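import Pool.Agent.RDS.Targets

set_option autoImplicit false

/-!
# RNK: no repetition in chains
-/

namespace Pool.Agent.RDS

namespace RNK_

theorem mod_succ (t p : ℕ) (hp : 0 < p) :
    (t + 1) % p = if t % p + 1 = p then 0 else t % p + 1 := by
  have h := Nat.mod_lt t hp
  split_ifs with h1
  · have h2 : t + 1 = p * (t / p + 1) := by
      have := Nat.div_add_mod t p
      rw [mul_add, mul_one]
      omega
    rw [h2, Nat.mul_mod_right]
  · have h2 : t + 1 = (t % p + 1) + p * (t / p) := by
      have := Nat.div_add_mod t p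
      omega
    rw [h2, Nat.add_mul_mod_self_left, Nat.mod_eq_of_lt (by omega)]

end RNK_

/-- RNK -/
theorem p_RNK : T_RNK := by
  intro G R q hq c k hc i j hij hjk heq
  obtain ⟨p, hp, hj⟩ : ∃ p, 0 < p ∧ j = i + p := ⟨j - i, by omega, by omega⟩
  have hch : ∀ k', Chn G R (fun t => c (i + t % p)) k' := by
    intro k' t _
    have h0 := Nat.mod_lt t hp
    have h1 : Kid G R (c (i + t % p)) (c (i + t % p + 1)) := hc _ (by omega)
    show Kid G R (c (i + t % p)) (c (i + (t + 1) % p))
    rw [RNK_.mod_succ t p hp]
    split_ifs with h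
    · have h2 : i + t % p + 1 = j := by omega
      rw [h2, ← heq] at h1
      exact h1
    · exact h1
  have h3 := hq (fun t => c (i + t % p)) _ (hch (q.eval (c (i + 0 % p)).length + 1))
  have h4 : q.eval (c (i + 0 % p)).length + 1 ≤ q.eval (c (i + 0 % p)).length := h3
  omega

end Pool.Agent.RDS
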