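import Pool.Agent.RDS.Targets

set_option autoImplicit false

/-!
# RDS: proof of TRE

A string which is not asked about in any of the trees of chains which start at the members of `Z`.
-/

namespace Pool.Agent.RDS

open Pool.Agent.DSR (Lang PolyTime encPair encBool Ans Letter encAns)

namespace TRE_

/-- the members of a value -/
def mem : Option Ans → Finset Str
  | some (.ask l) => l.toFinset
  | _ => ∅

theorem mem_iff (a : Option Ans) (y : Str) :
    y ∈ mem a ↔ ∃ l, a = some (.ask l) ∧ y ∈ l := by
  constructor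
  · intro h
    match a, h with
    | some (.ask l), h => exact ⟨l, rfl, List.mem_toFinset.mp h⟩
    | some .accept, h => exact absurd h (Finset.notMem_empty _)
    | some .reject, h => exact absurd h (Finset.notMem_empty _)
    | none, h => exact absurd h (Finset.notMem_empty _)
  · rintro ⟨l, rfl, h⟩
    exact List.mem_toFinset.mpr h

theorem card_mem (G : Alg) (R : Str → Str) (y : Str) :
    (mem (G.g R y)).card ≤ G.P.eval y.length := by
  rcases Finset.eq_empty_or_nonempty (mem (G.g R y)) with h | ⟨x, hx⟩
  · rw [h, Finset.card_empty]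
    exact Nat.zero_le _
  · obtain ⟨l, hl, -⟩ := (mem_iff _ _).mp hx
    rw [hl]
    exact (List.toFinset_card_le l).trans (G.kids R y l hl)

/-- the members number `j` of the chains which start at `z` -/
def lev (G : Alg) (R : Str → Str) (z : Str) : ℕ → Finset Str
  | 0 => {z}
  | j + 1 => (lev G R z j).biUnion fun y => mem (G.g R y)

theorem lev_of (G : Alg) (R : Str → Str) (c : ℕ → Str) (k : ℕ) (h : Chn G R c k) :
    c k ∈ lev G R (c 0) k := by
  induction k with
  | zero => exact Finset.mem_singleton_self _
  | succ k ih =>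
    have h1 := ih fun i hi => h i (by omega)
    refine Finset.mem_biUnion.mpr ⟨c k, h1, ?_⟩
    exact (mem_iff _ _).mpr (h k (by omega))

theorem chain_of (G : Alg) (R : Str → Str) (z : Str) (j : ℕ) :
    ∀ y ∈ lev G R z j, ∃ c : ℕ → Str, c 0 = z ∧ Chn G R c j ∧ c j = y := by
  induction j with
  | zero =>
    intro y hy
    refine ⟨fun _ => z, rfl, fun i hi => absurd hi (by omega), ?_⟩
    exact (Finset.mem_singleton.mp hy).symm
  | succ j ih =>
    intro y hy
    obtain ⟨x, hx, hxy⟩ := Finset.mem_biUnion.mp hy
    obtain ⟨c, h0, hc, hj⟩ := ih x hx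
    refine ⟨fun i => if i ≤ j then c i else y, ?_, ?_, ?_⟩
    · show (if 0 ≤ j then c 0 else y) = z
      rw [if_pos (Nat.zero_le j), h0]
    · intro i hi
      show Kid G R (if i ≤ j then c i else y) (if i + 1 ≤ j then c (i + 1) else y)
      rw [if_pos (by omega : i ≤ j)]
      by_cases hij : i + 1 ≤ j
      · rw [if_pos hij]
        exact hc i (by omega)
      · rw [if_neg hij]
        have : i = j := by omega
        rw [this, hj]
        exact (mem_iff _ _).mp hxy
    · show (if j + 1 ≤ j then c (j + 1) else y) = y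
      rw [if_neg (by omega)]

end TRE_

open TRE_ in
theorem p_TRE : T_TRE := by
  intro G R q N s D W Z hq hN hP hcard
  -- the sizes of the members of the levels
  have hlen : ∀ z ∈ Z, ∀ j, ∀ y ∈ lev G R z j, G.P.eval y.length ≤ 2 ^ s := by
    intro z hz j y hy
    obtain ⟨c, h0, hc, hj⟩ := chain_of G R z j y hy
    have h1 := hq c j hc
    rw [h0, hj] at h1
    have h2 := hN z hz
    exact hP _ (by omega)
  have hlev : ∀ z ∈ Z, ∀ j, (lev G R z j).card ≤ 2 ^ (s * j) := by
    intro z hz j
    induction j with
    | zero =>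
      rw [Nat.mul_zero, pow_zero]
      exact (Finset.card_singleton z).le
    | succ j ih =>
      have h1 : (lev G R z (j + 1)).card ≤ (lev G R z j).card * 2 ^ s :=
        Finset.card_biUnion_le_card_mul _ _ _ fun y hy =>
          (card_mem G R y).trans (hlen z hz j y hy)
      calc (lev G R z (j + 1)).card ≤ (lev G R z j).card * 2 ^ s := h1
        _ ≤ 2 ^ (s * j) * 2 ^ s := Nat.mul_le_mul_right _ ih
        _ = 2 ^ (s * (j + 1)) := by rw [← pow_add, Nat.mul_succ]
  -- the forbidden strings
  let F : Str → Finset Str := fun z =>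
    (Finset.range (D + 1)).biUnion fun j => (lev G R z j).biUnion fun y => G.T R y
  have hF : ∀ z ∈ Z, (F z).card ≤ (D + 1) * 2 ^ (s * (D + 1)) := by
    intro z hz
    have h1 : (F z).card ≤ (Finset.range (D + 1)).card * 2 ^ (s * (D + 1)) := by
      refine Finset.card_biUnion_le_card_mul _ _ _ fun j hj => ?_
      have hjD : j < D + 1 := Finset.mem_range.mp hj
      have h2 : ((lev G R z j).biUnion fun y => G.T R y).card ≤ (lev G R z j).card * 2 ^ s :=
        Finset.card_biUnion_le_card_mul _ _ _ fun y hy =>
          (G.cardT R y).trans (hlen z hz j y hy)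
      calc ((lev G R z j).biUnion fun y => G.T R y).card ≤ (lev G R z j).card * 2 ^ s := h2
        _ ≤ 2 ^ (s * j) * 2 ^ s := Nat.mul_le_mul_right _ (hlev z hz j)
        _ = 2 ^ (s * (j + 1)) := by rw [← pow_add, Nat.mul_succ]
        _ ≤ 2 ^ (s * (D + 1)) :=
          Nat.pow_le_pow_right (by norm_num) (Nat.mul_le_mul_left s (by omega))
    rwa [Finset.card_range] at h1
  have hall : (Z.biUnion F).card < W.card :=
    (Finset.card_biUnion_le_card_mul _ _ _ hF).trans_lt hcard
  obtain ⟨w, hw, hwF⟩ := Finset.exists_mem_notMem_of_card_lt_card hall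
  refine ⟨w, hw, fun z hz c k hk h0 hc hT => hwF ?_⟩
  refine Finset.mem_biUnion.mpr ⟨z, hz, ?_⟩
  refine Finset.mem_biUnion.mpr ⟨k, Finset.mem_range.mpr (by omega), ?_⟩
  refine Finset.mem_biUnion.mpr ⟨c k, ?_, hT⟩
  have h1 := lev_of G R c k hc
  rwa [h0] at h1

end Pool.Agent.RDS
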