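import Pool.Agent.RDS.Targets

set_option autoImplicit false

/-!
# RDS-ZEX: strings outside the range
-/

namespace Pool.Agent.RDS

namespace ZEX_

/-- the strings of length `n` -/
def SS (n : ℕ) : Finset Str :=
  (Finset.univ : Finset (List.Vector Bool n)).image List.Vector.toList

theorem mem_SS {n : ℕ} {u : Str} : u ∈ SS n ↔ u.length = n := by
  unfold SS
  rw [Finset.mem_image]
  constructor
  · rintro ⟨v, -, rfl⟩
    exact v.toList_length
  · intro h
    exact ⟨⟨u, h⟩, Finset.mem_univ _, rfl⟩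

theorem card_SS (n : ℕ) : (SS n).card = 2 ^ n := by
  unfold SS
  rw [Finset.card_image_of_injective _ List.Vector.toList_injective, Finset.card_univ,
    card_vector, Fintype.card_bool]

end ZEX_

open ZEX_ in
theorem p_ZEX : T_ZEX := by
  intro R₀ m a hR h
  have hc : a ≤ ((SS (10 * m + 1)) \ (SS m).image R₀).card := by
    have h1 := Finset.le_card_sdiff ((SS m).image R₀) (SS (10 * m + 1))
    have h2 : ((SS m).image R₀).card ≤ 2 ^ m := Finset.card_image_le.trans (card_SS m).le
    rw [card_SS] at h1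
    omega
  obtain ⟨Z, hZ, hZc⟩ := Finset.exists_subset_card_eq hc
  refine ⟨Z, hZc, fun z hz => ?_⟩
  have h3 := hZ hz
  rw [Finset.mem_sdiff, mem_SS] at h3
  refine ⟨h3.1, fun u hu => h3.2 ?_⟩
  rw [Finset.mem_image]
  refine ⟨u, ?_, hu⟩
  rw [mem_SS]
  have h4 := hR.len u
  rw [hu, h3.1] at h4
  omega

end Pool.Agent.RDS
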