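import Pool.Agent.RDS.Targets

set_option autoImplicit false

/-!
# RDS, block CHN
-/

namespace Pool.Agent.RDS

theorem p_CHN' : T_CHN := by
  intro K G q R w z D hC hC' hz hz' hU
  suffices h : ∀ d ≤ D, ∃ c : ℕ → Str, c 0 = z ∧ Chn G R c d ∧
      ∀ i ≤ d, c i ∈ AA K (up R w z) ∧ c i ∉ AA K R from h D le_rfl
  intro d
  induction d with
  | zero =>
    intro _
    refine ⟨fun _ => z, rfl, fun i hi => absurd hi (by omega), fun i _ => ⟨hz', hz⟩⟩
  | succ d ih =>
    intro hd
    obtain ⟨c, hc0, hc, hA⟩ := ih (by omega)
    have hw : w ∉ G.T R (c d) := hU c d (by omega) hc0 hc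
    have hloc : G.g (up R w z) (c d) = G.g R (c d) := (G.loc R (up R w z) (c d) fun u hu => by
      rw [up_ne]
      rintro rfl
      exact hw hu).1
    obtain ⟨a, ha, hr⟩ := hC.1 (c d)
    obtain ⟨a', ha', hr'⟩ := hC'.1 (c d)
    rw [hloc, ha] at ha'
    obtain rfl : a = a' := Option.some_injective _ ha'
    obtain ⟨h1, h2⟩ := hA d le_rfl
    cases a with
    | accept => exact absurd hr h2
    | reject => exact absurd h1 hr'
    | ask l =>
      obtain ⟨y, hy, hyA⟩ := hr'.1 h1
      have hyR : y ∉ AA K R := fun h => h2 (hr.2 ⟨y, hy, h⟩)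
      refine ⟨fun i => if i ≤ d then c i else y, by simp [hc0], fun i hi => ?_, fun i hi => ?_⟩
      · by_cases hid : i < d
        · have e1 : (fun i => if i ≤ d then c i else y) i = c i := by simp; omega
          have e2 : (fun i => if i ≤ d then c i else y) (i + 1) = c (i + 1) := by simp; omega
          rw [e1, e2]
          exact hc i hid
        · have : i = d := by omega
          subst this
          refine ⟨l, by simpa using ha, by simpa using hy⟩
      · by_cases hid : i ≤ d
        · simp only [hid, if_true]
          exact hA i hid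
        · simp only [hid, if_false]
          exact ⟨hyA, hyR⟩

end Pool.Agent.RDS
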