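import Pool.Agent.RDS.P_ALG
import Pool.Agent.RDS.P_ASY
import Pool.Agent.RDS.P_BADC
import Pool.Agent.RDS.P_BADI
import Pool.Agent.RDS.X_CHN
import Pool.Agent.RDS.P_CNV
import Pool.Agent.RDS.P_CORE
import Pool.Agent.RDS.P_CTB
import Pool.Agent.RDS.P_DBL
import Pool.Agent.RDS.P_GEN
import Pool.Agent.RDS.P_GOOD
import Pool.Agent.RDS.P_HRD
import Pool.Agent.RDS.P_INE
import Pool.Agent.RDS.P_INJC
import Pool.Agent.RDS.P_INVC
import Pool.Agent.RDS.P_KOK
import Pool.Agent.RDS.P_MAIN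
import Pool.Agent.RDS.P_MEM
import Pool.Agent.RDS.P_OUTL
import Pool.Agent.RDS.P_PERS
import Pool.Agent.RDS.P_PRE
import Pool.Agent.RDS.P_PRV
import Pool.Agent.RDS.P_RNK
import Pool.Agent.RDS.P_TRE
import Pool.Agent.RDS.P_UPD
import Pool.Agent.RDS.P_ZEX

set_option autoImplicit false

/-!
# RDS: the main theorem
-/

namespace Pool.Agent.RDS

/-- There are an oracle `O` and an NP-complete set relative to `O` which is not disjunctively
self-reducible relative to `O`, even in the general sense. -/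
theorem main : ∃ (O : Orc) (A : Pool.Agent.DSR.Lang), NPCompleteO O A ∧ ¬ GenSelfRed O A :=
  p_MAIN (p_CORE (p_GOOD (p_INJC p_UPD) (p_BADC p_UPD p_BADI) (p_INVC p_UPD)) p_TRE p_CHN' p_PRV
    (p_DBL p_PRE p_RNK) p_ZEX p_ASY) p_PERS p_GEN p_KOK p_INE p_CTB (p_ALG p_OUTL) p_CNV
    (p_MEM p_CNV) (p_HRD p_CNV p_OUTL)

end Pool.Agent.RDS
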