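import Pool.Agent.RDS.Targets

set_option autoImplicit false

/-!
# RDS, ALG: algorithms with an oracle as abstract algorithms
-/

namespace Pool.Agent.RDS

open Pool.Agent.DSR (Lang PolyTime encPair encBool Ans Letter encAns)

namespace ALG_

/-- the questions of the run -/
def qs {β : Type} (O : Orc) (G : Str × List Bool → Mv β) (x : Str) : ℕ → List Bool → List Str
  | 0, _ => []
  | n + 1, h => match G (x, h) with
    | .out _ => []
    | .ask v => v :: qs O G x n (h ++ [O v])

/-- the string to which a question refers -/
def tk : Str → List Str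
  | [] => []
  | true :: _ => []
  | false :: v => [key v]

theorem tk_length (v : Str) : (tk v).length ≤ 1 := by
  cases v with
  | nil => simp [tk]
  | cons b v => cases b <;> simp [tk]

theorem orc_eq (U : Str → Bool) (R R' : Str → Str) (v : Str) (h : ∀ u ∈ tk v, R u = R' u) :
    orc U R' v = orc U R v := by
  cases v with
  | nil => rfl
  | cons b v =>
    cases b with
    | true => rfl
    | false =>
      simp only [orc]
      rw [h (key v) (by simp [tk])]

theorem qs_length {β : Type} (O : Orc) (G : Str × List Bool → Mv β) (x : Str) :
    ∀ (n : ℕ) (h : List Bool), (qs O G x n h).length ≤ n := by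
  intro n
  induction n with
  | zero => intro h; simp [qs]
  | succ n ih =>
    intro h
    unfold qs
    cases hG : G (x, h) with
    | out b => simp
    | ask v =>
      simp only [List.length_cons]
      have := ih (h ++ [O v])
      omega

theorem run_eq {β : Type} (O O' : Orc) (G : Str × List Bool → Mv β) (x : Str) :
    ∀ (n : ℕ) (h : List Bool), (∀ v ∈ qs O G x n h, O' v = O v) →
      run O' G x n h = run O G x n h ∧ qs O' G x n h = qs O G x n h := by
  intro n
  induction n with
  | zero => intro h _; exact ⟨rfl, rfl⟩
  | succ n ih =>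
    intro h hv
    unfold qs at hv
    unfold run qs
    cases hG : G (x, h) with
    | out b => exact ⟨rfl, rfl⟩
    | ask v =>
      rw [hG] at hv
      simp only [List.mem_cons] at hv
      have h1 : O' v = O v := hv v (Or.inl rfl)
      obtain ⟨h2, h3⟩ := ih (h ++ [O v]) (fun u hu => hv u (Or.inr hu))
      simp only
      rw [h1, h2, h3]
      exact ⟨rfl, rfl⟩

theorem run_out {β : Type} (O : Orc) (G : Str × List Bool → Mv β) (x : Str) (b : β) :
    ∀ (n : ℕ) (h : List Bool), run O G x n h = some b →
      ∃ h' : List Bool, h'.length ≤ h.length + n ∧ G (x, h') = .out b := by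
  intro n
  induction n with
  | zero => intro h hr; simp [run] at hr
  | succ n ih =>
    intro h hr
    unfold run at hr
    cases hG : G (x, h) with
    | out b' =>
      rw [hG] at hr
      simp only [Option.some.injEq] at hr
      subst hr
      exact ⟨h, by omega, hG⟩
    | ask v =>
      rw [hG] at hr
      simp only at hr
      obtain ⟨h', h1, h2⟩ := ih _ hr
      refine ⟨h', ?_, h2⟩
      rw [List.length_append, List.length_singleton] at h1
      omega

theorem eval_mono (p : Polynomial ℕ) {a b : ℕ} (h : a ≤ b) : p.eval a ≤ p.eval b := by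
  rw [Polynomial.eval_eq_sum_range, Polynomial.eval_eq_sum_range]
  exact Finset.sum_le_sum fun i _ => Nat.mul_le_mul_left _ (Nat.pow_le_pow_left h i)

theorem ask_length (l : List Str) : l.length ≤ (encAns (.ask l)).length := by
  unfold encAns
  induction l with
  | nil => simp
  | cons y l ih =>
    simp only [List.flatMap_cons, List.length_append, List.length_cons, List.length_nil] at ih ⊢
    omega

theorem flat_length (l : List Str) : (l.flatMap tk).length ≤ l.length := by
  induction l with
  | nil => simp
  | cons v l ih =>
    have := tk_length v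
    rw [List.flatMap_cons, List.length_append, List.length_cons]
    omega

/-- the strings about which the run asks -/
def tq (U : Str → Bool) (G₀ : Str × List Bool → Mv Ans) (r : Polynomial ℕ) (R : Str → Str)
    (x : Str) : Finset Str :=
  ((qs (orc U R) G₀ x (r.eval x.length) []).flatMap tk).toFinset

theorem tq_card (U : Str → Bool) (G₀ : Str × List Bool → Mv Ans) (r : Polynomial ℕ)
    (R : Str → Str) (x : Str) : (tq U G₀ r R x).card ≤ r.eval x.length :=
  (List.toFinset_card_le _).trans ((flat_length _).trans (qs_length _ _ _ _ _))

theorem tq_loc (U : Str → Bool) (G₀ : Str × List Bool → Mv Ans) (r : Polynomial ℕ)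
    (R R' : Str → Str) (y : Str) (h : ∀ u ∈ tq U G₀ r R y, R u = R' u) :
    run (orc U R') G₀ y (r.eval y.length) [] = run (orc U R) G₀ y (r.eval y.length) [] ∧
      tq U G₀ r R' y = tq U G₀ r R y := by
  have h1 : ∀ v ∈ qs (orc U R) G₀ y (r.eval y.length) [], orc U R' v = orc U R v := by
    intro v hv
    refine orc_eq U R R' v fun u hu => h u ?_
    unfold tq
    rw [List.mem_toFinset, List.mem_flatMap]
    exact ⟨v, hv, hu⟩
  obtain ⟨h2, h3⟩ := run_eq (orc U R) (orc U R') G₀ y (r.eval y.length) [] h1
  refine ⟨h2, ?_⟩
  unfold tq
  rw [h3]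

end ALG_

open ALG_ in
theorem p_ALG (h1 : T_OUTL) : T_ALG := by
  intro U G₀ r hG
  obtain ⟨s, hs⟩ := h1 (encH (id : Str → Str)) (encMv encAns) G₀ hG
  refine ⟨{
    g := fun R x => run (orc U R) G₀ x (r.eval x.length) []
    T := fun R x => tq U G₀ r R x
    P := r + s.comp (Polynomial.X + r)
    loc := fun R R' y h => tq_loc U G₀ r R R' y h
    cardT := fun R y => ?_
    kids := fun R y l h => ?_ }, fun R x => rfl⟩
  · rw [Polynomial.eval_add]
    exact (tq_card U G₀ r R y).trans (Nat.le_add_right _ _)
  · obtain ⟨h', h2, h3⟩ := run_out (orc U R) G₀ y (.ask l) _ _ h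
    have h4 := hs (y, h')
    rw [h3] at h4
    have h5 : (encMv encAns (.out (.ask l))).length = (encAns (.ask l)).length := by
      simp [encMv]
    have h6 : (encH (id : Str → Str) (y, h')).length = y.length + h'.length := by
      simp [encH]
    rw [h5, h6] at h4
    have h7 : s.eval (y.length + h'.length) ≤ s.eval (y.length + r.eval y.length) := by
      refine eval_mono s ?_
      rw [List.length_nil] at h2
      omega
    rw [Polynomial.eval_add, Polynomial.eval_comp, Polynomial.eval_add, Polynomial.eval_X]
    have h8 := ask_length l
    omega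

end Pool.Agent.RDS
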