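import Pool.Agent.RDS.Targets

set_option autoImplicit false

namespace Pool.Agent.RDS

open Pool.Agent.DSR (Lang PolyTime encPair encBool Ans Letter encAns)

namespace CHN_

/-- the next member of the chain -/
theorem step (K : (Str → Str) → Set Str) (G : Alg) (q : Polynomial ℕ) (R : Str → Str)
    (w z x : Str) (hR : Corr K G q R) (hR' : Corr K G q (up R w z)) (h1 : x ∈ AA K (up R w z))
    (h2 : x ∉ AA K R) (hw : w ∉ G.T R x) :
    ∃ y, Kid G R x y ∧ y ∈ AA K (up R w z) ∧ y ∉ AA K R := by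
  obtain ⟨a, ha, hra⟩ := hR.1 x
  obtain ⟨b, hb, hrb⟩ := hR'.1 x
  have hl := (G.loc R (up R w z) x (fun u hu => by
    rw [up_ne]
    rintro rfl
    exact hw hu)).1
  rw [hl, ha] at hb
  obtain rfl : a = b := Option.some.inj hb
  cases a with
  | accept => exact absurd hra h2
  | reject => exact absurd h1 hrb
  | ask l =>
    have e1 : x ∈ AA K R ↔ ∃ y ∈ l, y ∈ AA K R := hra
    have e2 : x ∈ AA K (up R w z) ↔ ∃ y ∈ l, y ∈ AA K (up R w z) := hrb
    obtain ⟨y, hy, hy2⟩ := e2.1 h1
    exact ⟨y, ⟨l, ha, hy⟩, hy2, fun h => h2 (e1.2 ⟨y, hy, h⟩)⟩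

end CHN_

theorem p_CHN : T_CHN := by
  intro K G q R w z D hR hR' h1 h2 hU
  induction D with
  | zero =>
    refine ⟨fun _ => z, rfl, fun i hi => absurd hi (Nat.not_lt_zero i), fun i _ => ⟨h2, h1⟩⟩
  | succ D ih =>
    obtain ⟨c, c0, hc, hm⟩ := ih (fun c k hk => hU c k (hk.trans (Nat.le_succ D)))
    have hD := hm D le_rfl
    obtain ⟨y, hk, hy1, hy2⟩ := CHN_.step K G q R w z (c D) hR hR' hD.1 hD.2
      (hU c D (Nat.le_succ D) c0 hc)
    refine ⟨fun i => if i ≤ D then c i else y, by simp [c0], ?_, ?_⟩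
    · intro i hi
      rcases Nat.lt_or_ge i D with h | h
      · have e1 : i ≤ D := h.le
        have e2 : i + 1 ≤ D := h
        simp only [e1, e2, if_true]
        exact hc i h
      · obtain rfl : i = D := by omega
        have e2 : ¬ i + 1 ≤ i := by omega
        simp only [le_refl, e2, if_true, if_false]
        exact hk
    · intro i hi
      by_cases h : i ≤ D
      · simp only [h, if_true]
        exact hm i h
      · simp only [h, if_false]
        exact ⟨hy1, hy2⟩

end Pool.Agent.RDS
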